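import Mathlib

/-!
# Schwarz lemma for functions with positive real part, and a product over points of the disc
-/

set_option autoImplicit false

open Complex Metric Finset

namespace Pool.Agent.Y947.DL

/-- elementary inequality behind the half plane form of the Schwarz lemma -/
lemma norm_sub_le_norm_add_conj {w a : ℂ} (hw : 0 ≤ w.re) (ha : 0 ≤ a.re) :
    ‖w - a‖ ≤ ‖w + starRingEnd ℂ a‖ := by
  apply le_of_sq_le_sq _ (norm_nonneg _)
  simp only [← Complex.normSq_eq_norm_sq, Complex.normSq_apply, Complex.sub_re, Complex.sub_im,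
    Complex.add_re, Complex.add_im, Complex.conj_re, Complex.conj_im]
  nlinarith [mul_nonneg hw ha]

/-- Schwarz lemma for functions with positive real part -/
lemma schwarz_re {h : ℂ → ℂ} {x : ℂ} {R : ℝ} (hR : 0 < R) (hd : DifferentiableOn ℂ h (ball x R))
    (hp : ∀ z ∈ ball x R, 0 < (h z).re) :
    ‖deriv h x‖ * R ≤ 2 * (h x).re ∧
      ∀ z ∈ ball x R, ‖z - x‖ ≤ 1 / 2 * R → (h z).re ≤ 3 * (h x).re := by
  have hx : x ∈ ball x R := mem_ball_self hR
  have hx0 := hp x hx
  set a := h x with ha
  set G : ℂ → ℂ := fun z => (h z - a) / (h z + starRingEnd ℂ a) with hG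
  have hden : ∀ z ∈ ball x R, h z + starRingEnd ℂ a ≠ 0 := by
    intro z hz h0
    have h1 := congrArg Complex.re h0
    simp only [Complex.add_re, Complex.conj_re, Complex.zero_re] at h1
    have := hp z hz
    linarith
  have hGd : DifferentiableOn ℂ G (ball x R) :=
    (hd.sub_const _).div (hd.add_const _) hden
  have hGx : G x = 0 := by simp [hG, ← ha]
  have hmaps : Set.MapsTo G (ball x R) (closedBall (G x) 1) := by
    intro z hz
    rw [hGx, mem_closedBall_zero_iff, hG]
    dsimp only
    rw [norm_div, div_le_one (norm_pos_iff.mpr (hden z hz))]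
    exact norm_sub_le_norm_add_conj (hp z hz).le hx0.le
  have hsum : a + starRingEnd ℂ a = ((2 * a.re : ℝ) : ℂ) := Complex.add_conj a
  refine ⟨?_, ?_⟩
  · have h1 := norm_deriv_le_div_of_mapsTo_ball hGd hmaps hR
    have hda : DifferentiableAt ℂ h x := hd.differentiableAt (isOpen_ball.mem_nhds hx)
    have h2 : deriv G x = deriv h x / ((2 * a.re : ℝ) : ℂ) := by
      have e1 : HasDerivAt G ((deriv h x * (h x + starRingEnd ℂ a) - (h x - a) * deriv h x) /
          (h x + starRingEnd ℂ a) ^ 2) x :=
        (hda.hasDerivAt.sub_const a).div (hda.hasDerivAt.add_const _) (hden x hx)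
      rw [e1.deriv, ← ha, sub_self, zero_mul, sub_zero, hsum]
      have h3 : ((2 * a.re : ℝ) : ℂ) ≠ 0 := by
        rw [Complex.ofReal_ne_zero]; positivity
      field_simp
    rw [h2, norm_div, Complex.norm_real, Real.norm_of_nonneg (by positivity),
      div_le_div_iff₀ (by positivity) hR, one_mul] at h1
    exact h1
  · intro z hz hzx
    have h1 := dist_le_div_mul_dist_of_mapsTo_ball hGd hmaps hz
    rw [hGx, dist_zero_right, dist_eq_norm] at h1
    have h2 : ‖G z‖ ≤ 1 / 2 := by
      refine h1.trans ?_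
      calc 1 / R * ‖z - x‖ ≤ 1 / R * (1 / 2 * R) := by gcongr
        _ = 1 / 2 := by field_simp
    rw [hG] at h2
    dsimp only at h2
    rw [norm_div, div_le_iff₀ (norm_pos_iff.mpr (hden z hz))] at h2
    have h3 : ‖h z + starRingEnd ℂ a‖ ≤ ‖h z - a‖ + 2 * a.re := by
      have e : h z + starRingEnd ℂ a = (h z - a) + ((2 * a.re : ℝ) : ℂ) := by
        rw [← hsum]; ring
      rw [e]
      refine (norm_add_le _ _).trans ?_
      rw [Complex.norm_real, Real.norm_of_nonneg (by positivity)]
    have h4 : (h z).re - a.re ≤ ‖h z - a‖ := by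
      rw [← Complex.sub_re]; exact Complex.re_le_norm _
    linarith

end Pool.Agent.Y947.DL
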