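import Mathlib
import Pool.Agent.Y947.DL.Disc

/-!
# The potential of a finite set of points of the closed unit disc
-/

set_option autoImplicit false

open Complex Metric Finset

namespace Pool.Agent.Y947.DL

variable {ι : Type*} [Fintype ι]

/-- `L - log |prod (1 - x conj b_j)|` -/
noncomputable def HH (L : ℝ) (b : ι → ℂ) (x : ℂ) : ℝ :=
  L - ∑ j, Real.log ‖1 - x * starRingEnd ℂ (b j)‖

/-- a holomorphic function with real part `HH` -/
noncomputable def hh (L : ℝ) (b : ι → ℂ) (x : ℂ) : ℂ :=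
  L - ∑ j, Complex.log (1 - x * starRingEnd ℂ (b j))

lemma hh_re (L : ℝ) (b : ι → ℂ) (x : ℂ) : (hh L b x).re = HH L b x := by
  unfold hh HH
  rw [Complex.sub_re, Complex.ofReal_re, Complex.re_sum]
  simp only [Complex.log_re]

lemma norm_mul_conj_lt {x w : ℂ} (hx : ‖x‖ < 1) (hw : ‖w‖ ≤ 1) : ‖x * starRingEnd ℂ w‖ < 1 := by
  rw [norm_mul, RCLike.norm_conj]
  calc ‖x‖ * ‖w‖ ≤ ‖x‖ * 1 := mul_le_mul_of_nonneg_left hw (norm_nonneg _)
    _ < 1 := by linarith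

lemma mem_slit {w : ℂ} (hw : ‖w‖ < 1) : 1 - w ∈ slitPlane := by
  left
  have := Complex.re_le_norm w
  simp only [Complex.sub_re, Complex.one_re]
  linarith

lemma one_sub_ne {w : ℂ} (hw : ‖w‖ < 1) : 1 - w ≠ 0 := slitPlane_ne_zero (mem_slit hw)

lemma hh_hasDeriv (L : ℝ) {b : ι → ℂ} (hb : ∀ j, ‖b j‖ ≤ 1) {x : ℂ} (hx : ‖x‖ < 1) :
    HasDerivAt (hh L b) (∑ j, starRingEnd ℂ (b j) / (1 - x * starRingEnd ℂ (b j))) x := by
  unfold hh
  have h1 : ∀ j ∈ (Finset.univ : Finset ι), HasDerivAt (fun x => Complex.log (1 - x * starRingEnd ℂ (b j)))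
      (-(starRingEnd ℂ (b j)) / (1 - x * starRingEnd ℂ (b j))) x := by
    intro j _
    have h2 : HasDerivAt (fun x : ℂ => 1 - x * starRingEnd ℂ (b j)) (-(starRingEnd ℂ (b j))) x := by
      have := ((hasDerivAt_id x).mul_const (starRingEnd ℂ (b j))).const_sub 1
      simpa using this
    exact h2.clog (mem_slit (norm_mul_conj_lt hx (hb j)))
  have h3 := (HasDerivAt.fun_sum h1).const_sub (L : ℂ)
  have e : (∑ j, starRingEnd ℂ (b j) / (1 - x * starRingEnd ℂ (b j))) =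
      - ∑ j, (-(starRingEnd ℂ (b j)) / (1 - x * starRingEnd ℂ (b j))) := by
    rw [← Finset.sum_neg_distrib]
    refine Finset.sum_congr rfl fun j _ => ?_
    ring
  rw [e]
  exact h3

lemma hh_diff (L : ℝ) {b : ι → ℂ} (hb : ∀ j, ‖b j‖ ≤ 1) : DifferentiableOn ℂ (hh L b) (ball 0 1) := by
  intro x hx
  exact (hh_hasDeriv L hb (mem_ball_zero_iff.mp hx)).differentiableAt.differentiableWithinAt

/-- standing assumptions -/
structure Std (L : ℝ) (b : ι → ℂ) : Prop where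
  hb : ∀ j, ‖b j‖ ≤ 1
  hpos : ∀ x : ℂ, ‖x‖ < 1 → 0 < HH L b x

lemma ball_sub {x : ℂ} : ball x (1 - ‖x‖) ⊆ ball 0 1 := by
  intro z hz
  rw [mem_ball_zero_iff]
  rw [mem_ball, dist_eq_norm] at hz
  have := norm_sub_norm_le z x
  linarith

lemma Std.harnack {L : ℝ} {b : ι → ℂ} (h : Std L b) {x y : ℂ} (hx : ‖x‖ < 1)
    (hy : ‖y - x‖ ≤ 1 / 2 * (1 - ‖x‖)) : HH L b y ≤ 3 * HH L b x := by
  have hR : 0 < 1 - ‖x‖ := by linarith
  have h1 := (schwarz_re hR ((hh_diff L h.hb).mono ball_sub) (fun z hz => by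
    rw [hh_re]; exact h.hpos z (mem_ball_zero_iff.mp (ball_sub hz)))).2 y (by
      rw [mem_ball, dist_eq_norm]; linarith) hy
  rw [hh_re, hh_re] at h1
  exact h1

lemma Std.grad {L : ℝ} {b : ι → ℂ} (h : Std L b) {x : ℂ} (hx : ‖x‖ < 1) :
    ‖∑ j, starRingEnd ℂ (b j) / (1 - x * starRingEnd ℂ (b j))‖ * (1 - ‖x‖) ≤ 2 * HH L b x := by
  have hR : 0 < 1 - ‖x‖ := by linarith
  have h1 := (schwarz_re hR ((hh_diff L h.hb).mono ball_sub) (fun z hz => by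
    rw [hh_re]; exact h.hpos z (mem_ball_zero_iff.mp (ball_sub hz)))).1
  rw [hh_re, (hh_hasDeriv L h.hb hx).deriv] at h1
  exact h1

lemma re_div_one_sub {w : ℂ} (hw : ‖w‖ < 1) :
    (1 - ‖w‖ ^ 2) / ‖1 - w‖ ^ 2 = 1 + 2 * (w / (1 - w)).re := by
  have h0 : 0 < Complex.normSq (1 - w) := Complex.normSq_pos.mpr (one_sub_ne hw)
  rw [Complex.div_re, ← Complex.normSq_eq_norm_sq, ← Complex.normSq_eq_norm_sq]
  field_simp
  simp only [Complex.normSq_apply, Complex.sub_re, Complex.sub_im, Complex.one_re, Complex.one_im]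
  ring

/-- the sum of the Poisson type kernels is controlled by the potential -/
lemma Std.sumP_le {L : ℝ} {b : ι → ℂ} (h : Std L b) {x : ℂ} (hx : ‖x‖ < 1) :
    ∑ j, (1 - ‖x * starRingEnd ℂ (b j)‖ ^ 2) / ‖1 - x * starRingEnd ℂ (b j)‖ ^ 2 ≤
      Fintype.card ι + 4 * HH L b x / (1 - ‖x‖) := by
  have hR : 0 < 1 - ‖x‖ := by linarith
  have e1 : ∑ j, (1 - ‖x * starRingEnd ℂ (b j)‖ ^ 2) / ‖1 - x * starRingEnd ℂ (b j)‖ ^ 2 =
      Fintype.card ι + 2 * (x * ∑ j, starRingEnd ℂ (b j) / (1 - x * starRingEnd ℂ (b j))).re := by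
    rw [Finset.mul_sum, Complex.re_sum, Finset.mul_sum]
    have : (Fintype.card ι : ℝ) = ∑ j : ι, (1:ℝ) := by simp
    rw [this, ← Finset.sum_add_distrib]
    refine Finset.sum_congr rfl fun j _ => ?_
    rw [re_div_one_sub (norm_mul_conj_lt hx (h.hb j)), mul_div_assoc]
  rw [e1]
  have h1 := h.grad hx
  set D := ∑ j, starRingEnd ℂ (b j) / (1 - x * starRingEnd ℂ (b j)) with hD
  have h2 : (x * D).re ≤ ‖D‖ := by
    refine (Complex.re_le_norm _).trans ?_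
    rw [norm_mul]
    nlinarith [norm_nonneg D, norm_nonneg x]
  have h3 : ‖D‖ ≤ 2 * HH L b x / (1 - ‖x‖) := by
    rw [le_div_iff₀ hR]; exact h1
  have e2 : 4 * HH L b x / (1 - ‖x‖) = 2 * (2 * HH L b x / (1 - ‖x‖)) := by ring
  rw [e2]
  linarith

/-! ### Radial monotonicity -/

lemma norm_one_sub_sq (s : ℝ) (w : ℂ) : ‖1 - (s : ℂ) * w‖ ^ 2 = 1 - 2 * s * w.re + s ^ 2 * ‖w‖ ^ 2 := by
  have e : ‖w‖ ^ 2 = w.re ^ 2 + w.im ^ 2 := by
    rw [← Complex.normSq_eq_norm_sq, Complex.normSq_apply]; ring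
  rw [e, ← Complex.normSq_eq_norm_sq, Complex.normSq_apply]
  simp; ring

lemma neg_one_le_re {w : ℂ} (hw : ‖w‖ ≤ 1) : -1 ≤ w.re := by
  have h1 := Complex.abs_re_le_norm w
  have h2 := neg_abs_le w.re
  linarith

lemma mono_aux {s s' : ℝ} (hs : 0 ≤ s) (hss : s ≤ s') (hs' : s' ≤ 1) {w : ℂ} (hw : ‖w‖ ≤ 1) :
    (1 + s) * ‖1 - (s' : ℂ) * w‖ ≤ (1 + s') * ‖1 - (s : ℂ) * w‖ := by
  have hs'0 : 0 ≤ s' := hs.trans hss
  apply le_of_sq_le_sq _ (by positivity)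
  rw [mul_pow, mul_pow, norm_one_sub_sq, norm_one_sub_sq]
  have hc := neg_one_le_re hw
  have hq : ‖w‖ ^ 2 ≤ 1 := by nlinarith [norm_nonneg w]
  have key : (1 + s') ^ 2 * (1 - 2 * s * w.re + s ^ 2 * ‖w‖ ^ 2) -
      (1 + s) ^ 2 * (1 - 2 * s' * w.re + s' ^ 2 * ‖w‖ ^ 2) =
      (s' - s) * ((2 + s + s') + 2 * (1 - s * s') * w.re - ‖w‖ ^ 2 * (s + s' + 2 * s * s')) := by ring
  have h1 : 0 ≤ (s' - s) * ((2 + s + s') + 2 * (1 - s * s') * w.re - ‖w‖ ^ 2 * (s + s' + 2 * s * s')) := by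
    apply mul_nonneg (by linarith)
    have h2 : 0 ≤ 1 - s * s' := by nlinarith
    have h3 : 0 ≤ s + s' + 2 * s * s' := by
      have : 0 ≤ s * s' := mul_nonneg hs (hs.trans hss)
      linarith
    nlinarith [mul_nonneg h2 (by linarith : 0 ≤ 1 + w.re), mul_nonneg h3 (by linarith : 0 ≤ 1 - ‖w‖ ^ 2)]
  linarith

lemma log_mono {s s' : ℝ} (hs : 0 ≤ s) (hss : s ≤ s') (hs' : s' < 1) {w : ℂ} (hw : ‖w‖ ≤ 1) :
    Real.log ‖1 - (s' : ℂ) * w‖ ≤ Real.log ‖1 - (s : ℂ) * w‖ + (s' - s) := by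
  have hlt : ∀ t : ℝ, 0 ≤ t → t < 1 → ‖(t : ℂ) * w‖ < 1 := by
    intro t ht ht1
    rw [norm_mul, Complex.norm_real, Real.norm_of_nonneg ht]
    nlinarith [norm_nonneg w]
  have h0 : 0 < ‖1 - (s : ℂ) * w‖ := norm_pos_iff.mpr (one_sub_ne (hlt s hs (by linarith)))
  have h0' : 0 < ‖1 - (s' : ℂ) * w‖ := norm_pos_iff.mpr (one_sub_ne (hlt s' (by linarith) hs'))
  have h1 := mono_aux hs hss hs'.le hw
  have h2 : ‖1 - (s' : ℂ) * w‖ ≤ (1 + s') / (1 + s) * ‖1 - (s : ℂ) * w‖ := by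
    rw [div_mul_eq_mul_div, le_div_iff₀ (by linarith)]
    linarith
  have h3 : Real.log ((1 + s') / (1 + s)) ≤ s' - s := by
    have h4 := Real.log_le_sub_one_of_pos (show 0 < (1 + s') / (1 + s) by
      apply div_pos <;> linarith)
    refine h4.trans ?_
    rw [div_sub_one (by linarith), div_le_iff₀ (by linarith)]
    nlinarith
  have h5 := Real.log_le_log h0' h2
  rw [Real.log_mul (div_pos (by linarith) (by linarith)).ne' h0.ne'] at h5
  linarith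

lemma HH_mono (L : ℝ) {b : ι → ℂ} (hb : ∀ j, ‖b j‖ ≤ 1) {s s' : ℝ} (hs : 0 ≤ s) (hss : s ≤ s')
    (hs' : s' < 1) {e : ℂ} (he : ‖e‖ ≤ 1) :
    HH L b ((s : ℂ) * e) ≤ HH L b ((s' : ℂ) * e) + Fintype.card ι * (s' - s) := by
  unfold HH
  have h1 : ∀ j ∈ (Finset.univ : Finset ι), Real.log ‖1 - (s' : ℂ) * e * starRingEnd ℂ (b j)‖ ≤
      Real.log ‖1 - (s : ℂ) * e * starRingEnd ℂ (b j)‖ + (s' - s) := by
    intro j _
    rw [mul_assoc, mul_assoc]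
    apply log_mono hs hss hs'
    rw [norm_mul, RCLike.norm_conj]
    exact mul_le_one₀ he (norm_nonneg _) (hb j)
  have h2 := Finset.sum_le_sum h1
  rw [Finset.sum_add_distrib, Finset.sum_const, Finset.card_univ, nsmul_eq_mul] at h2
  linarith

/-! ### Moving towards the boundary by a factor -/

lemma log_ratio_le {s s' κ ρ : ℝ} (hκ0 : 0 < κ) (hκ1 : κ ≤ 1) (hρ0 : 0 < ρ) (hρ : ρ ≤ 1 / 2)
    (hs : s = 1 - ρ) (hs' : s' = 1 - κ * ρ) {w : ℂ} (hw : ‖w‖ ≤ 1) :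
    Real.log ‖1 - (s : ℂ) * w‖ ≤ Real.log ‖1 - (s' : ℂ) * w‖ +
      ρ * ((1 - ‖(s : ℂ) * w‖ ^ 2) / ‖1 - (s : ℂ) * w‖ ^ 2) * (7 + 4 * Real.log (1 / κ)) := by
  have hlt : ∀ t : ℝ, 0 ≤ t → t < 1 → ‖(t : ℂ) * w‖ < 1 := by
    intro t ht ht1
    rw [norm_mul, Complex.norm_real, Real.norm_of_nonneg ht]
    nlinarith [norm_nonneg w]
  have hs0 : 1 / 2 ≤ s := by rw [hs]; linarith
  have hs1 : s < 1 := by rw [hs]; linarith
  have hκρ : 0 < κ * ρ := by positivity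
  have hκρ' : κ * ρ ≤ ρ := by nlinarith
  have hs'1 : s' < 1 := by rw [hs']; linarith
  have hss : s ≤ s' := by rw [hs, hs']; linarith
  have h0 : 0 < ‖1 - (s : ℂ) * w‖ := norm_pos_iff.mpr (one_sub_ne (hlt s (by linarith) hs1))
  have h0' : 0 < ‖1 - (s' : ℂ) * w‖ := norm_pos_iff.mpr (one_sub_ne (hlt s' (by linarith) hs'1))
  set A := ‖1 - (s : ℂ) * w‖ ^ 2 with hA
  set B := ‖1 - (s' : ℂ) * w‖ ^ 2 with hB
  set Q := (1 - ‖(s : ℂ) * w‖ ^ 2) / A with hQ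
  have hA0 : 0 < A := by positivity
  have hB0 : 0 < B := by positivity
  have hlogκ : 0 ≤ Real.log (1 / κ) := Real.log_nonneg (by rw [le_div_iff₀ hκ0]; linarith)
  have hnum : 0 < 1 - ‖(s : ℂ) * w‖ ^ 2 := by
    have := hlt s (by linarith) hs1
    nlinarith [norm_nonneg ((s : ℂ) * w)]
  have hQ0 : 0 < Q := div_pos hnum hA0
  have hlogA : Real.log A = 2 * Real.log ‖1 - (s : ℂ) * w‖ := by rw [hA, Real.log_pow]; norm_num
  have hlogB : Real.log B = 2 * Real.log ‖1 - (s' : ℂ) * w‖ := by rw [hB, Real.log_pow]; norm_num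
  have hsw : ‖(s : ℂ) * w‖ ^ 2 = s ^ 2 * ‖w‖ ^ 2 := by
    rw [norm_mul, Complex.norm_real, Real.norm_of_nonneg (by linarith), mul_pow]
  by_cases hcase : 2 * ρ * Q ≤ 1 / 2
  · -- B ≥ A (1 - 2 ρ Q)
    have h1 : A - B ≤ 2 * ρ * (1 - ‖(s : ℂ) * w‖ ^ 2) := by
      have e1 : s * (A - B) = (s' - s) * (1 - s * s' * ‖w‖ ^ 2 - A) := by
        rw [hA, hB, norm_one_sub_sq, norm_one_sub_sq]; ring
      have h2 : (s' - s) * (1 - s * s' * ‖w‖ ^ 2 - A) ≤ ρ * (1 - ‖(s : ℂ) * w‖ ^ 2) := by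
        have h3 : s' - s ≤ ρ := by rw [hs, hs']; linarith
        have h4 : 1 - s * s' * ‖w‖ ^ 2 - A ≤ 1 - ‖(s : ℂ) * w‖ ^ 2 := by
          rw [hsw]
          have : s ^ 2 * ‖w‖ ^ 2 ≤ s * s' * ‖w‖ ^ 2 := by
            apply mul_le_mul_of_nonneg_right _ (by positivity)
            nlinarith
          linarith
        calc (s' - s) * (1 - s * s' * ‖w‖ ^ 2 - A) ≤ (s' - s) * (1 - ‖(s : ℂ) * w‖ ^ 2) :=
              mul_le_mul_of_nonneg_left h4 (by linarith)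
          _ ≤ ρ * (1 - ‖(s : ℂ) * w‖ ^ 2) := mul_le_mul_of_nonneg_right h3 hnum.le
      rw [← e1] at h2
      by_cases hAB : A - B ≤ 0
      · exact hAB.trans (by positivity)
      · push Not at hAB
        nlinarith
    have h5 : A * (1 - 2 * ρ * Q) ≤ B := by
      have : A * Q = 1 - ‖(s : ℂ) * w‖ ^ 2 := by rw [hQ]; field_simp
      have e : A * (1 - 2 * ρ * Q) = A - 2 * ρ * (A * Q) := by ring
      rw [e, this]; linarith
    have h6 : 0 < 1 - 2 * ρ * Q := by linarith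
    have h7 := Real.log_le_log (by positivity) h5
    rw [Real.log_mul hA0.ne' h6.ne'] at h7
    have h8 : - (4 * ρ * Q) ≤ Real.log (1 - 2 * ρ * Q) := by
      have h9 := Real.one_sub_inv_le_log_of_pos h6
      refine le_trans ?_ h9
      rw [neg_le_sub_iff_le_add, inv_eq_one_div, div_le_iff₀ h6]
      nlinarith [mul_pos hρ0 hQ0]
    have h10 : Real.log A ≤ Real.log B + 4 * ρ * Q := by linarith
    rw [hlogA, hlogB] at h10
    nlinarith [mul_pos hρ0 hQ0, mul_nonneg (mul_pos hρ0 hQ0).le hlogκ]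
  · push Not at hcase
    have h1 : ‖1 - (s : ℂ) * w‖ ≤ (2 / κ) * ‖1 - (s' : ℂ) * w‖ := by
      have h2 : ‖1 - (s : ℂ) * w‖ ≤ ‖1 - (s' : ℂ) * w‖ + ρ := by
        have e : 1 - (s : ℂ) * w = (1 - (s' : ℂ) * w) + ((s' - s : ℝ) : ℂ) * w := by
          push_cast; ring
        rw [e]
        refine (norm_add_le _ _).trans ?_
        rw [norm_mul, Complex.norm_real, Real.norm_of_nonneg (by linarith)]
        have h3 : s' - s ≤ ρ := by rw [hs, hs']; linarith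
        nlinarith [norm_nonneg w]
      have h3 : κ * ρ ≤ ‖1 - (s' : ℂ) * w‖ := by
        have h4 := norm_sub_norm_le (1:ℂ) ((s' : ℂ) * w)
        rw [norm_one, norm_mul, Complex.norm_real, Real.norm_of_nonneg (by linarith)] at h4
        have : s' * ‖w‖ ≤ s' := by nlinarith
        have e : κ * ρ = 1 - s' := by rw [hs']; ring
        rw [e]
        linarith
      have h5 : ρ ≤ (1 / κ) * ‖1 - (s' : ℂ) * w‖ := by
        rw [one_div, ← div_eq_inv_mul, le_div_iff₀ hκ0]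
        linarith
      have h6 : 1 ≤ 1 / κ := by rw [le_div_iff₀ hκ0]; linarith
      have h7 : ‖1 - (s' : ℂ) * w‖ ≤ (1 / κ) * ‖1 - (s' : ℂ) * w‖ :=
        le_mul_of_one_le_left (norm_nonneg _) h6
      calc ‖1 - (s : ℂ) * w‖ ≤ ‖1 - (s' : ℂ) * w‖ + ρ := h2
        _ ≤ (1 / κ) * ‖1 - (s' : ℂ) * w‖ + (1 / κ) * ‖1 - (s' : ℂ) * w‖ := add_le_add h7 h5
        _ = (2 / κ) * ‖1 - (s' : ℂ) * w‖ := by ring
    have h2 := Real.log_le_log h0 h1
    rw [Real.log_mul (by positivity) h0'.ne'] at h2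
    have h3 : Real.log (2 / κ) = Real.log 2 + Real.log (1 / κ) := by
      rw [← Real.log_mul (by norm_num) (by positivity)]
      congr 1; ring
    have h4 := Real.log_two_lt_d9
    rw [h3] at h2
    have h5 : 1 / 4 < ρ * Q := by linarith
    have h5' : (0:ℝ) ≤ ρ * Q - 1 / 4 := by linarith
    have h6 : Real.log 2 + Real.log (1 / κ) ≤ ρ * Q * (7 + 4 * Real.log (1 / κ)) := by
      have h7 := mul_nonneg h5' hlogκ
      have e : ρ * Q * (7 + 4 * Real.log (1 / κ)) = 7 * (ρ * Q) +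
        (4 * ((ρ * Q - 1 / 4) * Real.log (1 / κ)) + Real.log (1 / κ)) := by ring
      rw [e]
      linarith
    linarith

/-- the potential at a point closer to the boundary -/
lemma Std.closer {L : ℝ} {b : ι → ℂ} (h : Std L b) {κ ρ : ℝ} (hκ0 : 0 < κ) (hκ1 : κ ≤ 1)
    (hρ0 : 0 < ρ) (hρ : ρ ≤ 1 / 2) {e : ℂ} (he : ‖e‖ ≤ 1) :
    HH L b (((1 - κ * ρ : ℝ) : ℂ) * e) ≤ HH L b (((1 - ρ : ℝ) : ℂ) * e) +
      (Fintype.card ι * ρ + 4 * HH L b (((1 - ρ : ℝ) : ℂ) * e)) * (7 + 4 * Real.log (1 / κ)) := by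
  have hlogκ : 0 ≤ Real.log (1 / κ) := Real.log_nonneg (by rw [le_div_iff₀ hκ0]; linarith)
  set x : ℂ := ((1 - ρ : ℝ) : ℂ) * e with hx
  have hxn : ‖x‖ ≤ 1 - ρ := by
    rw [hx, norm_mul, Complex.norm_real, Real.norm_of_nonneg (by linarith)]
    nlinarith [norm_nonneg e]
  have hx1 : ‖x‖ < 1 := by linarith
  have h1 : ∀ j ∈ (Finset.univ : Finset ι), Real.log ‖1 - x * starRingEnd ℂ (b j)‖ ≤
      Real.log ‖1 - ((1 - κ * ρ : ℝ) : ℂ) * e * starRingEnd ℂ (b j)‖ +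
        ρ * ((1 - ‖x * starRingEnd ℂ (b j)‖ ^ 2) / ‖1 - x * starRingEnd ℂ (b j)‖ ^ 2) *
          (7 + 4 * Real.log (1 / κ)) := by
    intro j _
    rw [hx, mul_assoc, mul_assoc]
    apply log_ratio_le hκ0 hκ1 hρ0 hρ rfl rfl
    rw [norm_mul, RCLike.norm_conj]
    exact mul_le_one₀ he (norm_nonneg _) (h.hb j)
  have h2 := Finset.sum_le_sum h1
  rw [Finset.sum_add_distrib, ← Finset.sum_mul, ← Finset.mul_sum] at h2
  have h3 := h.sumP_le hx1
  have hH := h.hpos x hx1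
  have h4 : ρ * (∑ j, (1 - ‖x * starRingEnd ℂ (b j)‖ ^ 2) / ‖1 - x * starRingEnd ℂ (b j)‖ ^ 2) ≤
      Fintype.card ι * ρ + 4 * HH L b x := by
    calc ρ * (∑ j, (1 - ‖x * starRingEnd ℂ (b j)‖ ^ 2) / ‖1 - x * starRingEnd ℂ (b j)‖ ^ 2)
        ≤ ρ * (Fintype.card ι + 4 * HH L b x / (1 - ‖x‖)) := mul_le_mul_of_nonneg_left h3 hρ0.le
      _ ≤ ρ * (Fintype.card ι + 4 * HH L b x / ρ) := by
        apply mul_le_mul_of_nonneg_left _ hρ0.le
        have : 4 * HH L b x / (1 - ‖x‖) ≤ 4 * HH L b x / ρ := by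
          apply div_le_div_of_nonneg_left (by positivity) hρ0; linarith
        linarith
      _ = _ := by field_simp
  have h5 := mul_le_mul_of_nonneg_right h4 (by linarith : 0 ≤ 7 + 4 * Real.log (1 / κ))
  have e1 : HH L b (((1 - κ * ρ : ℝ) : ℂ) * e) =
      L - ∑ j, Real.log ‖1 - ((1 - κ * ρ : ℝ) : ℂ) * e * starRingEnd ℂ (b j)‖ := rfl
  have e2 : HH L b x = L - ∑ j, Real.log ‖1 - x * starRingEnd ℂ (b j)‖ := rfl
  have h6 : HH L b (((1 - κ * ρ : ℝ) : ℂ) * e) ≤ HH L b x +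
      ρ * (∑ j, (1 - ‖x * starRingEnd ℂ (b j)‖ ^ 2) / ‖1 - x * starRingEnd ℂ (b j)‖ ^ 2) *
        (7 + 4 * Real.log (1 / κ)) := by
    rw [e1, e2]; linarith
  linarith

end Pool.Agent.Y947.DL
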