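import Mathlib
import Pool.Agent.Y947.DL.Pot

/-!
# Grids of roots of unity
-/

set_option autoImplicit false

open Complex Metric Finset Polynomial

namespace Pool.Agent.Y947.DL

lemma norm_of_mem_grid {N : ℕ} (hN : 0 < N) {ζ : ℂ} (h : ζ ∈ nthRootsFinset N (1:ℂ)) : ‖ζ‖ = 1 := by
  rw [mem_nthRootsFinset hN] at h
  exact Complex.norm_eq_one_of_pow_eq_one h hN.ne'

lemma card_grid {N : ℕ} (hN : 0 < N) : (nthRootsFinset N (1:ℂ)).card = N := by
  have := (Complex.isPrimitiveRoot_exp N hN.ne').card_nthRootsFinset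
  exact this

lemma prod_grid {N : ℕ} (hN : 0 < N) (w : ℂ) :
    ∏ ζ ∈ nthRootsFinset N (1:ℂ), (1 - ζ * w) = 1 - w ^ N := by
  have h := (Complex.isPrimitiveRoot_exp N hN.ne').pow_sub_pow_eq_prod_sub_mul 1 w hN
  rw [← h, one_pow]

/-- number of grid points near a point of the circle -/
lemma count_grid {N M : ℕ} (hN : 0 < N) (hM : M ≤ N) {s : ℝ} (hs : 2 * Real.pi * M / N ≤ s) {z : ℂ}
    (hz : ‖z‖ = 1) :
    M ≤ ((nthRootsFinset N (1:ℂ)).filter (fun ζ => ‖ζ - z‖ ≤ s)).card := by
  classical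
  have hN' : (0:ℝ) < N := by exact_mod_cast hN
  set φ := Complex.arg z with hφ
  have hzφ : z = Complex.exp (Complex.I * (φ : ℝ)) := by
    have := Complex.norm_mul_exp_arg_mul_I z
    rw [hz, Complex.ofReal_one, one_mul] at this
    rw [mul_comm]; exact this.symm
  set t := φ * N / (2 * Real.pi) with ht
  set k0 : ℤ := ⌊t⌋ with hk0
  have hk1 : (k0 : ℝ) ≤ t := Int.floor_le t
  have hk2 : t < k0 + 1 := Int.lt_floor_add_one t
  have hpi := Real.pi_pos
  apply Finset.le_card_of_inj_on_range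
    (fun m : ℕ => Complex.exp (Complex.I * ((2 * Real.pi * ((k0 : ℝ) - m) / N : ℝ) : ℂ)))
  · intro m hm
    rw [Finset.mem_filter, mem_nthRootsFinset hN]
    constructor
    · rw [← Complex.exp_nat_mul, Complex.exp_eq_one_iff]
      refine ⟨k0 - m, ?_⟩
      push_cast
      have : (N:ℂ) ≠ 0 := by exact_mod_cast hN.ne'
      field_simp
    · have e : Complex.exp (Complex.I * ((2 * Real.pi * ((k0 : ℝ) - m) / N : ℝ) : ℂ)) - z =
          z * (Complex.exp (Complex.I * ((2 * Real.pi * ((k0 : ℝ) - m) / N - φ : ℝ) : ℂ)) - 1) := by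
        rw [mul_sub z, mul_one]
        congr 1
        nth_rewrite 1 [hzφ]
        rw [← Complex.exp_add]
        congr 1
        push_cast
        ring
      rw [e, norm_mul, hz, one_mul]
      refine Real.norm_exp_I_mul_ofReal_sub_one_le.trans (le_trans ?_ hs)
      have e2 : 2 * Real.pi * ((k0 : ℝ) - m) / N - φ = - (2 * Real.pi / N * (t - k0 + m)) := by
        rw [ht]; field_simp; ring
      rw [e2, norm_neg, Real.norm_of_nonneg (by
        have : (0:ℝ) ≤ m := Nat.cast_nonneg m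
        have h3 : 0 ≤ t - k0 + m := by linarith
        positivity)]
      have hm' : (m:ℝ) + 1 ≤ M := by exact_mod_cast hm
      calc 2 * Real.pi / N * (t - k0 + m) ≤ 2 * Real.pi / N * M := by
            apply mul_le_mul_of_nonneg_left _ (by positivity); linarith
        _ = 2 * Real.pi * M / N := by ring
  · intro m hm m' hm' h
    rw [Complex.exp_eq_exp_iff_exists_int] at h
    obtain ⟨l, hl⟩ := h
    have h1 : Complex.I * ((2 * Real.pi * ((k0 : ℝ) - m) / N : ℝ) : ℂ) =
        Complex.I * ((2 * Real.pi * ((k0 : ℝ) - m') / N + l * (2 * Real.pi) : ℝ) : ℂ) := by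
      rw [hl]; push_cast; ring
    have h2 := mul_left_cancel₀ Complex.I_ne_zero h1
    have h3 : 2 * Real.pi * ((k0 : ℝ) - m) / N = 2 * Real.pi * ((k0 : ℝ) - m') / N + l * (2 * Real.pi) := by
      exact_mod_cast h2
    have h4 : (m' : ℝ) - m = l * N := by
      field_simp at h3
      linarith
    have h5 : (m' : ℤ) - m = l * N := by exact_mod_cast h4
    have hmN : (m : ℤ) < N := by exact_mod_cast lt_of_lt_of_le hm hM
    have hmN' : (m' : ℤ) < N := by exact_mod_cast lt_of_lt_of_le hm' hM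
    have h6 : l = 0 := by
      have hN2 : (0:ℤ) < N := by exact_mod_cast hN
      have h7 : -1 < l := by
        by_contra hc
        have : l ≤ -1 := by omega
        have : l * N ≤ -1 * N := mul_le_mul_of_nonneg_right this hN2.le
        omega
      have h8 : l < 1 := by
        by_contra hc
        have : 1 ≤ l := by omega
        have : 1 * (N:ℤ) ≤ l * N := mul_le_mul_of_nonneg_right this hN2.le
        omega
      omega
    rw [h6, zero_mul] at h5
    omega

variable {ι : Type*} [Fintype ι]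

/-- average of the potential over a grid -/
lemma sum_grid (L : ℝ) {b : ι → ℂ} (hb : ∀ j, ‖b j‖ ≤ 1) {N : ℕ} (hN : 0 < N) {r : ℝ} (hr0 : 0 ≤ r)
    (hr1 : r < 1) (hrN : r ^ N ≤ 1 / 2) :
    ∑ ζ ∈ nthRootsFinset N (1:ℂ), HH L b ((r : ℂ) * ζ) ≤ N * L + Fintype.card ι := by
  have e1 : ∑ ζ ∈ nthRootsFinset N (1:ℂ), HH L b ((r : ℂ) * ζ) = N * L -
      ∑ j, Real.log ‖1 - ((r : ℂ) * starRingEnd ℂ (b j)) ^ N‖ := by
    unfold HH
    rw [Finset.sum_sub_distrib, Finset.sum_const, card_grid hN, nsmul_eq_mul, Finset.sum_comm]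
    congr 1
    refine Finset.sum_congr rfl fun j _ => ?_
    rw [← prod_grid hN, norm_prod, Real.log_prod]
    · refine Finset.sum_congr rfl fun ζ _ => ?_
      congr 3
      ring
    · intro ζ hζ
      have h1 := norm_of_mem_grid hN hζ
      have h2 : ‖ζ * ((r : ℂ) * starRingEnd ℂ (b j))‖ < 1 := by
        rw [norm_mul, h1, one_mul, norm_mul, RCLike.norm_conj, Complex.norm_real,
          Real.norm_of_nonneg hr0]
        nlinarith [hb j, norm_nonneg (b j)]
      exact norm_ne_zero_iff.mpr (one_sub_ne h2)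
  rw [e1]
  have h2 : ∀ j ∈ (Finset.univ : Finset ι), -(1:ℝ) ≤ Real.log ‖1 - ((r : ℂ) * starRingEnd ℂ (b j)) ^ N‖ := by
    intro j _
    have h3 : ‖((r : ℂ) * starRingEnd ℂ (b j)) ^ N‖ ≤ 1 / 2 := by
      rw [norm_pow, norm_mul, RCLike.norm_conj, Complex.norm_real, Real.norm_of_nonneg hr0, mul_pow]
      calc r ^ N * ‖b j‖ ^ N ≤ r ^ N * 1 := by
            apply mul_le_mul_of_nonneg_left _ (by positivity)
            exact pow_le_one₀ (norm_nonneg _) (hb j)
        _ ≤ 1 / 2 := by linarith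
    have h4 := norm_sub_norm_le (1:ℂ) (((r : ℂ) * starRingEnd ℂ (b j)) ^ N)
    rw [norm_one] at h4
    have h5 : (1:ℝ) / 2 ≤ ‖1 - ((r : ℂ) * starRingEnd ℂ (b j)) ^ N‖ := by linarith
    have h6 := Real.log_le_log (by norm_num) h5
    have h7 : Real.log (1/2) = - Real.log 2 := by rw [one_div, Real.log_inv]
    have h8 := Real.log_two_lt_d9
    linarith
  have h3 := Finset.sum_le_sum h2
  rw [Finset.sum_const, Finset.card_univ, nsmul_eq_mul] at h3
  linarith

end Pool.Agent.Y947.DL
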