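import Mathlib
import Pool.Agent.H388SL.DobA
import Pool.Agent.Y947.DL.Grid

/-!
# The energy inequality for `α` and its prime powers, with individual contraction factors
-/

set_option autoImplicit false

open Finset Polynomial Module Pool.Agent.H388SL

namespace Pool.Agent.Y947.DL

/-- positive semidefiniteness of the logarithmic kernel on the open disc -/
lemma psd {ι : Type*} (s : Finset ι) (x : ι → ℝ) (w : ι → ℂ) (hw : ∀ i ∈ s, ‖w i‖ < 1) :
    0 ≤ ∑ i ∈ s, ∑ j ∈ s, x i * x j * (-Real.log ‖1 - w i * starRingEnd ℂ (w j)‖) := by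
  have hnorm : ∀ i ∈ s, ∀ j ∈ s, ‖w i * starRingEnd ℂ (w j)‖ < 1 := fun i hi j hj =>
    norm_mul_conj_lt (hw i hi) (hw j hj).le
  have hsum : ∀ i ∈ s, ∀ j ∈ s, HasSum
      (fun n : ℕ => x i * x j * ((w i * starRingEnd ℂ (w j)) ^ n / n).re)
      (x i * x j * (- Real.log ‖1 - w i * starRingEnd ℂ (w j)‖)) := by
    intro i hi j hj
    have h := Complex.hasSum_re (Complex.hasSum_taylorSeries_neg_log (hnorm i hi j hj))
    rw [Complex.neg_re, Complex.log_re] at h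
    exact h.mul_left _
  have h2 : HasSum (fun n : ℕ => ∑ i ∈ s, ∑ j ∈ s,
        x i * x j * ((w i * starRingEnd ℂ (w j)) ^ n / n).re)
      (∑ i ∈ s, ∑ j ∈ s, x i * x j * (- Real.log ‖1 - w i * starRingEnd ℂ (w j)‖)) :=
    hasSum_sum fun i hi => hasSum_sum fun j hj => hsum i hi j hj
  have hterm : ∀ n : ℕ, (∑ i ∈ s, ∑ j ∈ s,
        x i * x j * ((w i * starRingEnd ℂ (w j)) ^ n / n).re)
      = 1 / n * ‖∑ i ∈ s, x i * w i ^ n‖ ^ 2 := by
    intro n
    have e1 : (∑ i ∈ s, ∑ j ∈ s,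
        x i * x j * ((w i * starRingEnd ℂ (w j)) ^ n / n).re)
        = (∑ i ∈ s, ∑ j ∈ s,
          ((x i : ℂ) * x j * ((w i * starRingEnd ℂ (w j)) ^ n / n))).re := by
      rw [Complex.re_sum]
      refine Finset.sum_congr rfl fun i _ => ?_
      rw [Complex.re_sum]
      refine Finset.sum_congr rfl fun j _ => ?_
      rw [← Complex.ofReal_mul, Complex.re_ofReal_mul]
    have e2 : (∑ i ∈ s, ∑ j ∈ s,
          ((x i : ℂ) * x j * ((w i * starRingEnd ℂ (w j)) ^ n / n)))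
        = ((1 / n : ℝ) : ℂ) * ((∑ i ∈ s, (x i : ℂ) * w i ^ n) *
            starRingEnd ℂ (∑ i ∈ s, (x i : ℂ) * w i ^ n)) := by
      rw [map_sum, Finset.sum_mul_sum, Finset.mul_sum]
      refine Finset.sum_congr rfl fun i _ => ?_
      rw [Finset.mul_sum]
      refine Finset.sum_congr rfl fun j _ => ?_
      rw [map_mul, map_pow, Complex.conj_ofReal]
      push_cast
      ring
    rw [e1, e2, Complex.mul_conj, Complex.normSq_eq_norm_sq, ← Complex.ofReal_mul, Complex.ofReal_re]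
  simp_rw [hterm] at h2
  exact h2.nonneg fun n => by positivity

lemma refl_pow (z : ℂ) (k : ℕ) (hk : k ≠ 0) : refl (z ^ k) = refl z ^ k := by
  unfold H388SL.refl
  by_cases h : ‖z‖ ≤ 1
  · rw [if_pos h, if_pos]
    rw [norm_pow]; exact pow_le_one₀ (norm_nonneg _) h
  · rw [if_neg h, if_neg, map_pow, inv_pow]
    rw [norm_pow]
    push Not at h ⊢
    exact one_lt_pow₀ h hk

lemma refl_mul_unit {ζ : ℂ} (hζ : ‖ζ‖ = 1) (z : ℂ) : refl (ζ * z) = ζ * refl z := by
  unfold H388SL.refl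
  rw [norm_mul, hζ, one_mul]
  by_cases h : ‖z‖ ≤ 1
  · rw [if_pos h, if_pos h]
  · rw [if_neg h, if_neg h, map_mul, mul_inv]
    congr 1
    have h1 : starRingEnd ℂ ζ * ζ = 1 := by
      rw [mul_comm, Complex.mul_conj, Complex.normSq_eq_norm_sq, hζ]; norm_num
    exact inv_eq_of_mul_eq_one_right h1

/-- the pair inequality in logarithmic form -/
lemma pair_log {z w : ℂ} (hzw : z ≠ w) {s : ℝ} (hs0 : 0 ≤ s) (hs1 : s < 1) :
    -Real.log ‖1 - (s : ℂ) * (refl z * starRingEnd ℂ (refl w))‖ ≤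
      -Real.log ‖z - w‖ + Real.log (max 1 ‖z‖) + Real.log (max 1 ‖w‖) + (1 - s) := by
  have hb : ‖refl z * starRingEnd ℂ (refl w)‖ ≤ 1 := by
    rw [norm_mul, RCLike.norm_conj]
    exact mul_le_one₀ (norm_refl_le _) (norm_nonneg _) (norm_refl_le _)
  have h1 := pair_le z w
  have h2 := one_sub_le hs0 hs1 _ hb
  have hmi : 0 < max 1 ‖z‖ := lt_of_lt_of_le one_pos (le_max_left _ _)
  have hmj : 0 < max 1 ‖w‖ := lt_of_lt_of_le one_pos (le_max_left _ _)
  have h3 : ‖z - w‖ ≤ max 1 ‖z‖ * max 1 ‖w‖ *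
      (2 / (1 + s) * ‖1 - (s : ℂ) * (refl z * starRingEnd ℂ (refl w))‖) :=
    h1.trans (mul_le_mul_of_nonneg_left h2 (by positivity))
  have hpos : 0 < ‖z - w‖ := norm_pos_iff.mpr (sub_ne_zero.mpr hzw)
  have h2t : 0 < 2 / (1 + s) := by apply div_pos <;> linarith
  have h4 : 0 < ‖1 - (s : ℂ) * (refl z * starRingEnd ℂ (refl w))‖ := by
    rcases (norm_nonneg (1 - (s : ℂ) * (refl z * starRingEnd ℂ (refl w)))).lt_or_eq with h | h
    · exact h
    · rw [← h] at h3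
      simp only [mul_zero] at h3
      linarith
  have h5 := Real.log_le_log hpos h3
  rw [Real.log_mul (by positivity) (by positivity), Real.log_mul (by positivity) (by positivity),
    Real.log_mul (by positivity) (by positivity)] at h5
  have h6 : Real.log (2 / (1 + s)) ≤ 1 - s := by
    refine (Real.log_le_sub_one_of_pos h2t).trans ?_
    rw [div_sub_one (by linarith), div_le_iff₀ (by linarith)]
    nlinarith
  linarith

lemma one_sub_mul_pow_le {x y : ℝ} (hx0 : 0 ≤ x) (hx : x ≤ 1) (hy0 : 0 ≤ y) (hy : y ≤ 1) (p q : ℕ) :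
    1 - (1 - x) ^ p * (1 - y) ^ q ≤ p * x + q * y := by
  have h1 : 1 - p * x ≤ (1 - x) ^ p := by
    have := one_add_mul_le_pow (show -2 ≤ -x by linarith) p
    simpa [sub_eq_add_neg] using this
  have h2 : 1 - q * y ≤ (1 - y) ^ q := by
    have := one_add_mul_le_pow (show -2 ≤ -y by linarith) q
    simpa [sub_eq_add_neg] using this
  have h3 : (1 - x) ^ p ≤ 1 := pow_le_one₀ (by linarith) (by linarith)
  have h4 : 0 ≤ (1 - x) ^ p := pow_nonneg (by linarith) _
  have h5 : (1 - y) ^ q ≤ 1 := pow_le_one₀ (by linarith) (by linarith)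
  nlinarith [mul_nonneg (Nat.cast_nonneg q : (0:ℝ) ≤ q) hy0]

/-- a homogeneous version of the geometric sum as a product over roots of unity -/
lemma prod_erase_one {p : ℕ} (hp : 0 < p) (a y : ℂ) :
    ∏ ζ ∈ (nthRootsFinset p (1:ℂ)).erase 1, (y - ζ * a) = ∑ l ∈ range p, y ^ l * a ^ (p - 1 - l) := by
  have hprim := Complex.isPrimitiveRoot_exp p hp.ne'
  have h1 : (1:ℂ) ∈ nthRootsFinset p (1:ℂ) := one_mem_nthRootsFinset hp
  have key : ∏ ζ ∈ (nthRootsFinset p (1:ℂ)).erase 1, ((X : ℂ[X]) - C (ζ * a)) =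
      ∑ l ∈ range p, X ^ l * C a ^ (p - 1 - l) := by
    have hX : (X : ℂ[X]) - C a ≠ 0 := X_sub_C_ne_zero a
    apply mul_left_cancel₀ hX
    have e1 : ((X : ℂ[X]) - C a) * ∏ ζ ∈ (nthRootsFinset p (1:ℂ)).erase 1, ((X : ℂ[X]) - C (ζ * a)) =
        X ^ p - C a ^ p := by
      rw [← C_pow]
      have e2 : ∀ x : ℂ, (((X : ℂ[X]) - C a) *
          ∏ ζ ∈ (nthRootsFinset p (1:ℂ)).erase 1, ((X : ℂ[X]) - C (ζ * a))).eval x =
          ((X : ℂ[X]) ^ p - C (a ^ p)).eval x := by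
        intro x
        rw [eval_mul, eval_prod]
        simp only [eval_sub, eval_X, eval_C, eval_pow]
        have h2 := hprim.pow_sub_pow_eq_prod_sub_mul x a hp
        rw [h2, ← Finset.mul_prod_erase _ _ h1, one_mul]
      exact Polynomial.funext e2
    rw [e1, mul_comm]
    exact (Commute.geom_sum₂_mul (Commute.all (X : ℂ[X]) (C a)) p).symm
  have h2 := congrArg (Polynomial.eval y) key
  rw [eval_prod, eval_finsetSum] at h2
  simpa using h2

variable {K : Type*} [Field K] [NumberField K]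

/-- the off-diagonal part of the resultant of `α ^ p` with itself -/
lemma one_le_quot {α : K} (hα : IsIntegral ℤ α) (h0 : α ≠ 0) (hc : CInj α) {p : ℕ} (hp : 0 < p)
    (hpc : CInj (α ^ p)) :
    (∀ σ τ : K →ₐ[ℚ] ℂ, ∑ l ∈ range p, (σ α) ^ l * (τ α) ^ (p - 1 - l) ≠ 0) ∧
    1 ≤ ∏ σ : K →ₐ[ℚ] ℂ, ∏ τ : K →ₐ[ℚ] ℂ, ‖∑ l ∈ range p, (σ α) ^ l * (τ α) ^ (p - 1 - l)‖ := by
  have hne : ∀ σ τ : K →ₐ[ℚ] ℂ, ∑ l ∈ range p, (σ α) ^ l * (τ α) ^ (p - 1 - l) ≠ 0 := by
    intro σ τ h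
    by_cases hst : σ = τ
    · subst hst
      have h1 : ∑ l ∈ range p, (σ α) ^ l * (σ α) ^ (p - 1 - l) = p * (σ α) ^ (p - 1) := by
        rw [Finset.sum_congr rfl (g := fun _ => (σ α) ^ (p - 1))]
        · simp
        · intro l hl
          rw [mem_range] at hl
          rw [← pow_add]
          congr 1
          omega
      rw [h1] at h
      have h2 : σ α ≠ 0 := (map_ne_zero σ).mpr h0
      have h3 : (p : ℂ) ≠ 0 := by exact_mod_cast hp.ne'
      exact (mul_ne_zero h3 (pow_ne_zero _ h2)) h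
    · have h1 := Commute.geom_sum₂_mul (Commute.all (σ α) (τ α)) p
      rw [h, zero_mul] at h1
      apply hst
      apply hpc
      dsimp only
      rw [map_pow, map_pow]
      exact (sub_eq_zero.mp h1.symm)
  refine ⟨hne, ?_⟩
  set f := minpoly ℤ α with hf
  set G := minpoly ℤ (α ^ p) with hG
  have hdvd : f ∣ expand ℤ p G := by
    apply minpoly.isIntegrallyClosed_dvd hα
    rw [Polynomial.expand_aeval, hG, minpoly.aeval]
  obtain ⟨Q, hQ⟩ := hdvd
  have hfC : f.map (Int.castRingHom ℂ) = ∏ τ : K →ₐ[ℚ] ℂ, (X - C (τ α)) := by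
    rw [← minpoly_map_eq hc, minpoly.isIntegrallyClosed_eq_field_fractions' ℚ hα, Polynomial.map_map]
    rfl
  have hGC : G.map (Int.castRingHom ℂ) = ∏ τ : K →ₐ[ℚ] ℂ, (X - C (τ (α ^ p))) := by
    rw [← minpoly_map_eq hpc, minpoly.isIntegrallyClosed_eq_field_fractions' ℚ (hα.pow p),
      Polynomial.map_map]
    rfl
  have hQC : Q.map (Int.castRingHom ℂ) =
      ∏ τ : K →ₐ[ℚ] ℂ, ∑ l ∈ range p, X ^ l * C (τ α) ^ (p - 1 - l) := by
    have hf0 : f.map (Int.castRingHom ℂ) ≠ 0 := by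
      rw [hfC]
      exact Finset.prod_ne_zero_iff.mpr fun τ _ => X_sub_C_ne_zero _
    apply mul_left_cancel₀ hf0
    rw [← Polynomial.map_mul, ← hQ, Polynomial.map_expand, hGC, hfC, ← Finset.prod_mul_distrib,
      map_prod]
    refine Finset.prod_congr rfl fun τ _ => ?_
    rw [map_sub, expand_X, expand_C, map_pow, C_pow, mul_comm]
    exact (Commute.geom_sum₂_mul (Commute.all (X : ℂ[X]) (C (τ α))) p).symm
  have heval : ∀ σ : K →ₐ[ℚ] ℂ, σ (aeval α Q) =
      ∏ τ : K →ₐ[ℚ] ℂ, ∑ l ∈ range p, (σ α) ^ l * (τ α) ^ (p - 1 - l) := by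
    intro σ
    rw [map_aevalZ]
    have e1 : aeval (σ α) Q = (Q.map (Int.castRingHom ℂ)).eval (σ α) := by
      rw [Polynomial.eval_map, Polynomial.aeval_def]; rfl
    rw [e1, hQC, eval_prod]
    refine Finset.prod_congr rfl fun τ _ => ?_
    rw [eval_finsetSum]
    simp
  have h1 : 1 ≤ ∏ σ : K →ₐ[ℚ] ℂ, ‖σ (aeval α Q)‖ := by
    apply one_le_prod_norm (isIntegral_aevalZ hα _)
    intro h
    obtain ⟨σ⟩ : Nonempty (K →ₐ[ℚ] ℂ) := ⟨IsAlgClosed.lift⟩
    have h2 := heval σ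
    rw [h, map_zero] at h2
    obtain ⟨τ, _, hτ⟩ := Finset.prod_eq_zero_iff.mp h2.symm
    exact hne σ τ hτ
  refine h1.trans (le_of_eq ?_)
  refine Finset.prod_congr rfl fun σ _ => ?_
  rw [heval, norm_prod]

end Pool.Agent.Y947.DL
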