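import Mathlib
import Pool.Agent.Y947.DL.NT

/-!
# The main inequality over a number field
-/

set_option autoImplicit false

open Finset Polynomial Module Pool.Agent.H388SL

namespace Pool.Agent.Y947.DL

variable {K : Type*} [Field K] [NumberField K]

/-- contracted points -/
noncomputable def ww (α : K) (ε : (K →ₐ[ℚ] ℂ) → ℝ) (σ : K →ₐ[ℚ] ℂ) : ℂ :=
  ((1 - ε σ : ℝ) : ℂ) * refl (σ α)

/-- mutual energies of powers -/
noncomputable def EE (α : K) (ε : (K →ₐ[ℚ] ℂ) → ℝ) (p q : ℕ) : ℝ :=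
  ∑ σ : K →ₐ[ℚ] ℂ, ∑ τ : K →ₐ[ℚ] ℂ, -Real.log ‖1 - ww α ε σ ^ p * starRingEnd ℂ (ww α ε τ ^ q)‖

lemma EE_symm (α : K) (ε : (K →ₐ[ℚ] ℂ) → ℝ) (p q : ℕ) : EE α ε p q = EE α ε q p := by
  unfold EE
  rw [Finset.sum_comm]
  refine Finset.sum_congr rfl fun σ _ => Finset.sum_congr rfl fun τ _ => ?_
  congr 2
  rw [← RCLike.norm_conj]
  congr 1
  rw [map_sub, map_one, map_mul, Complex.conj_conj, mul_comm]

lemma ww_norm {α : K} {ε : (K →ₐ[ℚ] ℂ) → ℝ} (hε : ∀ σ, 0 < ε σ ∧ ε σ ≤ 1 / 2) (σ : K →ₐ[ℚ] ℂ) :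
    ‖ww α ε σ‖ < 1 := by
  unfold ww
  rw [norm_mul, Complex.norm_real, Real.norm_of_nonneg (by linarith [(hε σ).2])]
  have := norm_refl_le (σ α)
  nlinarith [hε σ, norm_nonneg (refl (σ α))]

lemma ww_mul (α : K) (ε : (K →ₐ[ℚ] ℂ) → ℝ) (σ τ : K →ₐ[ℚ] ℂ) {p q : ℕ} (hp : p ≠ 0) (hq : q ≠ 0) :
    ww α ε σ ^ p * starRingEnd ℂ (ww α ε τ ^ q) =
      (((1 - ε σ) ^ p * (1 - ε τ) ^ q : ℝ) : ℂ) *
        (refl (σ (α ^ p)) * starRingEnd ℂ (refl (τ (α ^ q)))) := by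
  unfold ww
  rw [map_pow σ, map_pow τ, refl_pow _ _ hp, refl_pow _ _ hq, mul_pow, mul_pow, map_mul, map_pow, map_pow,
    Complex.conj_ofReal]
  push_cast
  ring

/-- cross energies -/
lemma EE_cross {α : K} {ε : (K →ₐ[ℚ] ℂ) → ℝ} (hε : ∀ σ, 0 < ε σ ∧ ε σ ≤ 1 / 2) {p q : ℕ}
    (hp : p ≠ 0) (hq : q ≠ 0) (hne : ∀ σ τ : K →ₐ[ℚ] ℂ, σ (α ^ p) ≠ τ (α ^ q)) :
    EE α ε p q ≤ -Real.log (∏ σ : K →ₐ[ℚ] ℂ, ∏ τ : K →ₐ[ℚ] ℂ, ‖σ (α ^ p) - τ (α ^ q)‖) +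
      finrank ℚ K * ((p + q) * (lam α + ∑ σ, ε σ)) := by
  have hcard : Fintype.card (K →ₐ[ℚ] ℂ) = finrank ℚ K := AlgHom.card ℚ K ℂ
  have hnz : ∀ σ τ : K →ₐ[ℚ] ℂ, ‖σ (α ^ p) - τ (α ^ q)‖ ≠ 0 := fun σ τ =>
    norm_ne_zero_iff.mpr (sub_ne_zero.mpr (hne σ τ))
  have h1 : ∀ σ ∈ (Finset.univ : Finset (K →ₐ[ℚ] ℂ)), ∀ τ ∈ (Finset.univ : Finset (K →ₐ[ℚ] ℂ)),
      -Real.log ‖1 - ww α ε σ ^ p * starRingEnd ℂ (ww α ε τ ^ q)‖ ≤
      -Real.log ‖σ (α ^ p) - τ (α ^ q)‖ + p * Real.log (max 1 ‖σ α‖) + q * Real.log (max 1 ‖τ α‖)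
        + (p * ε σ + q * ε τ) := by
    intro σ _ τ _
    rw [ww_mul α ε σ τ hp hq]
    have hσ := hε σ
    have hτ := hε τ
    have hs0 : 0 ≤ (1 - ε σ) ^ p * (1 - ε τ) ^ q :=
      mul_nonneg (pow_nonneg (by linarith) _) (pow_nonneg (by linarith) _)
    have hs1 : (1 - ε σ) ^ p * (1 - ε τ) ^ q < 1 := by
      have h2 : (1 - ε σ) ^ p < 1 := pow_lt_one₀ (by linarith) (by linarith) hp
      have h3 : (1 - ε τ) ^ q ≤ 1 := pow_le_one₀ (by linarith) (by linarith)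
      have h4 : 0 ≤ (1 - ε σ) ^ p := pow_nonneg (by linarith) _
      nlinarith
    have h2 := pair_log (hne σ τ) hs0 hs1
    have h3 := one_sub_mul_pow_le hσ.1.le (by linarith) hτ.1.le (by linarith) p q
    rw [map_pow σ, map_pow τ, log_max_pow, log_max_pow, ← map_pow σ, ← map_pow τ] at h2
    linarith
  have h2 := Finset.sum_le_sum fun σ hσ => Finset.sum_le_sum fun τ hτ => h1 σ hσ τ hτ
  refine h2.trans (le_of_eq ?_)
  rw [Real.log_prod]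
  · simp only [Finset.sum_add_distrib, Finset.sum_const, Finset.card_univ, hcard, nsmul_eq_mul,
      ← Finset.mul_sum, Finset.sum_neg_distrib]
    have e : ∀ σ : K →ₐ[ℚ] ℂ, Real.log (∏ τ : K →ₐ[ℚ] ℂ, ‖σ (α ^ p) - τ (α ^ q)‖) =
        ∑ τ : K →ₐ[ℚ] ℂ, Real.log ‖σ (α ^ p) - τ (α ^ q)‖ := fun σ =>
      Real.log_prod fun τ _ => hnz σ τ
    simp only [e]
    unfold lam
    ring
  · intro σ _
    exact Finset.prod_ne_zero_iff.mpr fun τ _ => hnz σ τ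

/-- self energies of `p`-th powers -/
lemma EE_self {α : K} (hα : IsIntegral ℤ α) (h0 : α ≠ 0) (hc : CInj α)
    {ε : (K →ₐ[ℚ] ℂ) → ℝ} (hε : ∀ σ, 0 < ε σ ∧ ε σ ≤ 1 / 2) {p : ℕ} (hp : 0 < p)
    (hpc : CInj (α ^ p)) :
    EE α ε p p ≤ EE α ε 1 1 + finrank ℚ K * (2 * p * (lam α + ∑ σ, ε σ)) := by
  classical
  have hcard : Fintype.card (K →ₐ[ℚ] ℂ) = finrank ℚ K := AlgHom.card ℚ K ℂ
  obtain ⟨hq0, hq1⟩ := one_le_quot hα h0 hc hp hpc
  have h1m : (1:ℂ) ∈ nthRootsFinset p (1:ℂ) := one_mem_nthRootsFinset hp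
  have hx : ∀ σ τ : K →ₐ[ℚ] ℂ, ‖ww α ε σ * starRingEnd ℂ (ww α ε τ)‖ < 1 := fun σ τ =>
    norm_mul_conj_lt (ww_norm hε σ) (ww_norm hε τ).le
  have h1 : ∀ σ ∈ (Finset.univ : Finset (K →ₐ[ℚ] ℂ)), ∀ τ ∈ (Finset.univ : Finset (K →ₐ[ℚ] ℂ)),
      -Real.log ‖1 - ww α ε σ ^ p * starRingEnd ℂ (ww α ε τ ^ p)‖ ≤
      -Real.log ‖1 - ww α ε σ ^ 1 * starRingEnd ℂ (ww α ε τ ^ 1)‖ +
        (-Real.log ‖∑ l ∈ range p, (τ α) ^ l * (σ α) ^ (p - 1 - l)‖ +
          p * (Real.log (max 1 ‖σ α‖) + Real.log (max 1 ‖τ α‖) + (ε σ + ε τ))) := by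
    intro σ _ τ _
    have hσ := hε σ
    have hτ := hε τ
    rw [map_pow, ← mul_pow, ← prod_grid hp, norm_prod, Real.log_prod]
    · rw [← Finset.add_sum_erase _ _ h1m, one_mul, pow_one, pow_one]
      have e1 : Real.log ‖∑ l ∈ range p, (τ α) ^ l * (σ α) ^ (p - 1 - l)‖ =
          ∑ ζ ∈ (nthRootsFinset p (1:ℂ)).erase 1, Real.log ‖ζ * σ α - τ α‖ := by
        rw [← prod_erase_one hp, norm_prod, Real.log_prod]
        · refine Finset.sum_congr rfl fun ζ _ => ?_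
          rw [norm_sub_rev]
        · intro ζ hζ h
          apply hq0 τ σ
          rw [← prod_erase_one hp]
          exact Finset.prod_eq_zero hζ (norm_eq_zero.mp h)
      have h2 : ∀ ζ ∈ (nthRootsFinset p (1:ℂ)).erase 1,
          -Real.log ‖1 - ζ * (ww α ε σ * starRingEnd ℂ (ww α ε τ))‖ ≤
          -Real.log ‖ζ * σ α - τ α‖ +
            (Real.log (max 1 ‖σ α‖) + Real.log (max 1 ‖τ α‖) + (ε σ + ε τ)) := by
        intro ζ hζ
        have hζE := Finset.mem_of_mem_erase hζ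
        have hζ1 : ‖ζ‖ = 1 := norm_of_mem_grid hp hζE
        have hne : ζ * σ α ≠ τ α := by
          intro h
          apply hq0 τ σ
          rw [← prod_erase_one hp]
          exact Finset.prod_eq_zero hζ (by rw [h, sub_self])
        have hs0 : 0 ≤ (1 - ε σ) * (1 - ε τ) := mul_nonneg (by linarith) (by linarith)
        have hs1 : (1 - ε σ) * (1 - ε τ) < 1 := by nlinarith
        have h3 := pair_log hne hs0 hs1
        have e2 : ζ * (ww α ε σ * starRingEnd ℂ (ww α ε τ)) =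
            (((1 - ε σ) * (1 - ε τ) : ℝ) : ℂ) * (refl (ζ * σ α) * starRingEnd ℂ (refl (τ α))) := by
          rw [refl_mul_unit hζ1]
          unfold ww
          rw [map_mul, Complex.conj_ofReal]
          push_cast
          ring
        rw [e2]
        rw [norm_mul ζ, hζ1, one_mul] at h3
        nlinarith
      have h3 := Finset.sum_le_sum h2
      rw [Finset.sum_add_distrib, Finset.sum_neg_distrib, Finset.sum_neg_distrib, Finset.sum_const,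
        nsmul_eq_mul, ← e1, Finset.card_erase_of_mem h1m, card_grid hp] at h3
      have hp1 : ((p - 1 : ℕ) : ℝ) ≤ p := by exact_mod_cast Nat.sub_le p 1
      have hY : 0 ≤ Real.log (max 1 ‖σ α‖) + Real.log (max 1 ‖τ α‖) + (ε σ + ε τ) := by
        have := Real.log_nonneg (le_max_left 1 ‖σ α‖)
        have := Real.log_nonneg (le_max_left 1 ‖τ α‖)
        linarith
      have h4 := mul_le_mul_of_nonneg_right hp1 hY
      rw [neg_add]
      linarith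
    · intro ζ hζ
      have hζ1 : ‖ζ‖ = 1 := norm_of_mem_grid hp hζ
      have : ‖ζ * (ww α ε σ * starRingEnd ℂ (ww α ε τ))‖ < 1 := by
        rw [norm_mul, hζ1, one_mul]; exact hx σ τ
      exact norm_ne_zero_iff.mpr (one_sub_ne this)
  have h2 := Finset.sum_le_sum fun σ hσ => Finset.sum_le_sum fun τ hτ => h1 σ hσ τ hτ
  have e3 : ∑ σ : K →ₐ[ℚ] ℂ, ∑ τ : K →ₐ[ℚ] ℂ,
      (-Real.log ‖∑ l ∈ range p, (τ α) ^ l * (σ α) ^ (p - 1 - l)‖) ≤ 0 := by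
    rw [Finset.sum_comm]
    have h3 := Real.log_nonneg hq1
    rw [Real.log_prod] at h3
    · have e4 : ∀ σ : K →ₐ[ℚ] ℂ,
          Real.log (∏ τ : K →ₐ[ℚ] ℂ, ‖∑ l ∈ range p, (σ α) ^ l * (τ α) ^ (p - 1 - l)‖) =
          ∑ τ : K →ₐ[ℚ] ℂ, Real.log ‖∑ l ∈ range p, (σ α) ^ l * (τ α) ^ (p - 1 - l)‖ := fun σ =>
        Real.log_prod fun τ _ => norm_ne_zero_iff.mpr (hq0 σ τ)
      simp only [e4] at h3
      simp only [Finset.sum_neg_distrib]
      linarith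
    · intro σ _
      exact Finset.prod_ne_zero_iff.mpr fun τ _ => norm_ne_zero_iff.mpr (hq0 σ τ)
  have e5 : ∑ σ : K →ₐ[ℚ] ℂ, ∑ τ : K →ₐ[ℚ] ℂ,
      (p:ℝ) * (Real.log (max 1 ‖σ α‖) + Real.log (max 1 ‖τ α‖) + (ε σ + ε τ)) =
      finrank ℚ K * (2 * p * (lam α + ∑ σ, ε σ)) := by
    simp only [← Finset.mul_sum, Finset.sum_add_distrib, Finset.sum_const, Finset.card_univ, hcard,
      nsmul_eq_mul]
    unfold lam
    ring
  have e6 : EE α ε p p ≤ EE α ε 1 1 + (∑ σ : K →ₐ[ℚ] ℂ, ∑ τ : K →ₐ[ℚ] ℂ,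
      (-Real.log ‖∑ l ∈ range p, (τ α) ^ l * (σ α) ^ (p - 1 - l)‖) +
      ∑ σ : K →ₐ[ℚ] ℂ, ∑ τ : K →ₐ[ℚ] ℂ,
        (p:ℝ) * (Real.log (max 1 ‖σ α‖) + Real.log (max 1 ‖τ α‖) + (ε σ + ε τ))) := by
    refine h2.trans (le_of_eq ?_)
    unfold EE
    simp only [Finset.sum_add_distrib]
  rw [e5] at e6
  linarith

/-- the main inequality -/
theorem main_ineq {α : K} (hα : IsIntegral ℤ α) (h0 : α ≠ 0) (hroot : ∀ n : ℕ, 0 < n → α ^ n ≠ 1)
    (hc : CInj α) (P : Finset ℕ) (hP : ∀ p ∈ P, p.Prime) (hPc : ∀ p ∈ P, CInj (α ^ p))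
    {T : ℝ} (hT : 0 ≤ T) {ε : (K →ₐ[ℚ] ℂ) → ℝ} (hε : ∀ σ, 0 < ε σ ∧ ε σ ≤ 1 / 2) {R : ℝ}
    (hR : EE α ε 1 1 ≤ finrank ℚ K * R) :
    2 * T * ∑ p ∈ P, Real.log p ≤ (T ^ 2 + P.card) * R +
      (lam α + ∑ σ, ε σ) * (2 * T * (∑ p ∈ P, (p : ℝ) + P.card) + 2 * P.card * ∑ p ∈ P, (p : ℝ)) := by
  classical
  set d := finrank ℚ K with hd
  have hd0 : 0 < d := finrank_pos
  set m := lam α + ∑ σ, ε σ with hm
  have h1P : 1 ∉ P := fun h => Nat.not_prime_one (hP 1 h)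
  set Q : Finset ℕ := insert 1 P with hQ
  set x : ℕ × (K →ₐ[ℚ] ℂ) → ℝ := fun i => if i.1 = 1 then T else 1 with hx
  set w : ℕ × (K →ₐ[ℚ] ℂ) → ℂ := fun i => ww α ε i.2 ^ i.1 with hw
  have hQ0 : ∀ p ∈ Q, p ≠ 0 := by
    intro p hp
    rw [hQ, Finset.mem_insert] at hp
    rcases hp with rfl | hp
    · exact one_ne_zero
    · exact (hP p hp).ne_zero
  have hpsd := psd (Q ×ˢ (Finset.univ : Finset (K →ₐ[ℚ] ℂ))) x w (by
    intro i hi
    rw [Finset.mem_product] at hi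
    simp only [hw, norm_pow]
    exact pow_lt_one₀ (norm_nonneg _) (ww_norm hε _) (hQ0 _ hi.1))
  have e1 : ∑ i ∈ Q ×ˢ (Finset.univ : Finset (K →ₐ[ℚ] ℂ)),
      ∑ j ∈ Q ×ˢ (Finset.univ : Finset (K →ₐ[ℚ] ℂ)),
        x i * x j * (-Real.log ‖1 - w i * starRingEnd ℂ (w j)‖) =
      ∑ p ∈ Q, ∑ q ∈ Q, (if p = 1 then T else 1) * (if q = 1 then T else 1) * EE α ε p q := by
    rw [Finset.sum_product]
    refine Finset.sum_congr rfl fun p _ => ?_
    have e2 : ∀ q : ℕ, (if p = 1 then T else 1 : ℝ) * (if q = 1 then T else 1) * EE α ε p q =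
        ∑ σ : K →ₐ[ℚ] ℂ, ∑ τ : K →ₐ[ℚ] ℂ, x (p, σ) * x (q, τ) *
          (-Real.log ‖1 - w (p, σ) * starRingEnd ℂ (w (q, τ))‖) := by
      intro q
      unfold EE
      rw [Finset.mul_sum]
      refine Finset.sum_congr rfl fun σ _ => ?_
      rw [Finset.mul_sum]
    simp only [e2]
    conv_rhs => rw [Finset.sum_comm]
    refine Finset.sum_congr rfl fun σ _ => ?_
    rw [Finset.sum_product]
  rw [e1, hQ, Finset.sum_insert h1P, Finset.sum_insert h1P] at hpsd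
  have e2 : ∑ p ∈ P, ∑ q ∈ insert 1 P, (if p = 1 then T else 1) * (if q = 1 then T else 1) * EE α ε p q =
      ∑ p ∈ P, (T * EE α ε 1 p + ∑ q ∈ P, EE α ε p q) := by
    refine Finset.sum_congr rfl fun p hp => ?_
    rw [Finset.sum_insert h1P, if_neg (hP p hp).ne_one, if_pos rfl, one_mul, EE_symm α ε p 1]
    congr 1
    refine Finset.sum_congr rfl fun q hq => ?_
    rw [if_neg (hP q hq).ne_one]
    ring
  have e3 : ∑ q ∈ P, (if (1:ℕ) = 1 then T else 1) * (if q = 1 then T else 1) * EE α ε 1 q =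
      ∑ q ∈ P, T * EE α ε 1 q := by
    refine Finset.sum_congr rfl fun q hq => ?_
    rw [if_pos rfl, if_neg (hP q hq).ne_one]
    ring
  rw [e2, e3, if_pos rfl, Finset.sum_add_distrib] at hpsd
  -- the four bounds
  have b1 : ∀ p ∈ P, EE α ε 1 p ≤ - (d * Real.log p) + d * ((p + 1) * m) := by
    intro p hp
    have hpp := hP p hp
    have hne' := conj_ne hα h0 hroot hpp.ne_one (hPc p hp) (by rw [pow_one]; exact hc)
    have hne : ∀ σ τ : K →ₐ[ℚ] ℂ, σ (α ^ p) ≠ τ α := by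
      intro σ τ
      have := hne' σ τ
      rwa [pow_one] at this
    have h1 := pow_le_frob hα hc p hpp hne
    have hp0 : (0:ℝ) < p := by exact_mod_cast hpp.pos
    have h2 := Real.log_le_log (by positivity) h1
    rw [Real.log_pow] at h2
    have h3 := EE_cross hε hpp.ne_zero one_ne_zero hne'
    rw [pow_one, Nat.cast_one] at h3
    rw [EE_symm]
    linarith
  have b2 : ∀ p ∈ P, ∀ q ∈ P, EE α ε p q ≤ d * ((p + q) * m) + (if p = q then d * R else 0) := by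
    intro p hp q hq
    by_cases hpq : p = q
    · subst hpq
      rw [if_pos rfl]
      have h1 := EE_self hα h0 hc hε (hP p hp).pos (hPc p hp)
      have e : (d:ℝ) * ((p + p) * m) = d * (2 * p * m) := by ring
      rw [e]
      linarith
    · rw [if_neg hpq, add_zero]
      have hne := conj_ne hα h0 hroot hpq (hPc p hp) (hPc q hq)
      have h1 := one_le_cross (hα.pow p) (hα.pow q) (hPc q hq) hne
      have h2 := Real.log_nonneg h1
      have h3 := EE_cross hε (hP p hp).ne_zero (hP q hq).ne_zero hne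
      linarith
  have s1 : ∑ p ∈ P, T * EE α ε 1 p ≤
      T * (- (d * ∑ p ∈ P, Real.log p) + d * ((∑ p ∈ P, (p:ℝ) + P.card) * m)) := by
    calc ∑ p ∈ P, T * EE α ε 1 p ≤ ∑ p ∈ P, T * (- (d * Real.log p) + d * ((p + 1) * m)) :=
          Finset.sum_le_sum fun p hp => mul_le_mul_of_nonneg_left (b1 p hp) hT
      _ = _ := by
        rw [← Finset.mul_sum, Finset.sum_add_distrib, Finset.sum_neg_distrib, ← Finset.mul_sum,
          ← Finset.mul_sum, ← Finset.sum_mul, Finset.sum_add_distrib]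
        simp
  have s2 : ∑ p ∈ P, ∑ q ∈ P, EE α ε p q ≤
      d * (2 * P.card * (∑ p ∈ P, (p:ℝ)) * m) + P.card * (d * R) := by
    calc ∑ p ∈ P, ∑ q ∈ P, EE α ε p q
        ≤ ∑ p ∈ P, ∑ q ∈ P, (d * ((p + q) * m) + (if p = q then d * R else 0)) :=
          Finset.sum_le_sum fun p hp => Finset.sum_le_sum fun q hq => b2 p hp q hq
      _ = _ := by
        have e4 : ∀ p ∈ P, ∑ q ∈ P, ((d:ℝ) * ((p + q) * m) + (if p = q then d * R else 0)) =
            d * ((P.card * p + ∑ q ∈ P, (q:ℝ)) * m) + d * R := by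
          intro p hp
          rw [Finset.sum_add_distrib, Finset.sum_ite_eq, if_pos hp, ← Finset.mul_sum, ← Finset.sum_mul,
            Finset.sum_add_distrib]
          simp
        rw [Finset.sum_congr rfl e4, Finset.sum_add_distrib, ← Finset.mul_sum, ← Finset.sum_mul,
          Finset.sum_add_distrib, ← Finset.mul_sum]
        simp only [Finset.sum_const, nsmul_eq_mul]
        ring
  have hd' : (0:ℝ) < d := by exact_mod_cast hd0
  have hTT : T * T * EE α ε 1 1 ≤ T * T * (d * R) := mul_le_mul_of_nonneg_left hR (by positivity)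
  have hfin : (d:ℝ) * (2 * T * ∑ p ∈ P, Real.log p) ≤ d * ((T ^ 2 + P.card) * R +
      m * (2 * T * (∑ p ∈ P, (p : ℝ) + P.card) + 2 * P.card * ∑ p ∈ P, (p : ℝ))) := by
    have e5 : (d:ℝ) * ((T ^ 2 + P.card) * R +
      m * (2 * T * (∑ p ∈ P, (p : ℝ) + P.card) + 2 * P.card * ∑ p ∈ P, (p : ℝ))) =
      T * T * (d * R) + 2 * (T * (d * ((∑ p ∈ P, (p:ℝ) + P.card) * m))) +
        (d * (2 * P.card * (∑ p ∈ P, (p:ℝ)) * m) + P.card * (d * R)) := by ring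
    rw [e5]
    linarith
  exact le_of_mul_le_mul_left hfin hd'

end Pool.Agent.Y947.DL
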