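import Mathlib
import Pool.Agent.Y947.DL.Grid

/-!
# Choice of the radii
-/

set_option autoImplicit false

open Complex Metric Finset Polynomial

namespace Pool.Agent.Y947.DL

variable {ι : Type*} [Fintype ι]

/-- the function minimised in the choice of the radii -/
noncomputable def FF (L : ℝ) (b : ι → ℂ) (e : ℂ) (ρ : ℝ) : ℝ :=
  Fintype.card ι * ρ + HH L b (((1 - ρ : ℝ) : ℂ) * e)

lemma norm_real_mul_le {t : ℝ} (ht : 0 ≤ t) {e : ℂ} (he : ‖e‖ ≤ 1) : ‖(t : ℂ) * e‖ ≤ t := by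
  rw [norm_mul, Complex.norm_real, Real.norm_of_nonneg ht]
  nlinarith [norm_nonneg e]

lemma exists_min {L : ℝ} {b : ι → ℂ} (h : Std L b) {n : ℝ} (hn : 1 ≤ n) {e : ℂ} (he : ‖e‖ ≤ 1) :
    ∃ ρ ∈ Set.Icc (1 / (2 * n)) (1 / 2), ∀ ρ' ∈ Set.Icc (1 / (2 * n)) (1 / 2),
      FF L b e ρ ≤ FF L b e ρ' := by
  have hne : (Set.Icc (1 / (2 * n)) (1 / 2 : ℝ)).Nonempty := by
    refine ⟨1 / 2, ?_, le_refl _⟩
    apply one_div_le_one_div_of_le (by norm_num); linarith
  have hcont : ContinuousOn (FF L b e) (Set.Icc (1 / (2 * n)) (1 / 2)) := by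
    unfold FF HH
    apply ContinuousOn.add (by fun_prop)
    apply ContinuousOn.sub continuousOn_const
    apply continuousOn_finsetSum
    intro j _
    apply ContinuousOn.log
    · fun_prop
    · intro ρ hρ
      have hρ0 : 0 < ρ := lt_of_lt_of_le (by positivity) hρ.1
      have hρ1 : ρ ≤ 1 / 2 := hρ.2
      have h1 : ‖((1 - ρ : ℝ) : ℂ) * e‖ < 1 :=
        lt_of_le_of_lt (norm_real_mul_le (by linarith) he) (by linarith)
      exact norm_ne_zero_iff.mpr (one_sub_ne (norm_mul_conj_lt h1 (h.hb j)))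
  obtain ⟨ρ, hρ, hmin⟩ := isCompact_Icc.exists_isMinOn hne hcont
  exact ⟨ρ, hρ, fun ρ' hρ' => hmin hρ'⟩

lemma HH_zero (L : ℝ) (b : ι → ℂ) : HH L b 0 = L := by
  simp [HH]

/-- the choice of the radii: every `b j` gets a radius, and the total cost is bounded -/
theorem radii {L : ℝ} {b : ι → ℂ} (h : Std L b) (hn : 0 < Fintype.card ι)
    (hL : L ≤ 3 * Fintype.card ι) :
    ∃ ρ : ι → ℝ, (∀ j, 0 < ρ j ∧ ρ j ≤ 1 / 2) ∧
      ∑ j, (Fintype.card ι * ρ j + HH L b (((1 - ρ j : ℝ) : ℂ) * b j)) ≤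
        21000000 * Fintype.card ι * (1 + L + ∑ j, (1 - ‖b j‖)) := by
  classical
  set n : ℝ := (Fintype.card ι : ℝ) with hndef
  have hn1 : 1 ≤ n := by rw [hndef]; exact_mod_cast hn
  have hn0 : 0 < n := by linarith
  have hL0 : 0 < L := by
    have := h.hpos 0 (by simp)
    rwa [HH_zero] at this
  choose! r hr using fun (e : ℂ) (he : ‖e‖ ≤ 1) => exists_min h hn1 he
  set u : ℂ → ℝ := fun e => FF L b e (r e) with hu
  have hFF : ∀ e ρ, FF L b e ρ = n * ρ + HH L b (((1 - ρ : ℝ) : ℂ) * e) := fun e ρ => rfl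
  have hpos' : ∀ e : ℂ, ‖e‖ ≤ 1 → ∀ ρ : ℝ, 0 < ρ → ρ ≤ 1 → 0 < HH L b (((1 - ρ : ℝ) : ℂ) * e) := by
    intro e he ρ h0 h1
    apply h.hpos
    exact lt_of_le_of_lt (norm_real_mul_le (by linarith) he) (by linarith)
  have hr1 : ∀ e : ℂ, ‖e‖ ≤ 1 → 1 / (2 * n) ≤ r e ∧ r e ≤ 1 / 2 := fun e he =>
    ⟨(hr e he).1.1, (hr e he).1.2⟩
  have hrpos : ∀ e : ℂ, ‖e‖ ≤ 1 → 0 < r e := fun e he =>
    lt_of_lt_of_le (by positivity) (hr1 e he).1
  have hnr : ∀ e : ℂ, ‖e‖ ≤ 1 → 1 / 2 ≤ n * r e := by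
    intro e he
    have h1 := mul_le_mul_of_nonneg_left (hr1 e he).1 hn0.le
    have h2 : n * (1 / (2 * n)) = 1 / 2 := by field_simp
    linarith
  have hrHu : ∀ e : ℂ, ‖e‖ ≤ 1 → n * r e < u e := by
    intro e he
    have h1 := hpos' e he (r e) (hrpos e he) (by linarith [(hr1 e he).2])
    simp only [hu, hFF]
    linarith
  have hu_half : ∀ e : ℂ, ‖e‖ ≤ 1 → 1 / 2 < u e := fun e he =>
    lt_of_le_of_lt (hnr e he) (hrHu e he)
  have hHu : ∀ e : ℂ, ‖e‖ ≤ 1 → HH L b (((1 - r e : ℝ) : ℂ) * e) = u e - n * r e := by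
    intro e he
    simp only [hu, hFF]
    ring
  have hu10 : ∀ e : ℂ, ‖e‖ ≤ 1 → u e ≤ 10 * n := by
    intro e he
    have h1 := (hr e he).2 (1 / 2) ⟨by
      apply one_div_le_one_div_of_le (by norm_num); linarith, le_refl _⟩
    rw [hFF e (1 / 2)] at h1
    have h2 := h.harnack (x := 0) (y := ((1 - 1 / 2 : ℝ) : ℂ) * e) (by simp) (by
      rw [sub_zero, norm_zero, sub_zero]
      have := norm_real_mul_le (t := 1 - 1 / 2) (by norm_num) he
      linarith)
    rw [HH_zero] at h2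
    have h3 : FF L b e (r e) = u e := rfl
    linarith
  have hnear : ∀ e e' : ℂ, ‖e‖ ≤ 1 → ‖e'‖ ≤ 1 → ‖e - e'‖ ≤ u e' / (40 * n) → u e' ≤ 20 * u e := by
    intro e e' he he' hee
    by_contra hc
    push Not at hc
    set v := u e' with hv
    set ρ := v / (20 * n) with hρ
    have hv10 : v ≤ 10 * n := hu10 e' he'
    have hρ1 : ρ ≤ 1 / 2 := by
      rw [hρ, div_le_iff₀ (by positivity)]; linarith
    have hnρ : n * ρ = v / 20 := by rw [hρ]; field_simp
    have hrρ : r e < ρ := by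
      have h1 := hrHu e he
      have h2 : n * r e < n * ρ := by rw [hnρ]; linarith
      exact lt_of_mul_lt_mul_left h2 hn0.le
    have hρ0 : 0 < ρ := (hrpos e he).trans hrρ
    have h1 := HH_mono L h.hb (s := 1 - ρ) (s' := 1 - r e) (by linarith) (by linarith)
      (by linarith [hrpos e he]) he
    rw [hHu e he, ← hndef] at h1
    have h2 : HH L b (((1 - ρ : ℝ) : ℂ) * e) ≤ v / 10 := by
      have e1 : n * (1 - r e - (1 - ρ)) = n * ρ - n * r e := by ring
      rw [e1, hnρ] at h1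
      have := hnr e he
      linarith
    have hxn : ‖((1 - ρ : ℝ) : ℂ) * e‖ ≤ 1 - ρ := norm_real_mul_le (by linarith) he
    have h3 := h.harnack (x := ((1 - ρ : ℝ) : ℂ) * e) (y := ((1 - ρ : ℝ) : ℂ) * e')
      (by linarith) (by
        rw [← mul_sub, norm_mul, Complex.norm_real, Real.norm_of_nonneg (by linarith),
          norm_sub_rev]
        have h4 : u e' / (40 * n) = 1 / 2 * ρ := by rw [hρ]; field_simp; ring
        have h5 : (1 - ρ) * ‖e - e'‖ ≤ ‖e - e'‖ := by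
          nlinarith [norm_nonneg (e - e')]
        rw [h4] at hee
        linarith)
    have h6 := (hr e' he').2 ρ ⟨(hr1 e he).1.trans hrρ.le, hρ1⟩
    rw [hFF e' ρ, hnρ] at h6
    have h7 : FF L b e' (r e') = v := rfl
    have h8 := hu_half e' he'
    linarith
  have hgood : ∀ e : ℂ, ‖e‖ ≤ 1 → ∃ ρ : ℝ, u e / (16 * n) ≤ ρ ∧ n * ρ ≤ u e ∧ 0 < ρ ∧ ρ < 1 ∧
      ∑ j, (1 - ‖((1 - ρ : ℝ) : ℂ) * e * starRingEnd ℂ (b j)‖ ^ 2) /
        ‖1 - ((1 - ρ : ℝ) : ℂ) * e * starRingEnd ℂ (b j)‖ ^ 2 ≤ 129 * n := by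
    intro e he
    have hu0 : 0 < u e := by linarith [hu_half e he]
    set ρ := max (r e) (u e / (16 * n)) with hρ
    have h1 : u e / (16 * n) ≤ ρ := le_max_right _ _
    have hn16 : n * (u e / (16 * n)) = u e / 16 := by field_simp
    have h2 : n * ρ ≤ u e := by
      rw [hρ, mul_max_of_nonneg _ _ hn0.le, hn16]
      exact max_le (hrHu e he).le (by linarith)
    have h3 : 0 < ρ := lt_of_lt_of_le (hrpos e he) (le_max_left _ _)
    have h4 : ρ < 1 := by
      apply max_lt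
      · linarith [(hr1 e he).2]
      · rw [div_lt_one (by positivity)]
        linarith [hu10 e he]
    refine ⟨ρ, h1, h2, h3, h4, ?_⟩
    have hxn : ‖((1 - ρ : ℝ) : ℂ) * e‖ ≤ 1 - ρ := norm_real_mul_le (by linarith) he
    have h5 := h.sumP_le (x := ((1 - ρ : ℝ) : ℂ) * e) (by linarith)
    have hH2 : HH L b (((1 - ρ : ℝ) : ℂ) * e) ≤ 2 * u e := by
      have h6 := HH_mono L h.hb (s := 1 - ρ) (s' := 1 - r e) (by linarith)
        (by linarith [le_max_left (r e) (u e / (16 * n))]) (by linarith [hrpos e he]) he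
      rw [hHu e he, ← hndef] at h6
      have e1 : n * (1 - r e - (1 - ρ)) = n * ρ - n * r e := by ring
      rw [e1] at h6
      have := hnr e he
      linarith
    have hH0 : 0 < HH L b (((1 - ρ : ℝ) : ℂ) * e) := hpos' e he ρ h3 h4.le
    have h7 : 4 * HH L b (((1 - ρ : ℝ) : ℂ) * e) / (1 - ‖((1 - ρ : ℝ) : ℂ) * e‖) ≤ 128 * n := by
      calc 4 * HH L b (((1 - ρ : ℝ) : ℂ) * e) / (1 - ‖((1 - ρ : ℝ) : ℂ) * e‖)
          ≤ 4 * HH L b (((1 - ρ : ℝ) : ℂ) * e) / ρ := by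
            apply div_le_div_of_nonneg_left (by positivity) h3; linarith
        _ ≤ 128 * n := by
            rw [div_le_iff₀ h3]
            have h8 : u e ≤ 16 * n * ρ := by
              rw [div_le_iff₀ (by positivity)] at h1
              linarith
            nlinarith
    linarith
  choose! ρg hρg using hgood
  -- lower bound for the kernels
  have hlow : ∀ e : ℂ, ‖e‖ = 1 → ∀ j, ‖e - b j‖ ≤ u (b j) / (40 * n) →
      n / 81 ≤ u e * ((1 - ‖((1 - ρg e : ℝ) : ℂ) * e * starRingEnd ℂ (b j)‖ ^ 2) /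
        ‖1 - ((1 - ρg e : ℝ) : ℂ) * e * starRingEnd ℂ (b j)‖ ^ 2) := by
    intro e he j hj
    obtain ⟨g1, g2, g3, g4, -⟩ := hρg e he.le
    set ρ := ρg e with hρ
    set x : ℂ := ((1 - ρ : ℝ) : ℂ) * e with hx
    have hxn : ‖x‖ ≤ 1 - ρ := norm_real_mul_le (by linarith) he.le
    have hxb : ‖x * starRingEnd ℂ (b j)‖ ≤ 1 - ρ := by
      rw [norm_mul, RCLike.norm_conj]
      nlinarith [h.hb j, norm_nonneg x, norm_nonneg (b j)]
    have hnum : ρ ≤ 1 - ‖x * starRingEnd ℂ (b j)‖ ^ 2 := by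
      nlinarith [norm_nonneg (x * starRingEnd ℂ (b j))]
    have hden0 : 0 < ‖1 - x * starRingEnd ℂ (b j)‖ :=
      norm_pos_iff.mpr (one_sub_ne (by linarith))
    have hden : ‖1 - x * starRingEnd ℂ (b j)‖ ≤ 9 * ρ := by
      have e1 : 1 - x * starRingEnd ℂ (b j) = (1 - e * starRingEnd ℂ (b j)) +
          (ρ : ℂ) * (e * starRingEnd ℂ (b j)) := by
        rw [hx]; push_cast; ring
      have e2 : ‖1 - e * starRingEnd ℂ (b j)‖ = ‖e - b j‖ := by
        have h1 : e * starRingEnd ℂ e = 1 := by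
          rw [Complex.mul_conj, Complex.normSq_eq_norm_sq, he]; norm_num
        have h2 : 1 - e * starRingEnd ℂ (b j) = e * starRingEnd ℂ (e - b j) := by
          rw [map_sub, mul_sub, h1]
        rw [h2, norm_mul, he, one_mul, RCLike.norm_conj]
      have e3 : ‖(ρ : ℂ) * (e * starRingEnd ℂ (b j))‖ ≤ ρ := by
        apply norm_real_mul_le g3.le
        rw [norm_mul, he, one_mul, RCLike.norm_conj]
        exact h.hb j
      have h1 := hnear e (b j) he.le (h.hb j) hj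
      have h2 : u (b j) / (40 * n) ≤ 8 * ρ := by
        rw [div_le_iff₀ (by positivity)]
        rw [div_le_iff₀ (by positivity)] at g1
        linarith
      rw [e1]
      refine (norm_add_le _ _).trans ?_
      rw [e2]
      linarith
    have hu0 : 0 < u e := by linarith [hu_half e he.le]
    rw [← mul_div_assoc, le_div_iff₀ (by positivity)]
    have h3 : ‖1 - x * starRingEnd ℂ (b j)‖ ^ 2 ≤ 81 * ρ ^ 2 := by
      have := pow_le_pow_left₀ (norm_nonneg _) hden 2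
      nlinarith
    calc n / 81 * ‖1 - x * starRingEnd ℂ (b j)‖ ^ 2 ≤ n / 81 * (81 * ρ ^ 2) := by gcongr
      _ = (n * ρ) * ρ := by ring
      _ ≤ u e * (1 - ‖x * starRingEnd ℂ (b j)‖ ^ 2) := by
        apply mul_le_mul g2 hnum g3.le hu0.le
  -- the grid
  set N : ℕ := 2000 * Fintype.card ι with hN
  have hN0 : 0 < N := by omega
  have hNn : (N : ℝ) = 2000 * n := by rw [hN, hndef]; push_cast; ring
  set E := nthRootsFinset N (1:ℂ) with hE
  have hEn : ∀ ζ ∈ E, ‖ζ‖ = 1 := fun ζ hζ => norm_of_mem_grid hN0 hζ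
  have hsumu : ∑ ζ ∈ E, u ζ ≤ N * (1 + L) := by
    have h1 : ∀ ζ ∈ E, u ζ ≤ 1 / 2 + HH L b (((1 - 1 / (2 * n) : ℝ) : ℂ) * ζ) := by
      intro ζ hζ
      have h2 := (hr ζ (hEn ζ hζ).le).2 (1 / (2 * n)) ⟨le_refl _, by
        apply one_div_le_one_div_of_le (by norm_num); linarith⟩
      have h3 : FF L b ζ (1 / (2 * n)) = 1 / 2 + HH L b (((1 - 1 / (2 * n) : ℝ) : ℂ) * ζ) := by
        rw [hFF]
        congr 1
        field_simp
      rw [h3] at h2
      exact h2
    have h2 := Finset.sum_le_sum h1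
    rw [Finset.sum_add_distrib, Finset.sum_const, hE, card_grid hN0, nsmul_eq_mul] at h2
    have h2n : 1 / (2 * n) ≤ 1 / 2 := by
      apply one_div_le_one_div_of_le (by norm_num); linarith
    have h2n0 : 0 < 1 / (2 * n) := by positivity
    have hrN : (1 - 1 / (2 * n)) ^ N ≤ 1 / 2 := by
      have h3 : 1 - 1 / (2 * n) ≤ Real.exp (-(1 / (2 * n))) := Real.one_sub_le_exp_neg _
      have h4 : (1 - 1 / (2 * n)) ^ N ≤ Real.exp (-(1 / (2 * n))) ^ N :=
        pow_le_pow_left₀ (by linarith) h3 N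
      refine h4.trans ?_
      rw [← Real.exp_nat_mul]
      have e1 : (N:ℝ) * -(1 / (2 * n)) = -1000 := by
        rw [hNn]; field_simp; norm_num
      rw [e1]
      have h5 : Real.exp (-1000) ≤ Real.exp (-1) := Real.exp_le_exp.mpr (by norm_num)
      refine h5.trans ?_
      rw [Real.exp_neg]
      have h6 : 2 ≤ Real.exp 1 := by
        have := Real.add_one_le_exp 1
        linarith
      rw [one_div]
      exact inv_anti₀ (by norm_num) h6
    have h3 := sum_grid L h.hb hN0 (r := 1 - 1 / (2 * n)) (by linarith) (by linarith) hrN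
    rw [← hndef] at h3
    have h4 : n ≤ N / 2 := by rw [hNn]; linarith
    have h5 : (N:ℝ) * (1 + L) = N + N * L := by ring
    rw [h5]
    linarith
  have hupos : ∀ ζ ∈ E, 0 ≤ u ζ := fun ζ hζ => by linarith [hu_half ζ (hEn ζ hζ).le]
  set cnt : ι → ℕ := fun j => (E.filter (fun ζ => ‖ζ - b j‖ ≤ u (b j) / (40 * n))).card with hcnt
  have hcount : ∑ j, (cnt j : ℝ) ≤ 10449 * ∑ ζ ∈ E, u ζ := by
    set PP : ℂ → ι → ℝ := fun e j => (1 - ‖((1 - ρg e : ℝ) : ℂ) * e * starRingEnd ℂ (b j)‖ ^ 2) /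
        ‖1 - ((1 - ρg e : ℝ) : ℂ) * e * starRingEnd ℂ (b j)‖ ^ 2 with hPP
    have hPP0 : ∀ ζ ∈ E, ∀ j, 0 ≤ PP ζ j := by
      intro ζ hζ j
      obtain ⟨g1, g2, g3, g4, -⟩ := hρg ζ (hEn ζ hζ).le
      apply div_nonneg _ (by positivity)
      have hxn : ‖((1 - ρg ζ : ℝ) : ℂ) * ζ‖ ≤ 1 - ρg ζ := norm_real_mul_le (by linarith) (hEn ζ hζ).le
      have hxb : ‖((1 - ρg ζ : ℝ) : ℂ) * ζ * starRingEnd ℂ (b j)‖ < 1 :=
        norm_mul_conj_lt (by linarith) (h.hb j)
      nlinarith [norm_nonneg (((1 - ρg ζ : ℝ) : ℂ) * ζ * starRingEnd ℂ (b j))]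
    have h1 : ∑ ζ ∈ E, u ζ * ∑ j, PP ζ j ≤ ∑ ζ ∈ E, u ζ * (129 * n) := by
      apply Finset.sum_le_sum
      intro ζ hζ
      apply mul_le_mul_of_nonneg_left _ (hupos ζ hζ)
      exact (hρg ζ (hEn ζ hζ).le).2.2.2.2
    have h2 : ∑ ζ ∈ E, u ζ * ∑ j, PP ζ j = ∑ j, ∑ ζ ∈ E, u ζ * PP ζ j := by
      simp_rw [Finset.mul_sum]
      rw [Finset.sum_comm]
    have h3 : ∑ j, (cnt j : ℝ) * (n / 81) ≤ ∑ j, ∑ ζ ∈ E, u ζ * PP ζ j := by
      apply Finset.sum_le_sum
      intro j _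
      calc (cnt j : ℝ) * (n / 81) = ∑ ζ ∈ E.filter (fun ζ => ‖ζ - b j‖ ≤ u (b j) / (40 * n)), n / 81 := by
            rw [Finset.sum_const, nsmul_eq_mul]
        _ ≤ ∑ ζ ∈ E.filter (fun ζ => ‖ζ - b j‖ ≤ u (b j) / (40 * n)), u ζ * PP ζ j := by
            apply Finset.sum_le_sum
            intro ζ hζ
            rw [Finset.mem_filter] at hζ
            exact hlow ζ (hEn ζ hζ.1) j hζ.2
        _ ≤ ∑ ζ ∈ E, u ζ * PP ζ j := by
            apply Finset.sum_le_sum_of_subset_of_nonneg (Finset.filter_subset _ _)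
            intro ζ hζ _
            exact mul_nonneg (hupos ζ hζ) (hPP0 ζ hζ j)
    rw [← Finset.sum_mul] at h3
    rw [← Finset.sum_mul] at h1
    have h4 : (∑ j, (cnt j : ℝ)) * (n / 81) ≤ (10449 * ∑ ζ ∈ E, u ζ) * (n / 81) := by
      calc (∑ j, (cnt j : ℝ)) * (n / 81) ≤ (∑ ζ ∈ E, u ζ) * (129 * n) := by
            rw [← h2] at h3; exact h3.trans h1
        _ = (10449 * ∑ ζ ∈ E, u ζ) * (n / 81) := by ring
    exact le_of_mul_le_mul_right h4 (by positivity)
  have hj : ∀ j, u (b j) ≤ cnt j + 80 * n * (1 - ‖b j‖) := by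
    intro j
    set v := u (b j) with hv
    have hv1 : 1 / 2 < v := hu_half _ (h.hb j)
    have hv10 : v ≤ 10 * n := hu10 _ (h.hb j)
    by_cases hc : 1 - ‖b j‖ ≤ v / (80 * n)
    · have hb0 : 0 < ‖b j‖ := by
        have : v / (80 * n) ≤ 1 / 8 := by
          rw [div_le_iff₀ (by positivity)]; linarith
        linarith
      set z : ℂ := b j / (‖b j‖ : ℂ) with hz
      have hbj0 : ((‖b j‖ : ℝ) : ℂ) ≠ 0 := by exact_mod_cast hb0.ne'
      have hz1 : ‖z‖ = 1 := by
        rw [hz, norm_div, Complex.norm_real, norm_norm, div_self hb0.ne']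
      have hzb : ‖z - b j‖ = 1 - ‖b j‖ := by
        have e1 : z - b j = ((1 - ‖b j‖ : ℝ) : ℂ) * z := by
          rw [hz]
          push_cast
          field_simp
        rw [e1, norm_mul, hz1, mul_one, Complex.norm_real, Real.norm_of_nonneg]
        linarith [h.hb j]
      set M : ℕ := ⌊25 * v / (2 * Real.pi)⌋₊ with hM
      have hpi := Real.pi_gt_three
      have hpi2 := Real.pi_lt_d2
      have hM1 : (M : ℝ) ≤ 25 * v / (2 * Real.pi) := Nat.floor_le (by positivity)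
      have hM2 : 25 * v / (2 * Real.pi) < M + 1 := Nat.lt_floor_add_one _
      have hMN : M ≤ N := by
        have h1 : (M : ℝ) ≤ N := by
          refine hM1.trans ?_
          rw [div_le_iff₀ (by positivity), hNn]
          nlinarith
        exact_mod_cast h1
      have hs : 2 * Real.pi * M / N ≤ v / (80 * n) := by
        rw [hNn, div_le_div_iff₀ (by positivity) (by positivity)]
        rw [le_div_iff₀ (by positivity)] at hM1
        nlinarith
      have h1 := count_grid hN0 hMN hs hz1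
      have h2 : ((nthRootsFinset N (1:ℂ)).filter (fun ζ => ‖ζ - z‖ ≤ v / (80 * n))).card ≤ cnt j := by
        apply Finset.card_le_card
        intro ζ hζ
        rw [Finset.mem_filter] at hζ ⊢
        refine ⟨hζ.1, ?_⟩
        have e1 : ζ - b j = (ζ - z) + (z - b j) := by ring
        rw [e1]
        refine (norm_add_le _ _).trans ?_
        rw [hzb]
        have e2 : u (b j) / (40 * n) = v / (80 * n) + v / (80 * n) := by rw [← hv]; field_simp; ring
        rw [e2]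
        linarith [hζ.2]
      have h3 : (M : ℝ) ≤ cnt j := by exact_mod_cast h1.trans h2
      have h4 : v ≤ M := by
        rw [div_lt_iff₀ (by positivity)] at hM2
        have h5 : 25 * v < (M + 1) * 6.3 := by
          refine hM2.trans_le ?_
          apply mul_le_mul_of_nonneg_left _ (by positivity)
          linarith
        linarith
      have h5 : 0 ≤ 80 * n * (1 - ‖b j‖) := by
        apply mul_nonneg (by positivity); linarith [h.hb j]
      linarith
    · push Not at hc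
      rw [div_lt_iff₀ (by positivity)] at hc
      have : (0:ℝ) ≤ cnt j := Nat.cast_nonneg _
      linarith
  refine ⟨fun j => r (b j), fun j => ⟨hrpos _ (h.hb j), (hr1 _ (h.hb j)).2⟩, ?_⟩
  have hfin : ∑ j, u (b j) ≤ 10449 * (N * (1 + L)) + 80 * n * ∑ j, (1 - ‖b j‖) := by
    calc ∑ j, u (b j) ≤ ∑ j, ((cnt j : ℝ) + 80 * n * (1 - ‖b j‖)) := Finset.sum_le_sum fun j _ => hj j
      _ = ∑ j, (cnt j : ℝ) + 80 * n * ∑ j, (1 - ‖b j‖) := by
        rw [Finset.sum_add_distrib, Finset.mul_sum]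
      _ ≤ _ := by linarith
  have hδ : 0 ≤ ∑ j, (1 - ‖b j‖) := Finset.sum_nonneg fun j _ => by linarith [h.hb j]
  have e1 : ∑ j, (n * r (b j) + HH L b (((1 - r (b j) : ℝ) : ℂ) * b j)) = ∑ j, u (b j) := rfl
  rw [e1]
  refine hfin.trans ?_
  rw [hNn]
  nlinarith [mul_nonneg hn0.le hδ, mul_nonneg hn0.le hL0.le]

end Pool.Agent.Y947.DL
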