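import Mathlib
import Pool.Agent.Y947.DL.Radii

/-!
# Energy of the contracted points
-/

set_option autoImplicit false

open Complex Metric Finset Polynomial

namespace Pool.Agent.Y947.DL

variable {ι : Type*} [Fintype ι]

/-- contraction factors `1 - ε j` with small total contraction and bounded energy -/
theorem contract {L : ℝ} {b : ι → ℂ} (h : Std L b) (hn : 0 < Fintype.card ι)
    (hL : L ≤ 3 * Fintype.card ι) {κ : ℝ} (hκ0 : 0 < κ) (hκ1 : κ ≤ 1) :
    ∃ ε : ι → ℝ, (∀ j, 0 < ε j ∧ ε j ≤ 1 / 2) ∧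
      ∑ j, ε j ≤ κ * (21000000 * (1 + L + ∑ j, (1 - ‖b j‖))) ∧
      ∑ i, ∑ j, -Real.log ‖1 - (((1 - ε i) * (1 - ε j) : ℝ) : ℂ) * (b i * starRingEnd ℂ (b j))‖ ≤
        Fintype.card ι * (630000000 * (1 + L + ∑ j, (1 - ‖b j‖)) * (1 + Real.log (1 / κ))) := by
  obtain ⟨ρ, hρ, hsum⟩ := radii h hn hL
  set n : ℝ := (Fintype.card ι : ℝ) with hndef
  have hn1 : 1 ≤ n := by rw [hndef]; exact_mod_cast hn
  have hn0 : 0 < n := by linarith
  set W := 1 + L + ∑ j, (1 - ‖b j‖) with hW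
  have hlogκ : 0 ≤ Real.log (1 / κ) := Real.log_nonneg (by rw [le_div_iff₀ hκ0]; linarith)
  have hH0 : ∀ j, 0 < HH L b (((1 - ρ j : ℝ) : ℂ) * b j) := by
    intro j
    apply h.hpos
    refine lt_of_le_of_lt (norm_real_mul_le (by linarith [(hρ j).2]) (h.hb j)) ?_
    linarith [(hρ j).1]
  have hε : ∀ j, 0 < κ * ρ j ∧ κ * ρ j ≤ 1 / 2 := by
    intro j
    refine ⟨mul_pos hκ0 (hρ j).1, ?_⟩
    nlinarith [(hρ j).1, (hρ j).2]
  have hη : ∑ j, κ * ρ j ≤ κ * (21000000 * W) := by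
    rw [← Finset.mul_sum]
    apply mul_le_mul_of_nonneg_left _ hκ0.le
    have h1 : n * ∑ j, ρ j ≤ n * (21000000 * W) := by
      rw [Finset.mul_sum]
      calc ∑ j, n * ρ j ≤ ∑ j, (n * ρ j + HH L b (((1 - ρ j : ℝ) : ℂ) * b j)) :=
            Finset.sum_le_sum fun j _ => by linarith [hH0 j]
        _ ≤ 21000000 * n * W := hsum
        _ = n * (21000000 * W) := by ring
    exact le_of_mul_le_mul_left h1 hn0
  refine ⟨fun j => κ * ρ j, hε, hη, ?_⟩
  -- energy bound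
  have h1 : ∀ i ∈ (Finset.univ : Finset ι),
      ∑ j, -Real.log ‖1 - (((1 - κ * ρ i) * (1 - κ * ρ j) : ℝ) : ℂ) * (b i * starRingEnd ℂ (b j))‖ ≤
      29 * (1 + Real.log (1 / κ)) * (n * ρ i + HH L b (((1 - ρ i : ℝ) : ℂ) * b i)) +
        ∑ j, κ * ρ j := by
    intro i _
    have h2 : ∀ j ∈ (Finset.univ : Finset ι),
        -Real.log ‖1 - (((1 - κ * ρ i) * (1 - κ * ρ j) : ℝ) : ℂ) * (b i * starRingEnd ℂ (b j))‖ ≤
        -Real.log ‖1 - ((1 - κ * ρ i : ℝ) : ℂ) * b i * starRingEnd ℂ (b j)‖ + κ * ρ j := by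
      intro j _
      have hi := hε i
      have hj := hε j
      have h3 := log_mono (s := (1 - κ * ρ i) * (1 - κ * ρ j)) (s' := 1 - κ * ρ i)
        (mul_nonneg (by linarith) (by linarith)) (by nlinarith) (by linarith)
        (w := b i * starRingEnd ℂ (b j)) (by
          rw [norm_mul, RCLike.norm_conj]
          exact mul_le_one₀ (h.hb i) (norm_nonneg _) (h.hb j))
      rw [mul_assoc]
      nlinarith
    have h3 := Finset.sum_le_sum h2
    rw [Finset.sum_add_distrib] at h3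
    have h4 : ∑ j, -Real.log ‖1 - ((1 - κ * ρ i : ℝ) : ℂ) * b i * starRingEnd ℂ (b j)‖ =
        HH L b (((1 - κ * ρ i : ℝ) : ℂ) * b i) - L := by
      unfold HH
      rw [Finset.sum_neg_distrib]; ring
    rw [h4] at h3
    have h5 := h.closer hκ0 hκ1 (hρ i).1 (hρ i).2 (h.hb i)
    rw [← hndef] at h5
    have hL0 : 0 < L := by
      have := h.hpos 0 (by simp)
      rwa [HH_zero] at this
    set X := HH L b (((1 - ρ i : ℝ) : ℂ) * b i) with hX
    have hX0 : 0 < X := hH0 i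
    have hnρ : 0 < n * ρ i := mul_pos hn0 (hρ i).1
    have h6 : X + (n * ρ i + 4 * X) * (7 + 4 * Real.log (1 / κ)) ≤
        29 * (1 + Real.log (1 / κ)) * (n * ρ i + X) := by
      nlinarith [mul_nonneg hX0.le hlogκ, mul_nonneg hnρ.le hlogκ]
    linarith
  have h2 := Finset.sum_le_sum h1
  rw [Finset.sum_add_distrib, Finset.sum_const, Finset.card_univ, nsmul_eq_mul, ← Finset.mul_sum,
    ← hndef] at h2
  have hW0 : 0 ≤ W := by
    have hL0 : 0 < L := by
      have := h.hpos 0 (by simp)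
      rwa [HH_zero] at this
    have hδ : 0 ≤ ∑ j, (1 - ‖b j‖) := Finset.sum_nonneg fun j _ => by linarith [h.hb j]
    linarith
  have h3 : 29 * (1 + Real.log (1 / κ)) *
      ∑ i, (n * ρ i + HH L b (((1 - ρ i : ℝ) : ℂ) * b i)) ≤
      29 * (1 + Real.log (1 / κ)) * (21000000 * n * W) :=
    mul_le_mul_of_nonneg_left hsum (by positivity)
  have h4 : n * ∑ j, κ * ρ j ≤ n * (21000000 * W) := by
    apply mul_le_mul_of_nonneg_left _ hn0.le
    refine hη.trans ?_
    have : 0 ≤ 21000000 * W := by positivity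
    nlinarith
  refine h2.trans ?_
  nlinarith [mul_nonneg (mul_nonneg hn0.le hW0) hlogκ]

end Pool.Agent.Y947.DL
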