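import Mathlib

/-!
# Real-variable inequalities for the optimisation
-/

set_option autoImplicit false

namespace Pool.Agent.Y947.DL

/-- the real-variable part -/
lemma final_real {b G l Y R θ q s T m : ℝ} (hb : 1 ≤ b) (hG : b ^ 2 ≤ G) (hl : 1 ≤ l)
    (hR : R = 10 ^ 10 * b * l)
    (hY1 : 10 ^ 24 * G * l ≤ Y) (hY2 : Y ≤ 10 ^ 24 * G * l + 1) (hlY : l ≤ Real.log Y)
    (hlR : Real.log Y ≤ 2 * R) (hθ : Y / 16 ≤ θ) (hq : 0 < q) (hqY : q * Real.log Y ≤ 4 * Y)
    (hθq : θ ≤ q * Real.log Y) (hs : s ≤ q * Y) (hs0 : 0 ≤ s) (hT : T = θ / (2 * R)) (hm : 0 ≤ m)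
    (hmain : 2 * T * θ ≤ (T ^ 2 + q) * R + m * (2 * T * (s + q) + 2 * q * s)) :
    10 ^ (-40 : ℤ) / (b * G) ≤ m := by
  have hR0 : 0 < R := by rw [hR]; positivity
  have hb2 : 1 ≤ b ^ 2 := by nlinarith
  have hG1 : 1 ≤ G := by linarith
  have hGl : 1 ≤ G * l := by nlinarith
  have hY0 : 1 ≤ Y := by
    refine le_trans ?_ hY1
    rw [mul_assoc]
    nlinarith
  have hθ0 : 0 < θ := by linarith
  have hT0 : 0 < T := by rw [hT]; positivity
  have hTq : T ≤ q := by
    rw [hT, div_le_iff₀ (by positivity)]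
    refine hθq.trans ?_
    exact mul_le_mul_of_nonneg_left hlR hq.le
  have e1 : 2 * T * θ = θ ^ 2 / R := by rw [hT]; field_simp
  have e2 : T ^ 2 * R = θ ^ 2 / (4 * R) := by rw [hT]; field_simp; ring
  have h64 : q * Real.log Y ≤ 64 * θ := by linarith
  have hqR : q * R ≤ θ ^ 2 / (4 * R) := by
    rw [le_div_iff₀ (by positivity)]
    have h1 : q * l ≤ 4 * Y := (mul_le_mul_of_nonneg_left hlY hq.le).trans hqY
    have h2 : (Y / 16) ^ 2 ≤ θ ^ 2 := pow_le_pow_left₀ (by linarith) hθ 2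
    have h3 : q * R * (4 * R) = 4 * 10 ^ 20 * ((b ^ 2 * l) * (q * l)) := by rw [hR]; ring
    have h4 : (b ^ 2 * l) * (q * l) ≤ (G * l) * (4 * Y) := by
      apply mul_le_mul _ h1 (by positivity) (by positivity)
      exact mul_le_mul_of_nonneg_right hG (by linarith)
    have h6 : 4096 * 10 ^ 20 * (G * l) ≤ Y := by
      refine le_trans ?_ hY1
      rw [mul_assoc (10 ^ 24 : ℝ) G l]
      apply mul_le_mul_of_nonneg_right _ (by positivity)
      norm_num
    have h5 : 4 * 10 ^ 20 * ((G * l) * (4 * Y)) ≤ (Y / 16) ^ 2 := by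
      have h7 : 4096 * 10 ^ 20 * (G * l) * Y ≤ Y * Y := mul_le_mul_of_nonneg_right h6 (by linarith)
      have e3 : 4 * 10 ^ 20 * ((G * l) * (4 * Y)) = (4096 * 10 ^ 20 * (G * l) * Y) / 256 := by ring
      have e4 : (Y / 16) ^ 2 = Y * Y / 256 := by ring
      rw [e3, e4]
      linarith
    have h8 : 4 * 10 ^ 20 * ((b ^ 2 * l) * (q * l)) ≤ 4 * 10 ^ 20 * ((G * l) * (4 * Y)) :=
      mul_le_mul_of_nonneg_left h4 (by positivity)
    linarith
  have h1 : θ ^ 2 / (2 * R) ≤ m * (2 * T * (s + q) + 2 * q * s) := by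
    have e3 : θ ^ 2 / R = θ ^ 2 / (4 * R) + θ ^ 2 / (4 * R) + θ ^ 2 / (2 * R) := by field_simp; ring
    rw [e1, e3, add_mul, e2] at hmain
    linarith
  have h2 : 2 * T * (s + q) + 2 * q * s ≤ 8 * (q ^ 2 * Y) := by
    have h3 : 2 * T * (s + q) ≤ 2 * q * (q * Y + q) := by
      apply mul_le_mul (by linarith) (by linarith) (by positivity) (by positivity)
    have h4 : 2 * q * s ≤ 2 * q * (q * Y) := mul_le_mul_of_nonneg_left hs (by positivity)
    have h5 : q ^ 2 ≤ q ^ 2 * Y := le_mul_of_one_le_right (by positivity) hY0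
    nlinarith
  have h3 : θ ^ 2 / (2 * R) ≤ m * (8 * (q ^ 2 * Y)) := h1.trans (mul_le_mul_of_nonneg_left h2 hm)
  have h4 : q * l ≤ 64 * θ := (mul_le_mul_of_nonneg_left hlY hq.le).trans h64
  have h5 : (q * l) ^ 2 ≤ (64 * θ) ^ 2 := pow_le_pow_left₀ (by positivity) h4 2
  have h6 : q ^ 2 * l ^ 2 ≤ q ^ 2 * (m * (65536 * (R * Y))) := by
    rw [div_le_iff₀ (by positivity)] at h3
    nlinarith
  have h7 : l ^ 2 ≤ m * (65536 * (R * Y)) := le_of_mul_le_mul_left h6 (by positivity)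
  have hYu : Y ≤ 2 * 10 ^ 24 * (G * l) := by
    have h9 : 1 ≤ 10 ^ 24 * (G * l) := by nlinarith
    rw [mul_assoc] at hY2
    linarith
  have h8 : R * Y ≤ 2 * 10 ^ 34 * (b * G * l ^ 2) := by
    rw [hR]
    calc 10 ^ 10 * b * l * Y ≤ 10 ^ 10 * b * l * (2 * 10 ^ 24 * (G * l)) :=
          mul_le_mul_of_nonneg_left hYu (by positivity)
      _ = _ := by ring
  have h9 : l ^ 2 * 1 ≤ l ^ 2 * (m * (10 ^ 40 * (b * G))) := by
    calc l ^ 2 * 1 = l ^ 2 := mul_one _
      _ ≤ m * (65536 * (R * Y)) := h7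
      _ ≤ m * (65536 * (2 * 10 ^ 34 * (b * G * l ^ 2))) := by
        apply mul_le_mul_of_nonneg_left _ hm
        linarith
      _ = l ^ 2 * (m * (65536 * (2 * 10 ^ 34) * (b * G))) := by ring
      _ ≤ _ := by
        apply mul_le_mul_of_nonneg_left _ (by positivity)
        apply mul_le_mul_of_nonneg_left _ hm
        apply mul_le_mul_of_nonneg_right _ (by positivity)
        norm_num
  have h10 : 1 ≤ m * (10 ^ 40 * (b * G)) := le_of_mul_le_mul_left h9 (by positivity)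
  rw [div_le_iff₀ (by positivity)]
  have e : (10:ℝ) ^ (-40 : ℤ) = 1 / 10 ^ 40 := by norm_num
  rw [e, div_le_iff₀ (by positivity)]
  linarith

/-- facts about the choice of `Y` -/
lemma Y_facts {b G b0 l Y R : ℝ} (hb : 1 ≤ b) (hb0 : 10 ^ 48 ≤ b0) (hbG : b0 ≤ G)
    (hl : l = 1 + Real.log G) (hR : R = 10 ^ 10 * b * l)
    (hY1 : 10 ^ 24 * G * l ≤ Y) (hY2 : Y ≤ 10 ^ 24 * G * l + 1) :
    1 ≤ l ∧ b0 ≤ Y ∧ 2 ≤ Y ∧ l ≤ Real.log Y ∧ Real.log Y ≤ 60 * l ∧ Real.log Y ≤ 2 * R ∧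
      2 * G * Real.log Y ≤ Y / 16 := by
  have hG1 : 1 ≤ G := by
    refine le_trans ?_ (hb0.trans hbG)
    norm_num
  have hG0 : 0 < G := by linarith
  have hlogG : 0 ≤ Real.log G := Real.log_nonneg hG1
  have hl1 : 1 ≤ l := by linarith
  have hYG : 10 ^ 24 * G ≤ Y := by
    refine le_trans ?_ hY1
    exact le_mul_of_one_le_right (by positivity) hl1
  have hGY : G ≤ Y := by
    refine le_trans ?_ hYG
    nlinarith
  have hYb0 : b0 ≤ Y := hbG.trans hGY
  have hYpos : 0 < Y := by linarith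
  have h2Y : 2 ≤ Y := by
    refine le_trans ?_ (hb0.trans hYb0)
    norm_num
  have hlY : l ≤ Real.log Y := by
    have h1 : Real.exp 1 * G ≤ Y := by
      refine le_trans ?_ hYG
      apply mul_le_mul_of_nonneg_right _ hG0.le
      have := Real.exp_one_lt_d9
      refine this.le.trans ?_
      norm_num
    have h2 := Real.log_le_log (by positivity) h1
    rw [Real.log_mul (Real.exp_pos 1).ne' hG0.ne', Real.log_exp] at h2
    linarith
  have hlogY : Real.log Y ≤ 60 * l := by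
    have h1 : Y ≤ 10 ^ 25 * G ^ 2 := by
      have h2 : l ≤ G := by
        have := Real.log_le_sub_one_of_pos hG0
        linarith
      have h3 : (10:ℝ) ^ 24 * G * l ≤ 10 ^ 24 * G * G := mul_le_mul_of_nonneg_left h2 (by positivity)
      have h4 : (1:ℝ) ≤ G ^ 2 := one_le_pow₀ hG1
      have h5 : (1:ℝ) ≤ 10 ^ 24 * G ^ 2 := by nlinarith
      have e : (10:ℝ) ^ 25 * G ^ 2 = 10 * (10 ^ 24 * G ^ 2) := by ring
      have e2 : (10:ℝ) ^ 24 * G * G = 10 ^ 24 * G ^ 2 := by ring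
      rw [e]
      rw [e2] at h3
      linarith
    have h2 := Real.log_le_log hYpos h1
    rw [Real.log_mul (by positivity) (by positivity), Real.log_pow, Real.log_pow] at h2
    have h3 : Real.log 10 ≤ 2.4 := by
      have h4 : Real.log 10 ≤ Real.log (2 ^ 3 * 1.25) := by
        apply Real.log_le_log <;> norm_num
      rw [Real.log_mul (by norm_num) (by norm_num), Real.log_pow] at h4
      have h5 := Real.log_two_lt_d9
      have h6 : Real.log 1.25 ≤ 1.25 - 1 := Real.log_le_sub_one_of_pos (by norm_num)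
      push_cast at h4
      linarith
    push_cast at h2
    rw [hl]
    linarith
  refine ⟨hl1, hYb0, h2Y, hlY, hlogY, ?_, ?_⟩
  · refine hlogY.trans ?_
    rw [hR]
    have : l ≤ b * l := by nlinarith
    nlinarith
  · calc 2 * G * Real.log Y ≤ 2 * G * (60 * l) := mul_le_mul_of_nonneg_left hlogY (by positivity)
      _ = (1920 * (G * l)) / 16 := by ring
      _ ≤ Y / 16 := by
        apply div_le_div_of_nonneg_right _ (by norm_num)
        refine le_trans ?_ hY1
        rw [mul_assoc]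
        apply mul_le_mul_of_nonneg_right _ (by positivity)
        norm_num

end Pool.Agent.Y947.DL
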