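import Mathlib
import Pool.Agent.H388SL.DobC
import Pool.Agent.Y947.DL.NTB
import Pool.Agent.Y947.DL.Ener
import Pool.Agent.Y947.DL.Real

/-!
# Optimisation
-/

set_option autoImplicit false

open Finset Polynomial Module Pool.Agent.H388SL

namespace Pool.Agent.Y947.DL

lemma pi_le_nat {Y : ℕ} (hY : 2 ≤ Y) : (Nat.primeCounting Y : ℝ) * Real.log Y ≤ 4 * Y := by
  have hY2 : (2:ℝ) ≤ Y := by exact_mod_cast hY
  have h1 := Chebyshev.pi_le_log4_mul_div (x := (Y:ℝ)) (by linarith)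
  rw [Nat.floor_natCast] at h1
  have hlog : 0 < Real.log Y := Real.log_pos (by linarith)
  have h2 : Real.log (Real.sqrt Y) = Real.log Y / 2 := Real.log_sqrt (by linarith)
  rw [h2] at h1
  have h3 : Real.log 4 ≤ 1.3863 := by
    have : (4:ℝ) = 2 ^ 2 := by norm_num
    rw [this, Real.log_pow]
    have := Real.log_two_lt_d9
    push_cast
    linarith
  have h4 : Real.sqrt Y * Real.log Y ≤ Y := by
    have hs : 0 < Real.sqrt Y := Real.sqrt_pos.mpr (by linarith)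
    have h5 : Real.log (Real.sqrt Y / 2) ≤ Real.sqrt Y / 2 - 1 :=
      Real.log_le_sub_one_of_pos (by positivity)
    rw [Real.log_div hs.ne' (by norm_num), h2] at h5
    have h6 := Real.log_two_lt_d9
    have h7 : Real.log Y ≤ Real.sqrt Y := by linarith
    calc Real.sqrt Y * Real.log Y ≤ Real.sqrt Y * Real.sqrt Y :=
          mul_le_mul_of_nonneg_left h7 hs.le
      _ = Y := Real.mul_self_sqrt (by linarith)
  have h8 : Real.log 4 * Y / (Real.log Y / 2) * Real.log Y = 2 * Real.log 4 * Y := by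
    field_simp
  calc (Nat.primeCounting Y : ℝ) * Real.log Y ≤
      (Real.log 4 * Y / (Real.log Y / 2) + Real.sqrt Y) * Real.log Y :=
        mul_le_mul_of_nonneg_right h1 hlog.le
    _ = 2 * Real.log 4 * Y + Real.sqrt Y * Real.log Y := by rw [add_mul, h8]
    _ ≤ 4 * Y := by nlinarith

/-- primes between `Y / 4` and `Y` -/
def blk (Y : ℕ) : Finset ℕ := (Finset.Ioc 0 Y).filter (fun p => p.Prime ∧ Y < 4 * p)

lemma mem_blk {Y p : ℕ} : p ∈ blk Y ↔ p.Prime ∧ Y < 4 * p ∧ p ≤ Y := by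
  unfold blk
  rw [Finset.mem_filter, Finset.mem_Ioc]
  constructor
  · rintro ⟨⟨_, h1⟩, h2, h3⟩
    exact ⟨h2, h3, h1⟩
  · rintro ⟨h1, h2, h3⟩
    exact ⟨⟨h1.pos, h3⟩, h1, h2⟩

lemma blk_sum {Y0 : ℕ} (hY : ∀ n : ℕ, Y0 ≤ n → 1 + 4 * Real.log (2 * n) ≤ Real.sqrt n / 8)
    (n : ℕ) (hn : Y0 ≤ n) (hn1 : 1 ≤ n) : (n : ℝ) / 8 ≤ ∑ p ∈ blk n, Real.log p := by
  have h1 := theta_half hY n hn hn1
  have h2 := Chebyshev.theta_le_log4_mul_x (x := (n:ℝ) / 4) (by positivity)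
  have h3 : Real.log 4 ≤ 1.3863 := by
    have : (4:ℝ) = 2 ^ 2 := by norm_num
    rw [this, Real.log_pow]
    have := Real.log_two_lt_d9
    push_cast
    linarith
  have h4 : Chebyshev.theta n ≤ Chebyshev.theta ((n:ℝ) / 4) + ∑ p ∈ blk n, Real.log p := by
    rw [Chebyshev.theta, Chebyshev.theta, Nat.floor_natCast]
    have h5 : (Finset.Ioc 0 n).filter Nat.Prime ⊆
        ((Finset.Ioc 0 ⌊(n:ℝ) / 4⌋₊).filter Nat.Prime) ∪ blk n := by
      intro p hp
      rw [Finset.mem_filter, Finset.mem_Ioc] at hp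
      rw [Finset.mem_union, mem_blk, Finset.mem_filter, Finset.mem_Ioc]
      by_cases h6 : n < 4 * p
      · right; exact ⟨hp.2, h6, hp.1.2⟩
      · left
        push Not at h6
        refine ⟨⟨hp.1.1, ?_⟩, hp.2⟩
        apply Nat.le_floor
        have h7 : (4:ℝ) * p ≤ n := by exact_mod_cast h6
        linarith
    have hnn : ∀ s : Finset ℕ, ∀ p ∈ s, p ∉ (Finset.Ioc 0 n).filter Nat.Prime → 0 ≤ Real.log (p:ℝ) :=
      fun s p _ _ => Real.log_natCast_nonneg p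
    calc ∑ p ∈ (Finset.Ioc 0 n).filter Nat.Prime, Real.log p ≤
        ∑ p ∈ ((Finset.Ioc 0 ⌊(n:ℝ) / 4⌋₊).filter Nat.Prime) ∪ blk n, Real.log p :=
          Finset.sum_le_sum_of_subset_of_nonneg h5 (fun p hp hp' => Real.log_natCast_nonneg p)
      _ ≤ _ := by
        rw [← Finset.sum_union_inter]
        have : 0 ≤ ∑ p ∈ ((Finset.Ioc 0 ⌊(n:ℝ) / 4⌋₊).filter Nat.Prime) ∩ blk n, Real.log p :=
          Finset.sum_nonneg fun p _ => Real.log_natCast_nonneg p
        linarith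
  have hn0 : (0:ℝ) ≤ n := Nat.cast_nonneg n
  have h5 : Real.log 4 * ((n:ℝ) / 4) ≤ 1.3863 * (n / 4) := mul_le_mul_of_nonneg_right h3 (by positivity)
  linarith

variable {K : Type*} [Field K] [NumberField K]

lemma delta_le {α : K} (h0 : α ≠ 0) (hunit : ∏ σ : K →ₐ[ℚ] ℂ, ‖σ α‖ = 1) :
    ∑ σ : K →ₐ[ℚ] ℂ, (1 - ‖H388SL.refl (σ α)‖) ≤ 2 * lam α := by
  have h1 : ∀ σ ∈ (Finset.univ : Finset (K →ₐ[ℚ] ℂ)), 1 - ‖H388SL.refl (σ α)‖ ≤
      2 * Real.log (max 1 ‖σ α‖) - Real.log ‖σ α‖ := by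
    intro σ _
    have hz : 0 < ‖σ α‖ := norm_pos_iff.mpr ((map_ne_zero σ).mpr h0)
    unfold H388SL.refl
    by_cases h : ‖σ α‖ ≤ 1
    · rw [if_pos h, max_eq_left h, Real.log_one]
      have := Real.log_le_sub_one_of_pos hz
      linarith
    · rw [if_neg h]
      push Not at h
      rw [max_eq_right h.le, norm_inv, RCLike.norm_conj]
      have := Real.one_sub_inv_le_log_of_pos hz
      linarith
  have h2 := Finset.sum_le_sum h1
  have h2' : ∑ σ : K →ₐ[ℚ] ℂ, (2 * Real.log (max 1 ‖σ α‖) - Real.log ‖σ α‖) =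
      2 * lam α - ∑ σ : K →ₐ[ℚ] ℂ, Real.log ‖σ α‖ := by
    rw [Finset.sum_sub_distrib, ← Finset.mul_sum]
    rfl
  rw [h2'] at h2
  have h3 : ∑ σ : K →ₐ[ℚ] ℂ, Real.log ‖σ α‖ = 0 := by
    rw [← Real.log_prod, hunit, Real.log_one]
    intro σ _
    exact norm_ne_zero_iff.mpr ((map_ne_zero σ).mpr h0)
  rw [h3, sub_zero] at h2
  exact h2

/-- radii over a number field -/
lemma exists_radii {α : K} (h0 : α ≠ 0) (hunit : ∏ σ : K →ₐ[ℚ] ℂ, ‖σ α‖ = 1) (hlam : lam α ≤ 1)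
    {b G L : ℝ} (hL : 1 + L ≤ b) (hG : b ^ 2 ≤ G) (hstd : Std L (fun σ : K →ₐ[ℚ] ℂ => H388SL.refl (σ α)))
    (hLn : L ≤ 3 * finrank ℚ K) :
    ∃ ε : (K →ₐ[ℚ] ℂ) → ℝ, (∀ σ, 0 < ε σ ∧ ε σ ≤ 1 / 2) ∧ ∑ σ, ε σ ≤ 63000000 * b / G ^ 3 ∧
      EE α ε 1 1 ≤ finrank ℚ K * (10 ^ 10 * b * (1 + Real.log G)) := by
  set d := finrank ℚ K with hd
  have hd0 : 0 < d := finrank_pos
  have hcard : Fintype.card (K →ₐ[ℚ] ℂ) = d := AlgHom.card ℚ K ℂ
  have hL0 : 0 < L := by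
    have := hstd.hpos 0 (by simp)
    rwa [HH_zero] at this
  have hb1 : 1 ≤ b := by linarith
  have hG1 : 1 ≤ G := by nlinarith
  have hG0 : 0 < G := by linarith
  have hδ := delta_le h0 hunit
  set W := 1 + L + ∑ σ : K →ₐ[ℚ] ℂ, (1 - ‖H388SL.refl (σ α)‖) with hW
  have hW3 : W ≤ 3 * b := by linarith
  have hW0 : 0 < W := by
    have : 0 ≤ ∑ σ : K →ₐ[ℚ] ℂ, (1 - ‖H388SL.refl (σ α)‖) :=
      Finset.sum_nonneg fun σ _ => by linarith [norm_refl_le (σ α)]
    linarith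
  set κ := 1 / G ^ 3 with hκ
  have hκ0 : 0 < κ := by positivity
  have hκ1 : κ ≤ 1 := by
    rw [hκ, div_le_one (by positivity)]; exact one_le_pow₀ hG1
  obtain ⟨ε, hε, hη, hS⟩ := contract hstd (by rw [hcard]; exact hd0) (by rw [hcard]; exact hLn) hκ0 hκ1
  rw [hcard] at hS
  rw [← hW] at hη hS
  have hlogG : 0 ≤ Real.log G := Real.log_nonneg hG1
  have hlogκ : Real.log (1 / κ) = 3 * Real.log G := by
    rw [hκ, one_div_one_div, Real.log_pow]; norm_num
  refine ⟨ε, hε, ?_, ?_⟩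
  · refine hη.trans ?_
    rw [hκ, div_mul_eq_mul_div, one_mul]
    apply div_le_div_of_nonneg_right _ (by positivity)
    linarith
  · have e1 : EE α ε 1 1 = ∑ i : K →ₐ[ℚ] ℂ, ∑ j : K →ₐ[ℚ] ℂ,
        -Real.log ‖1 - (((1 - ε i) * (1 - ε j) : ℝ) : ℂ) *
          (H388SL.refl (i α) * starRingEnd ℂ (H388SL.refl (j α)))‖ := by
      unfold EE
      refine Finset.sum_congr rfl fun σ _ => Finset.sum_congr rfl fun τ _ => ?_
      rw [ww_mul α ε σ τ one_ne_zero one_ne_zero, pow_one, pow_one, pow_one]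
    rw [e1]
    refine hS.trans ?_
    apply mul_le_mul_of_nonneg_left _ (Nat.cast_nonneg _)
    rw [hlogκ]
    calc 630000000 * W * (1 + 3 * Real.log G) ≤ 630000000 * (3 * b) * (3 * (1 + Real.log G)) := by
          apply mul_le_mul (by linarith) (by linarith) (by positivity) (by positivity)
      _ = 5670000000 * (b * (1 + Real.log G)) := by ring
      _ ≤ 10 ^ 10 * b * (1 + Real.log G) := by
        rw [mul_assoc ((10:ℝ) ^ 10)]
        apply mul_le_mul_of_nonneg_right _ (by positivity)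
        norm_num

/-- the bound over a number field -/
theorem field_main : ∃ c : ℝ, 0 < c ∧ ∀ (K : Type) [Field K] [NumberField K] (α : K), IsIntegral ℤ α →
    α ≠ 0 → (∀ n : ℕ, 0 < n → α ^ n ≠ 1) → CInj α → (∏ σ : K →ₐ[ℚ] ℂ, ‖σ α‖ = 1) →
    ∀ B G L : ℝ, 1 + L ≤ B → B ^ 2 ≤ G → Std L (fun σ : K →ₐ[ℚ] ℂ => H388SL.refl (σ α)) →
    L ≤ 3 * finrank ℚ K →
    (∀ Y : ℕ, ∀ S : Finset ℕ, S ⊆ blk Y → (∀ p ∈ S, ¬ CInj (α ^ p)) → (S.card : ℝ) ≤ 2 * G) →
    c / (B * G) ≤ lam α := by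
  obtain ⟨Y0, hY01, hY0⟩ := exists_Y0
  set b0 : ℝ := max (10 ^ 48) Y0 with hb0
  have hb48 : (10:ℝ) ^ 48 ≤ b0 := le_max_left _ _
  have hbY0 : (Y0:ℝ) ≤ b0 := le_max_right _ _
  have hb0pos : 0 < b0 := by linarith [show (0:ℝ) < 10 ^ 48 by positivity]
  refine ⟨10 ^ (-41 : ℤ) / b0, by positivity, ?_⟩
  intro K _ _ α hα h0 hroot hc hunit B G L hBL hBG hstd hLn hbad
  classical
  have hL0 : 0 < L := by
    have := hstd.hpos 0 (by simp)
    rwa [HH_zero] at this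
  have hB1 : 1 ≤ B := by linarith
  have hG1 : 1 ≤ G := by nlinarith
  have hlam0 := lam_nonneg α
  set G' := b0 * G with hG'
  have hb01 : 1 ≤ b0 := by
    refine le_trans ?_ hb48
    norm_num
  have hGG' : G ≤ G' := by rw [hG']; nlinarith
  have hb0G' : b0 ≤ G' := by rw [hG']; nlinarith
  have hBG' : B ^ 2 ≤ G' := hBG.trans hGG'
  have hG'1 : 1 ≤ G' := by linarith
  have hG'0 : 0 < G' := by linarith
  have hgoal : 10 ^ (-41 : ℤ) / b0 / (B * G) = 10 ^ (-41 : ℤ) / (B * G') := by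
    rw [hG', div_div]
    congr 1
    ring
  rw [hgoal]
  by_cases hbig : 1 ≤ lam α
  · refine le_trans ?_ hbig
    rw [div_le_one (by positivity)]
    have h1 : (1:ℝ) ≤ B * G' := by nlinarith
    refine le_trans ?_ h1
    norm_num
  push Not at hbig
  obtain ⟨ε, hε, hη, hEE⟩ := exists_radii h0 hunit hbig.le hBL hBG' hstd hLn
  set l := 1 + Real.log G' with hl
  set R := 10 ^ 10 * B * l with hR
  have hη0 : 0 ≤ ∑ σ, ε σ := Finset.sum_nonneg fun σ _ => (hε σ).1.le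
  have hlpos : 0 < l := by
    have := Real.log_nonneg hG'1
    linarith
  -- choice of Y
  set Y : ℕ := ⌈10 ^ 24 * G' * l⌉₊ with hYdef
  have hYge : 10 ^ 24 * G' * l ≤ Y := Nat.le_ceil _
  have hYle : (Y:ℝ) ≤ 10 ^ 24 * G' * l + 1 := (Nat.ceil_lt_add_one (by positivity)).le
  obtain ⟨hl1, hYb0, hY2', hlY, hlogY, hlR, hbadY⟩ := Y_facts hB1 hb48 hb0G' hl hR hYge hYle
  have hY2 : 2 ≤ Y := by exact_mod_cast hY2'
  have hY1' : (1:ℝ) ≤ Y := by linarith
  have hY0Y : Y0 ≤ Y := by exact_mod_cast hbY0.trans hYb0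
  have hY1 : 1 ≤ Y := by omega
  -- the sets of primes
  set P := (blk Y).filter (fun p => CInj (α ^ p)) with hP
  set Bd := (blk Y).filter (fun p => ¬ CInj (α ^ p)) with hBd
  have hsplit : ∑ p ∈ blk Y, Real.log p = ∑ p ∈ P, Real.log p + ∑ p ∈ Bd, Real.log p :=
    (Finset.sum_filter_add_sum_filter_not (blk Y) _ _).symm
  have hlogY0 : 0 ≤ Real.log Y := Real.log_nonneg hY1'
  have hlogp : ∀ p ∈ blk Y, Real.log p ≤ Real.log Y := by
    intro p hp
    have h1 := mem_blk.mp hp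
    apply Real.log_le_log
    · exact_mod_cast h1.1.pos
    · exact_mod_cast h1.2.2
  have hBs : ∑ p ∈ Bd, Real.log p ≤ Y / 16 := by
    have h1 : ∑ p ∈ Bd, Real.log p ≤ Bd.card * Real.log Y := by
      rw [← nsmul_eq_mul]
      apply Finset.sum_le_card_nsmul
      intro p hp
      exact hlogp p (Finset.mem_filter.mp hp).1
    have h2 := hbad Y Bd (Finset.filter_subset _ _) (fun p hp => (Finset.mem_filter.mp hp).2)
    calc ∑ p ∈ Bd, Real.log p ≤ Bd.card * Real.log Y := h1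
      _ ≤ (2 * G') * Real.log Y := mul_le_mul_of_nonneg_right (by linarith) hlogY0
      _ ≤ Y / 16 := hbadY
  have hθ : (Y:ℝ) / 16 ≤ ∑ p ∈ P, Real.log p := by
    have h1 := blk_sum hY0 Y hY0Y hY1
    rw [hsplit] at h1
    linarith
  have hPcard : (P.card : ℝ) ≤ Nat.primeCounting Y := by
    have h1 : P.card ≤ Nat.primeCounting Y := by
      have h2 : P.card ≤ (blk Y).card := Finset.card_le_card (Finset.filter_subset _ _)
      refine h2.trans ?_
      rw [Nat.primeCounting, Nat.primeCounting', Nat.count_eq_card_filter_range]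
      apply Finset.card_le_card
      intro p hp
      have h3 := mem_blk.mp hp
      rw [Finset.mem_filter, Finset.mem_range]
      exact ⟨by omega, h3.1⟩
    exact_mod_cast h1
  have hqY : (P.card : ℝ) * Real.log Y ≤ 4 * Y :=
    (mul_le_mul_of_nonneg_right hPcard hlogY0).trans (pi_le_nat hY2)
  have hθq : ∑ p ∈ P, Real.log p ≤ P.card * Real.log Y := by
    rw [← nsmul_eq_mul]
    apply Finset.sum_le_card_nsmul
    intro p hp
    exact hlogp p (Finset.mem_filter.mp hp).1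
  have hPpos : (0:ℝ) < P.card := by
    by_contra hc
    push Not at hc
    have h1 : (P.card : ℝ) * Real.log Y ≤ 0 := mul_nonpos_of_nonpos_of_nonneg hc hlogY0
    have : (0:ℝ) < Y / 16 := by linarith
    linarith
  have hs : ∑ p ∈ P, (p : ℝ) ≤ P.card * Y := by
    rw [← nsmul_eq_mul]
    apply Finset.sum_le_card_nsmul
    intro p hp
    exact_mod_cast (mem_blk.mp (Finset.mem_filter.mp hp).1).2.2
  have hs0 : 0 ≤ ∑ p ∈ P, (p : ℝ) := Finset.sum_nonneg fun _ _ => Nat.cast_nonneg _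
  have hRpos : 0 < R := by rw [hR]; positivity
  have hθ0 : 0 ≤ ∑ p ∈ P, Real.log p := by linarith
  have hmain := main_ineq hα h0 hroot hc P (fun p hp => (mem_blk.mp (Finset.mem_filter.mp hp).1).1)
    (fun p hp => (Finset.mem_filter.mp hp).2)
    (T := (∑ p ∈ P, Real.log p) / (2 * R)) (by positivity) hε hEE
  have hfin := final_real hB1 hBG' hl1 hR hYge hYle hlY hlR hθ hPpos hqY hθq hs hs0 rfl
    (by linarith : 0 ≤ lam α + ∑ σ, ε σ) hmain
  -- remove the sum of the ε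
  have h1 : 63000000 * B / G' ^ 3 ≤ (9 / 10) * (10 ^ (-40 : ℤ) / (B * G')) := by
    rw [← mul_div_assoc, div_le_div_iff₀ (by positivity) (by positivity)]
    have h2 : 63000000 * B * (B * G') ≤ 63000000 * (G' * G') := by
      have e : 63000000 * B * (B * G') = 63000000 * (B ^ 2 * G') := by ring
      rw [e]
      apply mul_le_mul_of_nonneg_left _ (by norm_num)
      exact mul_le_mul_of_nonneg_right hBG' hG'0.le
    refine h2.trans ?_
    have e2 : (9 / 10 * 10 ^ (-40 : ℤ) * G' ^ 3 : ℝ) = (9 / 10 * 10 ^ (-40 : ℤ) * G') * (G' * G') := by ring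
    rw [e2]
    apply mul_le_mul_of_nonneg_right _ (by positivity)
    have h3 : (9 / 10 * 10 ^ (-40 : ℤ) : ℝ) * 10 ^ 48 ≤ 9 / 10 * 10 ^ (-40 : ℤ) * G' :=
      mul_le_mul_of_nonneg_left (hb48.trans hb0G') (by positivity)
    refine le_trans ?_ h3
    norm_num
  have e3 : (10 ^ (-41 : ℤ) / (B * G') : ℝ) = (1 / 10) * (10 ^ (-40 : ℤ) / (B * G')) := by
    rw [← mul_div_assoc]
    congr 1
    norm_num
  rw [e3]
  linarith

end Pool.Agent.Y947.DL
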