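import Mathlib
import Pool.Agent.H388SL.Fin
import Pool.Agent.Y947.DL.Opt

/-!
# From number fields to polynomials
-/

set_option autoImplicit false

open Finset Polynomial Module IntermediateField Pool.Agent.H388SL

namespace Pool.Agent.Y947.DL

/-! ### Mahler measure of `f(X^p)` -/

lemma X_pow_sub_C_eq {p : ℕ} (hp : 0 < p) (c : ℂ) :
    (X : ℂ[X]) ^ p - C (c ^ p) = ∏ ζ ∈ nthRootsFinset p (1:ℂ), (X - C (ζ * c)) := by
  have hprim := Complex.isPrimitiveRoot_exp p hp.ne'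
  apply Polynomial.funext
  intro x
  rw [eval_prod]
  simp only [eval_sub, eval_X, eval_C, eval_pow]
  exact hprim.pow_sub_pow_eq_prod_sub_mul x c hp

lemma mahler_X_pow_sub_C {p : ℕ} (hp : 0 < p) (a : ℂ) :
    ((X : ℂ[X]) ^ p - C a).mahlerMeasure = (X - C a).mahlerMeasure := by
  obtain ⟨c, hc⟩ := IsAlgClosed.exists_pow_nat_eq a hp
  rw [mahlerMeasure_X_sub_C, ← hc, X_pow_sub_C_eq hp, Finset.prod_eq_multiset_prod,
    prod_mahlerMeasure_eq_mahlerMeasure_prod, Multiset.map_map]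
  have h1 : (Multiset.map (mahlerMeasure ∘ fun ζ => X - C (ζ * c)) (nthRootsFinset p (1:ℂ)).val).prod
      = ∏ ζ ∈ nthRootsFinset p (1:ℂ), max 1 ‖c‖ := by
    rw [Finset.prod_eq_multiset_prod]
    congr 1
    refine Multiset.map_congr rfl fun ζ hζ => ?_
    rw [Function.comp_apply, mahlerMeasure_X_sub_C, norm_mul, norm_of_mem_grid hp hζ, one_mul]
  rw [h1, Finset.prod_const, card_grid hp, norm_pow]
  rcases le_total ‖c‖ 1 with h | h
  · rw [max_eq_left h, max_eq_left (pow_le_one₀ (norm_nonneg _) h), one_pow]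
  · rw [max_eq_right h, max_eq_right (one_le_pow₀ h)]

lemma mahler_expand {p : ℕ} (hp : 0 < p) (G : ℂ[X]) :
    (expand ℂ p G).mahlerMeasure = G.mahlerMeasure := by
  have h1 := (IsAlgClosed.splits G).eq_prod_roots
  rw [h1, map_mul, expand_C, mahlerMeasure_mul, mahlerMeasure_mul, map_multiset_prod,
    prod_mahlerMeasure_eq_mahlerMeasure_prod, prod_mahlerMeasure_eq_mahlerMeasure_prod,
    Multiset.map_map, Multiset.map_map, Multiset.map_map]
  congr 2
  refine Multiset.map_congr rfl fun a _ => ?_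
  simp only [Function.comp_apply, map_sub, expand_X, expand_C]
  exact mahler_X_pow_sub_C hp a

lemma MM_expand {p : ℕ} (hp : 0 < p) (g : ℤ[X]) : MM (expand ℤ p g) = MM g := by
  rw [MM, MM, Polynomial.map_expand, mahler_expand hp]

/-! ### Maximum modulus -/

lemma prod_le_of_sup {ι : Type*} [Fintype ι] (b : ι → ℂ) {A : ℝ}
    (hA : ∀ x : ℂ, ‖x‖ = 1 → ∏ j, ‖1 - x * starRingEnd ℂ (b j)‖ ≤ A) {x : ℂ} (hx : ‖x‖ ≤ 1) :
    ∏ j, ‖1 - x * starRingEnd ℂ (b j)‖ ≤ A := by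
  have hd : Differentiable ℂ (fun x : ℂ => ∏ j, (1 - x * starRingEnd ℂ (b j))) := by fun_prop
  have h1 := Complex.norm_le_of_forall_mem_frontier_norm_le (U := Metric.ball (0:ℂ) 1)
    Metric.isBounded_ball (hd.diffContOnCl) (C := A) (by
      intro z hz
      rw [frontier_ball (0:ℂ) one_ne_zero, mem_sphere_zero_iff_norm] at hz
      rw [norm_prod]
      exact hA z hz) (z := x) (by
      rw [closure_ball (0:ℂ) one_ne_zero, mem_closedBall_zero_iff]; exact hx)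
  rwa [norm_prod] at h1

lemma unit_factor {x : ℂ} (hx : ‖x‖ = 1) (z : ℂ) :
    ‖1 - x * starRingEnd ℂ (H388SL.refl z)‖ * max 1 ‖z‖ = ‖x - z‖ := by
  unfold H388SL.refl
  by_cases h : ‖z‖ ≤ 1
  · rw [if_pos h, max_eq_left h, mul_one]
    have h1 : x * starRingEnd ℂ x = 1 := by
      rw [Complex.mul_conj, Complex.normSq_eq_norm_sq, hx]; norm_num
    have h2 : 1 - x * starRingEnd ℂ z = x * starRingEnd ℂ (x - z) := by
      rw [map_sub, mul_sub, h1]
    rw [h2, norm_mul, hx, one_mul, RCLike.norm_conj]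
  · rw [if_neg h]
    push Not at h
    rw [max_eq_right h.le, map_inv₀, Complex.conj_conj, ← norm_mul, norm_sub_rev x z]
    congr 1
    have hz : z ≠ 0 := by
      rintro rfl; simp at h; linarith
    field_simp

/-! ### Representation of a polynomial by a number field -/

/-- `α` generates `K` and has minimal polynomial `p` -/
structure Rep (p : ℤ[X]) (K : Type) [Field K] [NumberField K] (α : K) : Prop where
  isInt : IsIntegral ℤ α
  minp : minpoly ℤ α = p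
  inj : CInj α
  fin : finrank ℚ K = p.natDegree

lemma exists_rep {E : Type} [Field E] [CharZero E] (p : ℤ[X]) (hp : Irreducible p) (hm : p.Monic)
    (z : E) (hz : aeval z p = 0) :
    ∃ _ : NumberField (adjoin ℚ {z}), Rep p (adjoin ℚ {z}) (AdjoinSimple.gen ℚ z) := by
  have hzi : IsIntegral ℤ z := ⟨p, hm, by rw [← Polynomial.aeval_def]; exact hz⟩
  have hzQ : IsIntegral ℚ z := hzi.tower_top
  have hmin : minpoly ℤ z = p := by
    have h1 := minpoly.isIntegrallyClosed_dvd hzi hz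
    have h2 : Associated (minpoly ℤ z) p :=
      (minpoly.irreducible hzi).associated_of_dvd hp h1
    exact eq_of_monic_of_associated (minpoly.monic hzi) hm h2
  have hfin : FiniteDimensional ℚ (adjoin ℚ {z}) := adjoin.finiteDimensional hzQ
  have hNF : NumberField (adjoin ℚ {z}) := { to_charZero := inferInstance, to_finiteDimensional := hfin }
  refine ⟨hNF, ?_⟩
  have hαz : algebraMap (adjoin ℚ {z}) E (AdjoinSimple.gen ℚ z) = z := AdjoinSimple.algebraMap_gen ℚ z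
  have hαi : IsIntegral ℤ (AdjoinSimple.gen ℚ z) := by
    have h := hzi
    rw [← hαz] at h
    exact (isIntegral_algebraMap_iff (algebraMap (adjoin ℚ {z}) E).injective).mp h
  refine ⟨hαi, ?_, ?_, ?_⟩
  · rw [← hmin]
    have h := (minpoly.algebraMap_eq (A := ℤ) (algebraMap (adjoin ℚ {z}) E).injective
      (AdjoinSimple.gen ℚ z)).symm
    rw [hαz] at h
    exact h
  · intro σ τ h
    apply adjoin_algHom_ext ℚ (s := {z})
    intro x hx
    rw [Set.mem_singleton_iff] at hx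
    subst hx
    exact h
  · rw [adjoin.finrank hzQ, minpoly.isIntegrallyClosed_eq_field_fractions' ℚ hzi, hmin]
    exact natDegree_map_eq_of_injective (algebraMap ℤ ℚ).injective_int p

section Rep

variable {p : ℤ[X]} {K : Type} [Field K] [NumberField K] {α : K}

lemma Rep.map_eq (h : Rep p K α) : p.map (Int.castRingHom ℂ) = ∏ τ : K →ₐ[ℚ] ℂ, (X - C (τ α)) := by
  rw [← minpoly_map_eq h.inj, minpoly.isIntegrallyClosed_eq_field_fractions' ℚ h.isInt, h.minp,
    Polynomial.map_map]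
  rfl

lemma Rep.aeval_eq (h : Rep p K α) (x : ℂ) : aeval x p = ∏ τ : K →ₐ[ℚ] ℂ, (x - τ α) := by
  rw [← aeval_minpolyZ_eq h.isInt h.inj, h.minp]

lemma Rep.log_MM (h : Rep p K α) : Real.log (MM p) = lam α := by
  rw [MM, h.map_eq]
  have h1 : (∏ τ : K →ₐ[ℚ] ℂ, (X - C (τ α))).mahlerMeasure = ∏ τ : K →ₐ[ℚ] ℂ, max 1 ‖τ α‖ := by
    rw [Finset.prod_eq_multiset_prod, prod_mahlerMeasure_eq_mahlerMeasure_prod, Multiset.map_map,
      Finset.prod_eq_multiset_prod]
    congr 1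
    refine Multiset.map_congr rfl fun τ _ => ?_
    rw [Function.comp_apply, mahlerMeasure_X_sub_C]
  rw [h1, Real.log_prod]
  · rfl
  · intro τ _
    have : (0:ℝ) < max 1 ‖τ α‖ := lt_of_lt_of_le one_pos (le_max_left _ _)
    exact this.ne'

lemma Rep.prod_norm (h : Rep p K α) (hc0 : |p.coeff 0| = 1) : ∏ σ : K →ₐ[ℚ] ℂ, ‖σ α‖ = 1 := by
  have h1 : ((p.coeff 0 : ℤ) : ℂ) = (p.map (Int.castRingHom ℂ)).eval 0 := by
    rw [← Polynomial.coeff_zero_eq_eval_zero, Polynomial.coeff_map]; rfl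
  have h2 : ‖((p.coeff 0 : ℤ) : ℂ)‖ = 1 := by
    rw [Complex.norm_intCast]
    exact_mod_cast hc0
  rw [h1, h.map_eq, Polynomial.eval_prod, norm_prod] at h2
  rw [← h2]
  refine Finset.prod_congr rfl fun σ _ => ?_
  simp

lemma Rep.ne_zero (h : Rep p K α) (hc0 : |p.coeff 0| = 1) : α ≠ 0 := by
  rintro h0
  have h1 := h.prod_norm hc0
  obtain ⟨σ⟩ : Nonempty (K →ₐ[ℚ] ℂ) := ⟨IsAlgClosed.lift⟩
  rw [Finset.prod_eq_zero (Finset.mem_univ σ)] at h1
  · norm_num at h1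
  · rw [h0, map_zero, norm_zero]

lemma Rep.not_root (h : Rep p K α) (hM : 1 < MM p) (n : ℕ) (hn : 0 < n) : α ^ n ≠ 1 := by
  intro hroot
  have h1 : lam α = 0 := by
    unfold lam
    apply Finset.sum_eq_zero
    intro σ _
    have h2 : (σ α) ^ n = 1 := by rw [← map_pow, hroot, map_one]
    rw [Complex.norm_eq_one_of_pow_eq_one h2 hn.ne', max_self, Real.log_one]
  rw [← h.log_MM] at h1
  have := Real.log_pos hM
  linarith

lemma Rep.std (h : Rep p K α) {B : ℝ}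
    (hB : ∀ z : ℂ, ‖z‖ = 1 → ‖aeval z p‖ ≤ Real.exp B) :
    Std (min B (finrank ℚ K * Real.log 2) + 1) (fun σ : K →ₐ[ℚ] ℂ => H388SL.refl (σ α)) := by
  have hb : ∀ σ : K →ₐ[ℚ] ℂ, ‖H388SL.refl (σ α)‖ ≤ 1 := fun σ => norm_refl_le _
  refine ⟨hb, ?_⟩
  intro x hx
  have hne : ∀ σ : K →ₐ[ℚ] ℂ, ‖1 - x * starRingEnd ℂ (H388SL.refl (σ α))‖ ≠ 0 := fun σ =>
    norm_ne_zero_iff.mpr (one_sub_ne (norm_mul_conj_lt hx (hb σ)))
  have hprod : ∏ σ : K →ₐ[ℚ] ℂ, ‖1 - x * starRingEnd ℂ (H388SL.refl (σ α))‖ ≤ Real.exp B := by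
    apply prod_le_of_sup (fun σ : K →ₐ[ℚ] ℂ => H388SL.refl (σ α)) _ hx.le
    intro z hz
    refine le_trans ?_ (hB z hz)
    rw [h.aeval_eq, norm_prod]
    apply Finset.prod_le_prod
    · intro σ _; exact norm_nonneg _
    · intro σ _
      rw [← unit_factor hz (σ α)]
      exact le_mul_of_one_le_right (norm_nonneg _) (le_max_left _ _)
  have h1 : ∑ σ : K →ₐ[ℚ] ℂ, Real.log ‖1 - x * starRingEnd ℂ (H388SL.refl (σ α))‖ ≤ B := by
    rw [← Real.log_prod (fun σ _ => hne σ)]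
    have h2 := Real.log_le_log (Finset.prod_pos fun σ _ => lt_of_le_of_ne (norm_nonneg _) (hne σ).symm)
      hprod
    rwa [Real.log_exp] at h2
  have h2 : ∑ σ : K →ₐ[ℚ] ℂ, Real.log ‖1 - x * starRingEnd ℂ (H388SL.refl (σ α))‖ ≤
      finrank ℚ K * Real.log 2 := by
    have h3 : ∀ σ ∈ (Finset.univ : Finset (K →ₐ[ℚ] ℂ)),
        Real.log ‖1 - x * starRingEnd ℂ (H388SL.refl (σ α))‖ ≤ Real.log 2 := by
      intro σ _
      apply Real.log_le_log (lt_of_le_of_ne (norm_nonneg _) (hne σ).symm)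
      refine (norm_sub_le _ _).trans ?_
      have := norm_mul_conj_lt hx (hb σ)
      rw [norm_one]
      linarith
    have h4 := Finset.sum_le_sum h3
    rw [Finset.sum_const, Finset.card_univ, nsmul_eq_mul, AlgHom.card ℚ K ℂ] at h4
    exact h4
  unfold HH
  have h3 := le_min h1 h2
  linarith

end Rep

/-- the bound for a represented polynomial -/
lemma Rep.main {c : ℝ} (hc : ∀ (K : Type) [Field K] [NumberField K] (α : K), IsIntegral ℤ α →
    α ≠ 0 → (∀ n : ℕ, 0 < n → α ^ n ≠ 1) → CInj α → (∏ σ : K →ₐ[ℚ] ℂ, ‖σ α‖ = 1) →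
    ∀ B G L : ℝ, 1 + L ≤ B → B ^ 2 ≤ G → Std L (fun σ : K →ₐ[ℚ] ℂ => H388SL.refl (σ α)) →
    L ≤ 3 * finrank ℚ K →
    (∀ Y : ℕ, ∀ S : Finset ℕ, S ⊆ blk Y → (∀ p ∈ S, ¬ CInj (α ^ p)) → (S.card : ℝ) ≤ 2 * G) →
    c / (B * G) ≤ lam α)
    {p : ℤ[X]} {K : Type} [Field K] [NumberField K] {α : K} (h : Rep p K α)
    (hc0 : |p.coeff 0| = 1) (hM : 1 < MM p) {B G : ℝ} (hG : (2 + B) ^ 2 ≤ G)
    (hB : ∀ z : ℂ, ‖z‖ = 1 → ‖aeval z p‖ ≤ Real.exp B)
    (hbad : ∀ Y : ℕ, ∀ S : Finset ℕ, S ⊆ blk Y → (∀ q ∈ S, ¬ CInj (α ^ q)) → (S.card : ℝ) ≤ 2 * G) :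
    c / ((2 + B) * G) ≤ Real.log (MM p) := by
  have hn : 1 ≤ finrank ℚ K := finrank_pos
  have hn' : (1:ℝ) ≤ finrank ℚ K := by exact_mod_cast hn
  rw [h.log_MM]
  apply hc K α h.isInt (h.ne_zero hc0) (h.not_root hM) h.inj (h.prod_norm hc0) (2 + B) G
    (min B (finrank ℚ K * Real.log 2) + 1) _ hG (h.std hB) _ hbad
  · have := min_le_left B (finrank ℚ K * Real.log 2)
    linarith
  · have h1 := min_le_right B (finrank ℚ K * Real.log 2)
    have h2 := Real.log_two_lt_d9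
    nlinarith

end Pool.Agent.Y947.DL
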