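import Mathlib
import Pool.Agent.H388SL.DobC

/-!
# Elements whose prime powers generate smaller fields
-/

set_option autoImplicit false

open Finset Polynomial Module IntermediateField Pool.Agent.H388SL

namespace Pool.Agent.Y947.DL

variable {K : Type*} [Field K] [NumberField K]

lemma fin_tower (a γ : K) :
    finrank ℚ (adjoin ℚ {a, γ}) =
      finrank ℚ (adjoin ℚ {a}) * finrank (adjoin ℚ {a}) (adjoin (adjoin ℚ {a}) {γ}) := by
  rw [finrank_mul_finrank ℚ (adjoin ℚ {a}) (adjoin (adjoin ℚ {a}) {γ}),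
    ← adjoin_simple_adjoin_simple]
  rfl

lemma adjoin_pair (γ : K) (q : ℕ) : adjoin ℚ {γ ^ q, γ} = adjoin ℚ {γ} := by
  apply le_antisymm
  · rw [adjoin_le_iff]
    intro x hx
    rcases hx with rfl | hx
    · exact pow_mem (mem_adjoin_simple_self ℚ γ) q
    · rw [Set.mem_singleton_iff] at hx
      rw [hx]
      exact mem_adjoin_simple_self ℚ γ
  · rw [adjoin_le_iff, Set.singleton_subset_iff]
    exact subset_adjoin ℚ _ (by simp)

lemma deg_root_of_unity (F : IntermediateField ℚ K) {q : ℕ} (hq : q.Prime) {ζ : K}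
    (hζ : IsPrimitiveRoot ζ q) : finrank F (adjoin F {ζ}) ∣ q - 1 := by
  have hne : NeZero q := ⟨hq.ne_zero⟩
  have hcyc : IsCyclotomicExtension {q} F (adjoin F {ζ}) :=
    hζ.intermediateField_adjoin_isCyclotomicExtension (K := F)
  have hgal : IsGalois F (adjoin F {ζ}) := IsCyclotomicExtension.isGalois {q} F (adjoin F {ζ})
  have hζ' : IsPrimitiveRoot (AdjoinSimple.gen F ζ) q := by
    have h1 : algebraMap (adjoin F {ζ}) K (AdjoinSimple.gen F ζ) = ζ := AdjoinSimple.algebraMap_gen F ζ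
    apply IsPrimitiveRoot.of_map_of_injective (f := algebraMap (adjoin F {ζ}) K) _
      (algebraMap (adjoin F {ζ}) K).injective
    rw [h1]; exact hζ
  have h1 := Subgroup.card_dvd_of_injective _ (hζ'.autToPow_injective F)
  rw [IsGalois.card_aut_eq_finrank, Nat.card_eq_fintype_card, ZMod.card_units_eq_totient,
    Nat.totient_prime hq] at h1
  exact h1

/-- the degree of `ℚ(γ)` over `ℚ(γ ^ q)` divides `q (q - 1)` -/
lemma deg_step (γ : K) (hγ : γ ≠ 0) {q : ℕ} (hq : q.Prime) :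
    ∃ d, finrank ℚ (adjoin ℚ {γ}) = finrank ℚ (adjoin ℚ {γ ^ q}) * d ∧ d ∣ q * (q - 1) := by
  set F := adjoin ℚ {γ ^ q} with hF
  refine ⟨finrank F (adjoin F {γ}), ?_, ?_⟩
  · rw [← fin_tower (γ ^ q) γ, adjoin_pair]
  have haF : γ ^ q ∈ F := mem_adjoin_simple_self ℚ _
  obtain ⟨a, ha⟩ : ∃ a : F, (a : K) = γ ^ q := ⟨⟨γ ^ q, haF⟩, rfl⟩
  by_cases hpow : ∃ c : F, c ^ q = a
  · obtain ⟨c, hc⟩ := hpow
    have hc' : (c : K) ^ q = γ ^ q := by
      rw [← ha, ← hc]; rfl
    have hc0 : (c : K) ≠ 0 := by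
      intro h0
      rw [h0, zero_pow hq.ne_zero] at hc'
      exact pow_ne_zero q hγ hc'.symm
    set ζ : K := γ / (c : K) with hζ
    have hζ1 : ζ ^ q = 1 := by
      rw [hζ, div_pow, hc', div_self (pow_ne_zero q hγ)]
    have hγζ : γ = ζ * c := by rw [hζ]; field_simp
    have heq : adjoin F {γ} = adjoin F {ζ} := by
      have hcm : ∀ E : IntermediateField F K, (c : K) ∈ E := fun E => E.algebraMap_mem c
      apply le_antisymm
      · rw [adjoin_simple_le_iff, hγζ]
        exact mul_mem (mem_adjoin_simple_self F ζ) (hcm _)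
      · rw [adjoin_simple_le_iff, hζ]
        exact div_mem (mem_adjoin_simple_self F γ) (hcm _)
    rw [heq]
    by_cases hz : ζ = 1
    · rw [hz, adjoin_one, IntermediateField.finrank_bot]
      exact one_dvd _
    · have hprim : IsPrimitiveRoot ζ q := by
        have h2 : orderOf ζ ∣ q := orderOf_dvd_of_pow_eq_one hζ1
        rcases (Nat.dvd_prime hq).mp h2 with h3 | h3
        · exact absurd (orderOf_eq_one_iff.mp h3) hz
        · rw [← h3]; exact IsPrimitiveRoot.orderOf ζ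
      exact (deg_root_of_unity F hq hprim).mul_left q
  · push Not at hpow
    have hirr : Irreducible ((X : F[X]) ^ q - C a) := X_pow_sub_C_irreducible_of_prime hq hpow
    have hmon : ((X : F[X]) ^ q - C a).Monic := monic_X_pow_sub_C _ hq.ne_zero
    have hroot : aeval γ ((X : F[X]) ^ q - C a) = 0 := by
      rw [map_sub, map_pow, aeval_X, aeval_C, IntermediateField.algebraMap_apply, ha, sub_self]
    have hmin : (X : F[X]) ^ q - C a = minpoly F γ :=
      minpoly.eq_of_irreducible_of_monic hirr hroot hmon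
    have hγF : IsIntegral F γ := ⟨_, hmon, by rw [← Polynomial.aeval_def]; exact hroot⟩
    rw [adjoin.finrank hγF, ← hmin, natDegree_X_pow_sub_C]
    exact dvd_mul_right q _

/-- degrees over the field generated by a power -/
lemma deg_prod (γ : K) (hγ : γ ≠ 0) (p : ℕ) (hp : p.Prime) (T : Finset ℕ) (hT : ∀ q ∈ T, q.Prime)
    (hpq : ∀ q ∈ T, ¬ p ∣ q * (q - 1)) :
    ∃ d, finrank ℚ (adjoin ℚ {γ}) = finrank ℚ (adjoin ℚ {γ ^ (∏ q ∈ T, q)}) * d ∧ ¬ p ∣ d := by
  classical
  induction T using Finset.induction_on with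
  | empty =>
    refine ⟨1, ?_, hp.one_lt.ne' ∘ Nat.dvd_one.mp⟩
    rw [Finset.prod_empty, pow_one, mul_one]
  | insert q T hq ih =>
    obtain ⟨d, hd, hpd⟩ := ih (fun r hr => hT r (Finset.mem_insert_of_mem hr))
      (fun r hr => hpq r (Finset.mem_insert_of_mem hr))
    obtain ⟨e, he, hqe⟩ := deg_step (γ ^ (∏ r ∈ T, r)) (pow_ne_zero _ hγ)
      (hT q (Finset.mem_insert_self _ _))
    refine ⟨e * d, ?_, ?_⟩
    · rw [hd, he, Finset.prod_insert hq, ← pow_mul, mul_comm q, mul_assoc]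
    · intro h
      rcases hp.dvd_mul.mp h with h1 | h1
      · exact hpq q (Finset.mem_insert_self _ _) (h1.trans hqe)
      · exact hpd h1

/-- a `p`-th root in an extension of degree prime to `p` gives a `p`-th root below -/
lemma root_below (γ : K) {p : ℕ} (hp : p.Prime) {M d : ℕ}
    (hd : finrank ℚ (adjoin ℚ {γ}) = finrank ℚ (adjoin ℚ {γ ^ M}) * d) (hpd : ¬ p ∣ d)
    {x a : K} (hx : x ∈ adjoin ℚ {γ}) (ha : a ∈ adjoin ℚ {γ ^ M}) (hxa : x ^ p = a) :
    ∃ b ∈ adjoin ℚ {γ ^ M}, b ^ p = a := by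
  by_contra hcon
  push Not at hcon
  set F := adjoin ℚ {γ ^ M} with hF
  have hpow : ∀ b : F, b ^ p ≠ ⟨a, ha⟩ := by
    intro b hb
    apply hcon b b.2
    have := congrArg (fun t : F => (t : K)) hb
    simpa using this
  obtain ⟨a', ha'⟩ : ∃ a' : F, (a' : K) = a := ⟨⟨a, ha⟩, rfl⟩
  have hpow' : ∀ b : F, b ^ p ≠ a' := by
    intro b hb
    apply hcon b b.2
    rw [← ha', ← hb]; rfl
  have hirr : Irreducible ((X : F[X]) ^ p - C a') := X_pow_sub_C_irreducible_of_prime hp hpow'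
  have hmon : ((X : F[X]) ^ p - C a').Monic := monic_X_pow_sub_C _ hp.ne_zero
  have hroot : aeval x ((X : F[X]) ^ p - C a') = 0 := by
    rw [map_sub, map_pow, aeval_X, aeval_C, IntermediateField.algebraMap_apply, ha', hxa, sub_self]
  have hmin : (X : F[X]) ^ p - C a' = minpoly F x :=
    minpoly.eq_of_irreducible_of_monic hirr hroot hmon
  have hxF : IsIntegral F x := ⟨_, hmon, by rw [← Polynomial.aeval_def]; exact hroot⟩
  have h1 : finrank F (adjoin F {x}) = p := by
    rw [adjoin.finrank hxF, ← hmin, natDegree_X_pow_sub_C]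
  have h2 := fin_tower (γ ^ M) x
  rw [← hF, h1] at h2
  have h3 : adjoin ℚ {γ ^ M, x} ≤ adjoin ℚ {γ} := by
    rw [adjoin_le_iff]
    intro y hy
    rcases hy with rfl | hy
    · exact pow_mem (mem_adjoin_simple_self ℚ γ) M
    · rw [Set.mem_singleton_iff] at hy
      rw [hy]; exact hx
  have h4 := IntermediateField.finrank_dvd_of_le_right h3
  rw [h2, hd] at h4
  have hF0 : 0 < finrank ℚ F := finrank_pos
  exact hpd (Nat.dvd_of_mul_dvd_mul_left hF0 h4)

/-- combining roots of coprime orders -/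
lemma exists_prod_root (F : IntermediateField ℚ K) {a : K} (ha0 : a ≠ 0) (haF : a ∈ F) (S : Finset ℕ)
    (hS : ∀ p ∈ S, p.Prime) (h : ∀ p ∈ S, ∃ b ∈ F, b ^ p = a) : ∃ b ∈ F, b ^ (∏ p ∈ S, p) = a := by
  classical
  induction S using Finset.induction_on with
  | empty => exact ⟨a, haF, by simp⟩
  | insert p S hp ih =>
    obtain ⟨b, hbF, hb⟩ := ih (fun r hr => hS r (Finset.mem_insert_of_mem hr))
      (fun r hr => h r (Finset.mem_insert_of_mem hr))
    obtain ⟨x, hxF, hx⟩ := h p (Finset.mem_insert_self _ _)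
    set r := ∏ q ∈ S, q with hr
    have hcop : Nat.Coprime p r := by
      rw [hr]
      apply Nat.Coprime.prod_right
      intro q hq
      rw [Nat.coprime_primes (hS p (Finset.mem_insert_self _ _)) (hS q (Finset.mem_insert_of_mem hq))]
      rintro rfl
      exact hp hq
    have hgcd := Nat.gcd_eq_gcd_ab p r
    rw [hcop] at hgcd
    refine ⟨b ^ (Nat.gcdA p r) * x ^ (Nat.gcdB p r), mul_mem (zpow_mem hbF _) (zpow_mem hxF _), ?_⟩
    rw [Finset.prod_insert hp, ← hr, mul_pow]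
    have e1 : (b ^ (Nat.gcdA p r)) ^ (p * r) = a ^ ((p : ℤ) * Nat.gcdA p r) := by
      rw [← hb, ← zpow_natCast, ← zpow_natCast, ← zpow_mul, ← zpow_mul]
      congr 1
      push_cast
      ring
    have e2 : (x ^ (Nat.gcdB p r)) ^ (p * r) = a ^ ((r : ℤ) * Nat.gcdB p r) := by
      rw [← hx, ← zpow_natCast, ← zpow_natCast, ← zpow_mul, ← zpow_mul]
      congr 1
      push_cast
      ring
    rw [e1, e2, ← zpow_add₀ ha0, ← hgcd]
    simp

/-- Kummer theory: up to a root of unity, `α` lies in the field generated by a power of it -/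
lemma kummer {α : K} (h0 : α ≠ 0) (S : Finset ℕ) (hS : ∀ p ∈ S, p.Prime)
    (hpq : ∀ p ∈ S, ∀ q ∈ S, ¬ p ∣ q - 1)
    (hc : ∀ p ∈ S, ∃ c ∈ adjoin ℚ {α ^ p}, c ^ p = α ^ p) :
    ∃ c ∈ adjoin ℚ {α ^ (∏ p ∈ S, p)}, c ^ (∏ p ∈ S, p) = α ^ (∏ p ∈ S, p) := by
  classical
  apply exists_prod_root _ (pow_ne_zero _ h0) (mem_adjoin_simple_self ℚ _) S hS
  intro p hp
  obtain ⟨c, hcF, hc⟩ := hc p hp
  set M := ∏ q ∈ S.erase p, q with hM
  have hprod : ∏ q ∈ S, q = p * M := (Finset.mul_prod_erase S (fun q => q) hp).symm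
  have hpp := hS p hp
  obtain ⟨d, hd, hpd⟩ := deg_prod (α ^ p) (pow_ne_zero _ h0) p hpp (S.erase p)
    (fun q hq => hS q (Finset.mem_of_mem_erase hq)) (by
      intro q hq h
      rcases hpp.dvd_mul.mp h with h1 | h1
      · have := (Nat.prime_dvd_prime_iff_eq hpp (hS q (Finset.mem_of_mem_erase hq))).mp h1
        exact (Finset.ne_of_mem_erase hq) this.symm
      · exact hpq p hp q (Finset.mem_of_mem_erase hq) h1)
  rw [← hM] at hd
  have h1 := root_below (α ^ p) hpp (M := M) hd hpd (x := c ^ M) (a := (α ^ p) ^ M)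
    (pow_mem hcF M) (mem_adjoin_simple_self ℚ _) (by rw [← pow_mul, mul_comm M p, pow_mul, hc])
  rw [hprod, pow_mul]
  exact h1

/-- few primes `p` are such that `α ^ p` generates a smaller field, if the Mahler measure is small -/
theorem few_bad : ∃ C : ℝ, 0 < C ∧ ∀ (K : Type) [Field K] [NumberField K] (α : K), IsIntegral ℤ α →
    α ≠ 0 → (∀ n : ℕ, 0 < n → α ^ n ≠ 1) → CInj α → lam α ≤ 1 →
    ∀ E : ℝ, Real.log (Real.log (16 * finrank ℚ K)) ≤ E →
    ∀ S : Finset ℕ, (∀ p ∈ S, p.Prime) → (∀ p ∈ S, ∀ q ∈ S, ¬ p ∣ q - 1) →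
    (∀ p ∈ S, ¬ CInj (α ^ p)) → (∀ p ∈ S, ∃ c ∈ adjoin ℚ {α ^ p}, c ^ p = α ^ p) →
    (S.card : ℝ) ≤ C * (1 + E) := by
  obtain ⟨c1, hc1, hdob⟩ := dob
  set C : ℝ := 6 + 2 * |Real.log (1 / c1)| with hC
  refine ⟨C, by positivity, ?_⟩
  intro K _ _ α hα h0 hroot hc hlam E hE S hS hpq hbad hwit
  obtain ⟨c, hcF, hcm⟩ := kummer h0 S hS hpq hwit
  set m := ∏ p ∈ S, p with hm
  have hm0 : m ≠ 0 := by
    rw [hm]
    exact Finset.prod_ne_zero_iff.mpr fun p hp => (hS p hp).ne_zero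
  -- the field generated by c
  set F := adjoin ℚ {c} with hF
  have hcα : IsIntegral ℤ c := by
    have h1 : IsIntegral ℤ (c ^ m) := by rw [hcm]; exact hα.pow m
    exact h1.of_pow (Nat.pos_of_ne_zero hm0)
  have hc0 : c ≠ 0 := by
    intro h
    rw [h, zero_pow hm0] at hcm
    exact pow_ne_zero m h0 hcm.symm
  have hlamc : lam α = lam c := by
    unfold lam
    refine Finset.sum_congr rfl fun σ _ => ?_
    have h1 : ‖σ α‖ ^ m = ‖σ c‖ ^ m := by
      rw [← norm_pow, ← norm_pow, ← map_pow, ← map_pow, hcm]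
    have h2 : ‖σ α‖ = ‖σ c‖ := (pow_left_inj₀ (norm_nonneg _) (norm_nonneg _) hm0).mp h1
    rw [h2]
  have hle : F ≤ adjoin ℚ {α ^ m} := by
    rw [hF, adjoin_simple_le_iff]; exact hcF
  have hfin := two_pow_bad h0 hc S hS hbad
  rw [← hm] at hfin
  have hfin2 : finrank ℚ F ≤ finrank ℚ (adjoin ℚ {α ^ m}) :=
    Nat.le_of_dvd finrank_pos (IntermediateField.finrank_dvd_of_le_right hle)
  have hFK : finrank ℚ F * finrank F K = finrank ℚ K := finrank_mul_finrank ℚ F K
  have hF0 : 0 < finrank ℚ F := finrank_pos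
  have h2S : 2 ^ S.card ≤ finrank F K := by
    have h1 : finrank ℚ F * 2 ^ S.card ≤ finrank ℚ F * finrank F K := by
      rw [hFK]
      calc finrank ℚ F * 2 ^ S.card = 2 ^ S.card * finrank ℚ F := mul_comm _ _
        _ ≤ 2 ^ S.card * finrank ℚ (adjoin ℚ {α ^ m}) := Nat.mul_le_mul_left _ hfin2
        _ ≤ _ := hfin
    exact Nat.le_of_mul_le_mul_left h1 hF0
  have hlamF : lam c = finrank F K * lam (AdjoinSimple.gen ℚ c) := by
    have h1 := sum_embeddings' c (fun z => Real.log (max 1 ‖z‖))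
    rw [nsmul_eq_mul] at h1
    exact h1
  have hgi : algebraMap F K (AdjoinSimple.gen ℚ c) = c := AdjoinSimple.algebraMap_gen ℚ c
  have h1 := hdob F (AdjoinSimple.gen ℚ c) (by
      have h := hcα
      rw [← hgi] at h
      exact (isIntegral_algebraMap_iff (algebraMap F K).injective).mp h) (by
      intro h
      rw [h, map_zero] at hgi
      exact hc0 hgi.symm) (by
      intro k hk h
      have h2 := congrArg (algebraMap F K) h
      rw [map_pow, hgi, map_one] at h2
      apply hroot (m * k) (Nat.mul_pos (Nat.pos_of_ne_zero hm0) hk)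
      rw [pow_mul, ← hcm, ← pow_mul, mul_comm m k, pow_mul, h2, one_pow]) (CInj_gen c)
  -- numbers
  set n := finrank ℚ K with hn
  have hn1 : (1:ℝ) ≤ n := by exact_mod_cast (finrank_pos : 0 < finrank ℚ K)
  have hfF1 : (1:ℝ) ≤ finrank ℚ F := by exact_mod_cast hF0
  have hfFn : (finrank ℚ F : ℝ) ≤ n := by
    have : finrank ℚ F ≤ n := Nat.le_of_dvd (finrank_pos : 0 < finrank ℚ K) ⟨_, hFK.symm⟩
    exact_mod_cast this
  have hlog2 : 0 < Real.log 2 := Real.log_pos (by norm_num)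
  have hl1 : 0 < Real.log (2 * finrank ℚ F) := Real.log_pos (by linarith)
  have hl2 : Real.log (2 * finrank ℚ F) ≤ Real.log (16 * n) := by
    apply Real.log_le_log (by linarith); linarith
  have hL1 : 1 ≤ Real.log (16 * n) := by
    rw [← Real.log_exp 1]
    apply Real.log_le_log (Real.exp_pos 1)
    have := Real.exp_one_lt_d9
    linarith
  have h3 : (2:ℝ) ^ S.card * (c1 / Real.log (16 * n) ^ 3) ≤ 1 := by
    calc (2:ℝ) ^ S.card * (c1 / Real.log (16 * n) ^ 3)
        ≤ finrank F K * (c1 / Real.log (2 * finrank ℚ F) ^ 3) := by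
          apply mul_le_mul
          · exact_mod_cast h2S
          · apply div_le_div_of_nonneg_left hc1.le (by positivity)
            exact pow_le_pow_left₀ hl1.le hl2 3
          · positivity
          · positivity
      _ ≤ finrank F K * lam (AdjoinSimple.gen ℚ c) := by
          apply mul_le_mul_of_nonneg_left h1 (by positivity)
      _ ≤ 1 := by rw [← hlamF, ← hlamc]; exact hlam
  have h4 : (2:ℝ) ^ S.card ≤ (1 / c1) * Real.log (16 * n) ^ 3 := by
    rw [← mul_div_assoc, div_le_one (by positivity)] at h3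
    rw [one_div, ← div_eq_inv_mul, le_div_iff₀ hc1]
    exact h3
  have h5 := Real.log_le_log (by positivity) h4
  rw [Real.log_pow, Real.log_mul (by positivity) (by positivity), Real.log_pow] at h5
  have hLL : 0 ≤ Real.log (Real.log (16 * n)) := Real.log_nonneg hL1
  have hE0 : 0 ≤ E := hLL.trans hE
  have h6 : (S.card : ℝ) * (1 / 2) ≤ S.card * Real.log 2 := by
    apply mul_le_mul_of_nonneg_left _ (Nat.cast_nonneg _)
    have := Real.log_two_gt_d9
    linarith
  have h7 : Real.log (1 / c1) ≤ |Real.log (1 / c1)| := le_abs_self _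
  have h8 : 0 ≤ |Real.log (1 / c1)| := abs_nonneg _
  have h9 : (S.card : ℝ) ≤ 6 * E + 2 * |Real.log (1 / c1)| := by
    push_cast at h5
    linarith
  rw [hC]
  nlinarith [mul_nonneg h8 hE0]

end Pool.Agent.Y947.DL
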