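import Mathlib
import Pool.Agent.Y947.DL.Poly
import Pool.Agent.Y947.DL.Kum

/-!
# Lower bounds for Mahler measures in terms of the size of the polynomial on the unit circle
-/

set_option autoImplicit false

open Finset Polynomial Module IntermediateField Pool.Agent.H388SL

namespace Pool.Agent.Y947.DL

/-- if `p` is not a polynomial in `X ^ q`, then `α ^ q` is a `q`-th power in the field it generates -/
lemma Rep.witness {p : ℤ[X]} {K : Type} [Field K] [NumberField K] {α : K} (h : Rep p K α)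
    {q : ℕ} (hq : q.Prime) (hexp : ∀ g : ℤ[X], p ≠ expand ℤ q g) :
    ∃ c ∈ adjoin ℚ {α ^ q}, c ^ q = α ^ q := by
  by_contra hcon
  push Not at hcon
  set F := adjoin ℚ {α ^ q} with hF
  have haF : α ^ q ∈ F := mem_adjoin_simple_self ℚ _
  obtain ⟨a, ha⟩ : ∃ a : F, (a : K) = α ^ q := ⟨⟨α ^ q, haF⟩, rfl⟩
  have hpow : ∀ c : F, c ^ q ≠ a := by
    intro c hc
    apply hcon c c.2
    rw [← ha, ← hc]; rfl
  have hirr : Irreducible ((X : F[X]) ^ q - C a) := X_pow_sub_C_irreducible_of_prime hq hpow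
  have hmon : ((X : F[X]) ^ q - C a).Monic := monic_X_pow_sub_C _ hq.ne_zero
  have hroot : aeval α ((X : F[X]) ^ q - C a) = 0 := by
    rw [map_sub, map_pow, aeval_X, aeval_C, IntermediateField.algebraMap_apply, ha, sub_self]
  have hmin : (X : F[X]) ^ q - C a = minpoly F α :=
    minpoly.eq_of_irreducible_of_monic hirr hroot hmon
  have hαF : IsIntegral F α := ⟨_, hmon, by rw [← Polynomial.aeval_def]; exact hroot⟩
  have h1 : finrank F (adjoin F {α}) = q := by
    rw [adjoin.finrank hαF, ← hmin, natDegree_X_pow_sub_C]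
  have h2 : q ≤ finrank F K := by
    rw [← h1]
    exact Submodule.finrank_le (adjoin F {α}).toSubmodule
  have h3 : finrank ℚ F = (minpoly ℤ (α ^ q)).natDegree := by
    rw [hF, adjoin.finrank (h.isInt.pow q).tower_top,
      minpoly.isIntegrallyClosed_eq_field_fractions' ℚ (h.isInt.pow q)]
    exact natDegree_map_eq_of_injective (algebraMap ℤ ℚ).injective_int _
  have h4 : finrank ℚ F * finrank F K = p.natDegree := by
    rw [finrank_mul_finrank, h.fin]
  have hgm : (expand ℤ q (minpoly ℤ (α ^ q))).Monic :=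
    (minpoly.monic (h.isInt.pow q)).expand hq.pos
  have hdvd : p ∣ expand ℤ q (minpoly ℤ (α ^ q)) := by
    rw [← h.minp]
    apply minpoly.isIntegrallyClosed_dvd h.isInt
    rw [Polynomial.expand_aeval, minpoly.aeval]
  have hpm : p.Monic := by rw [← h.minp]; exact minpoly.monic h.isInt
  have h5 : (expand ℤ q (minpoly ℤ (α ^ q))).natDegree ≤ p.natDegree := by
    rw [natDegree_expand, ← h3, ← h4]
    exact Nat.mul_le_mul_left _ h2
  have h6 := eq_of_monic_of_dvd_of_natDegree_le hpm hgm hdvd h5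
  exact hexp _ h6.symm

lemma not_bad_two {K : Type} [Field K] [NumberField K] {α : K} (hinj : CInj α)
    (hw : ∃ c ∈ adjoin ℚ {α ^ 2}, c ^ 2 = α ^ 2) : CInj (α ^ 2) := by
  obtain ⟨c, hcF, hc⟩ := hw
  apply CInj_of_mem hinj
  obtain ⟨F, hF⟩ : ∃ F, F = adjoin ℚ {α ^ 2} := ⟨_, rfl⟩
  rw [← hF] at hcF ⊢
  rcases sq_eq_sq_iff_eq_or_eq_neg.mp hc with h | h
  · rw [← h]; exact hcF
  · have : α = -c := by rw [h]; ring
    rw [this]; exact neg_mem hcF

/-- if `K` has no root of unity of odd prime order and `p` is not a polynomial in `X ^ q`, then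
`α ^ q` generates the same field as `α` -/
lemma Rep.inj_pow {p : ℤ[X]} {K : Type} [Field K] [NumberField K] {α : K} (h : Rep p K α)
    (hα0 : α ≠ 0) (hroots : ∀ y : K, ∀ q : ℕ, q.Prime → q ≠ 2 → y ^ q = 1 → y = 1)
    (hexp : ∀ q : ℕ, q.Prime → ∀ g : ℤ[X], p ≠ expand ℤ q g) (q : ℕ) (hq : q.Prime) :
    CInj (α ^ q) := by
  obtain ⟨c, hcF, hc⟩ := h.witness hq (hexp q hq)
  by_cases hq2 : q = 2
  · subst hq2
    exact not_bad_two h.inj ⟨c, hcF, hc⟩
  · apply CInj_of_mem h.inj
    obtain ⟨F, hF⟩ : ∃ F, F = adjoin ℚ {α ^ q} := ⟨_, rfl⟩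
    rw [← hF] at hcF ⊢
    have hc0 : c ≠ 0 := by
      intro h0
      rw [h0, zero_pow hq.ne_zero] at hc
      exact pow_ne_zero q hα0 hc.symm
    have h1 : (α / c) ^ q = 1 := by
      rw [div_pow, hc, div_self (pow_ne_zero q hα0)]
    have h2 := hroots _ q hq hq2 h1
    rw [div_eq_one_iff_eq hc0] at h2
    rw [h2]; exact hcF

/-- `ℚ(z)` contains no root of unity of odd prime order -/
def NoRoots (z : ℂ) : Prop :=
  ∀ ζ ∈ adjoin ℚ {z}, ∀ q : ℕ, q.Prime → q ≠ 2 → ζ ^ q = 1 → ζ = 1

lemma NoRoots.of_real (x : ℝ) : NoRoots (x : ℂ) := by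
  intro ζ hζ q hq hq2 h1
  have hle : adjoin ℚ {(x : ℂ)} ≤ (Complex.ofRealAm.restrictScalars ℚ : ℝ →ₐ[ℚ] ℂ).fieldRange := by
    rw [adjoin_simple_le_iff]
    exact ⟨x, rfl⟩
  obtain ⟨r, hr⟩ := hle hζ
  have hr' : (r : ℂ) = ζ := hr
  rw [← hr'] at h1 ⊢
  have h2 : r ^ q = 1 := by exact_mod_cast h1
  have hodd : Odd q := hq.odd_of_ne_two hq2
  have h3 : r = 1 := by
    apply hodd.strictMono_pow.injective
    simp only [one_pow]
    exact h2
  rw [h3, Complex.ofReal_one]

lemma NoRoots.pow {z : ℂ} (h : NoRoots z) (k : ℕ) : NoRoots (z ^ k) := by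
  intro ζ hζ
  apply h
  have hle : adjoin ℚ {z ^ k} ≤ adjoin ℚ {z} := by
    rw [adjoin_simple_le_iff]
    exact pow_mem (mem_adjoin_simple_self ℚ _) k
  exact hle hζ

/-- `|f| ≤ exp B` on the unit circle -/
def SupLe (f : ℤ[X]) (B : ℝ) : Prop := ∀ z : ℂ, ‖z‖ = 1 → ‖aeval z f‖ ≤ Real.exp B

lemma SupLe.neg {f : ℤ[X]} {B : ℝ} (h : SupLe f B) : SupLe (-f) B := by
  intro z hz
  rw [map_neg, norm_neg]
  exact h z hz

lemma SupLe.of_expand {q : ℕ} (hq : 0 < q) {g : ℤ[X]} {B : ℝ} (h : SupLe (expand ℤ q g) B) :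
    SupLe g B := by
  intro z hz
  obtain ⟨w, hw⟩ := IsAlgClosed.exists_pow_nat_eq z hq
  have hw1 : ‖w‖ = 1 := by
    have h1 : ‖w‖ ^ q = 1 := by rw [← norm_pow, hw, hz]
    exact (pow_eq_one_iff_of_nonneg (norm_nonneg w) hq.ne').mp h1
  have h2 := h w hw1
  rwa [expand_aeval, hw] at h2

/-- no ratio of distinct zeros is a root of unity -/
def Nondeg (f : ℤ[X]) : Prop :=
  ∀ z w : ℂ, aeval z f = 0 → aeval w f = 0 → z ≠ w → ∀ k : ℕ, 0 < k → z ^ k ≠ w ^ k

/-- the admissible values of the extra parameter -/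
def Adm (f : ℤ[X]) (E : ℝ) : Prop :=
  Nondeg f ∨ (∃ z : ℂ, aeval z f = 0 ∧ NoRoots z) ∨ Real.log (Real.log (16 * f.natDegree)) ≤ E

lemma natDegree_ne {f : ℤ[X]} (hM : 1 < MM f) (hm : f.Monic) : f.natDegree ≠ 0 := by
  intro h
  have h1 : f = 1 := hm.natDegree_eq_zero.mp h
  rw [h1, MM, Polynomial.map_one, mahlerMeasure_one] at hM
  exact lt_irrefl _ hM

lemma exists_zero {f : ℤ[X]} (hM : 1 < MM f) (hm : f.Monic) : ∃ z : ℂ, aeval z f = 0 := by
  apply IsAlgClosed.exists_aeval_eq_zero ℂ f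
  intro h
  exact natDegree_ne hM hm (natDegree_eq_of_degree_eq_some h)

/-- splitting a set of bad primes in a block -/
lemma blk_bad {K : Type} [Field K] [NumberField K] {α : K} (hinj : CInj α) {A : ℝ}
    (hfew : ∀ S : Finset ℕ, (∀ p ∈ S, p.Prime) → (∀ p ∈ S, ∀ q ∈ S, ¬ p ∣ q - 1) →
      (∀ p ∈ S, ¬ CInj (α ^ p)) → (∀ p ∈ S, ∃ c ∈ adjoin ℚ {α ^ p}, c ^ p = α ^ p) → (S.card : ℝ) ≤ A)
    (hwit : ∀ q : ℕ, q.Prime → ∃ c ∈ adjoin ℚ {α ^ q}, c ^ q = α ^ q)
    (Y : ℕ) (S : Finset ℕ) (hS : S ⊆ blk Y) (hbad : ∀ q ∈ S, ¬ CInj (α ^ q)) :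
    (S.card : ℝ) ≤ 2 * A := by
  classical
  have key : ∀ (Z : ℕ) (T : Finset ℕ), T ⊆ S → (∀ p ∈ T, Z < 2 * p ∧ p ≤ Z) → (T.card : ℝ) ≤ A := by
    intro Z T hT hZ
    have hTp : ∀ p ∈ T, p.Prime := fun p hp => (mem_blk.mp (hS (hT hp))).1
    have h2 : ∀ p ∈ T, p ≠ 2 := by
      intro p hp h
      subst h
      exact hbad 2 (hT hp) (not_bad_two hinj (hwit 2 Nat.prime_two))
    apply hfew T hTp _ (fun p hp => hbad p (hT hp)) (fun p hp => hwit p (hTp p hp))
    intro p hp q hq hdvd
    obtain ⟨k, hk⟩ := hdvd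
    have hpo := (hTp p hp).odd_of_ne_two (h2 p hp)
    have hqo := (hTp q hq).odd_of_ne_two (h2 q hq)
    have hq1 := (hTp q hq).two_le
    have hZp := hZ p hp
    have hZq := hZ q hq
    have hk1 : k < 2 := by
      by_contra hc
      push Not at hc
      have : p * 2 ≤ p * k := Nat.mul_le_mul_left p hc
      omega
    have hk0 : k ≠ 0 := by
      rintro rfl
      omega
    have hk' : k = 1 := by omega
    subst hk'
    rw [mul_one] at hk
    obtain ⟨a, ha⟩ := hpo
    obtain ⟨b, hb⟩ := hqo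
    omega
  have h1 := key Y (S.filter (fun p => Y < 2 * p)) (Finset.filter_subset _ _) (by
    intro p hp
    rw [Finset.mem_filter] at hp
    exact ⟨hp.2, (mem_blk.mp (hS hp.1)).2.2⟩)
  have h2 := key (Y / 2) (S.filter (fun p => ¬ Y < 2 * p)) (Finset.filter_subset _ _) (by
    intro p hp
    rw [Finset.mem_filter] at hp
    have h3 := mem_blk.mp (hS hp.1)
    have h4 := hp.2
    omega)
  have h3 : (S.card : ℝ) = (S.filter (fun p => Y < 2 * p)).card + (S.filter (fun p => ¬ Y < 2 * p)).card := by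
    exact_mod_cast (Finset.card_filter_add_card_filter_not (s := S) (fun p => Y < 2 * p)).symm
  rw [h3]
  linarith

/-- monic units -/
theorem monic_case : ∃ c : ℝ, 0 < c ∧ ∀ f : ℤ[X], Irreducible f → f.Monic → |f.coeff 0| = 1 →
    1 < MM f → ∀ B : ℝ, 0 ≤ B → SupLe f B → ∀ E : ℝ, 0 ≤ E → Adm f E →
    c / ((2 + B) * ((2 + B) ^ 2 + E)) ≤ Real.log (MM f) := by
  obtain ⟨c0, hc0, hcm⟩ := field_main
  obtain ⟨C, hC, hfew⟩ := few_bad
  set D : ℝ := max 1 C with hD
  have hD1 : 1 ≤ D := le_max_left _ _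
  have hDC : C ≤ D := le_max_right _ _
  have hD0 : 0 < D := by linarith
  set c := min (c0 / D) 1 with hc
  have hcpos : 0 < c := lt_min (by positivity) one_pos
  have hcc0 : c ≤ c0 / D := min_le_left _ _
  have hc1 : c ≤ 1 := min_le_right _ _
  refine ⟨c, hcpos, ?_⟩
  -- the bound once the bad primes are under control
  have hfinish : ∀ f : ℤ[X], ∀ (K : Type) [Field K] [NumberField K] (α : K), Rep f K α →
      |f.coeff 0| = 1 → 1 < MM f → ∀ B : ℝ, 0 ≤ B → SupLe f B → ∀ E : ℝ, 0 ≤ E →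
      (∀ Y : ℕ, ∀ S : Finset ℕ, S ⊆ blk Y → (∀ q ∈ S, ¬ CInj (α ^ q)) →
        (S.card : ℝ) ≤ 2 * (D * ((2 + B) ^ 2 + E))) →
      c / ((2 + B) * ((2 + B) ^ 2 + E)) ≤ Real.log (MM f) := by
    intro f K _ _ α hrep hf0 hM B hB hsup E hE hbad
    have h1 := hrep.main hcm hf0 hM (B := B) (G := D * ((2 + B) ^ 2 + E)) (by nlinarith) hsup hbad
    refine le_trans ?_ h1
    have e : c0 / ((2 + B) * (D * ((2 + B) ^ 2 + E))) = (c0 / D) / ((2 + B) * ((2 + B) ^ 2 + E)) := by
      field_simp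
    rw [e]
    exact div_le_div_of_nonneg_right hcc0 (by positivity)
  have hempty : ∀ (S : Finset ℕ) (α : Prop) (B E : ℝ), 0 ≤ B → 0 ≤ E → S = ∅ →
      (S.card : ℝ) ≤ 2 * (D * ((2 + B) ^ 2 + E)) := by
    intro S _ B E hB hE hS
    rw [hS]
    simp only [Finset.card_empty, Nat.cast_zero]
    positivity
  -- second and third cases by induction on the degree
  have ind : ∀ n : ℕ, ∀ f : ℤ[X], f.natDegree = n → Irreducible f → f.Monic → |f.coeff 0| = 1 →
      1 < MM f → ∀ B : ℝ, 0 ≤ B → SupLe f B → ∀ E : ℝ, 0 ≤ E →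
      ((∃ z : ℂ, aeval z f = 0 ∧ NoRoots z) ∨ Real.log (Real.log (16 * f.natDegree)) ≤ E) →
      c / ((2 + B) * ((2 + B) ^ 2 + E)) ≤ Real.log (MM f) := by
    intro n
    induction n using Nat.strong_induction_on with
    | _ n ih =>
      intro f hfn hf hm hf0 hM B hB hsup E hE hcase
      by_cases hexp : ∃ q : ℕ, q.Prime ∧ ∃ g : ℤ[X], f = expand ℤ q g
      · obtain ⟨q, hq, g, hg⟩ := hexp
        have hgirr : Irreducible g := of_irreducible_expand hq.ne_zero (by rw [← hg]; exact hf)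
        have hgm : g.Monic := by
          have h1 := hm
          rw [hg, Monic, leadingCoeff_expand hq.pos] at h1
          exact h1
        have hMM : MM f = MM g := by rw [hg, MM_expand hq.pos]
        have hg0 : |g.coeff 0| = 1 := by
          rw [hg, coeff_expand hq.pos, if_pos (dvd_zero q), Nat.zero_div] at hf0
          exact hf0
        have hg1 : g.natDegree ≠ 0 := natDegree_ne (by rw [← hMM]; exact hM) hgm
        have hgd : g.natDegree < n := by
          rw [← hfn, hg, natDegree_expand]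
          have := hq.two_le
          have h2 : 0 < g.natDegree := Nat.pos_of_ne_zero hg1
          nlinarith
        have h1 := ih g.natDegree hgd g rfl hgirr hgm hg0 (by rw [← hMM]; exact hM) B hB
          (SupLe.of_expand hq.pos (by rw [← hg]; exact hsup)) E hE (by
            rcases hcase with ⟨z, hz, hNR⟩ | hE'
            · left
              exact ⟨z ^ q, by rw [← expand_aeval, ← hg]; exact hz, hNR.pow q⟩
            · right
              refine le_trans ?_ hE'
              have h2 : (1:ℝ) ≤ g.natDegree := by exact_mod_cast Nat.pos_of_ne_zero hg1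
              have h3 : (g.natDegree : ℝ) ≤ f.natDegree := by
                rw [hfn]; exact_mod_cast hgd.le
              have h4 : 0 < Real.log (16 * g.natDegree) := Real.log_pos (by linarith)
              apply Real.log_le_log h4
              apply Real.log_le_log (by linarith)
              linarith)
        rw [hMM]
        exact h1
      · push Not at hexp
        rcases hcase with ⟨z, hz, hNR⟩ | hE'
        · obtain ⟨hNF, hrep⟩ := exists_rep f hf hm z hz
          apply hfinish f _ _ hrep hf0 hM B hB hsup E hE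
          intro Y S hSY hS
          apply hempty S True B E hB hE
          rw [Finset.eq_empty_iff_forall_notMem]
          intro q hqS
          apply hS q hqS
          apply hrep.inj_pow (hrep.ne_zero hf0) _ hexp q (mem_blk.mp (hSY hqS)).1
          intro y r hr hr2 hy
          have h2 := hNR (y : ℂ) y.2 r hr hr2 (by
            have := congrArg (fun t : adjoin ℚ {z} => (t : ℂ)) hy
            simpa using this)
          exact_mod_cast h2
        · obtain ⟨z, hz⟩ := exists_zero hM hm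
          obtain ⟨hNF, hrep⟩ := exists_rep f hf hm z hz
          by_cases hbig : 1 ≤ Real.log (MM f)
          · refine le_trans ?_ hbig
            rw [div_le_one (by positivity)]
            have h2 : 1 ≤ (2 + B) * ((2 + B) ^ 2 + E) := by nlinarith
            linarith
          push Not at hbig
          have hlam : lam (AdjoinSimple.gen ℚ z) ≤ 1 := by
            rw [← hrep.log_MM]; exact hbig.le
          have hE'' : Real.log (Real.log (16 * finrank ℚ (adjoin ℚ {z}))) ≤ E := by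
            rw [hrep.fin]; exact hE'
          have hfew' := hfew _ (AdjoinSimple.gen ℚ z) hrep.isInt (hrep.ne_zero hf0) (hrep.not_root hM)
            hrep.inj hlam E hE''
          apply hfinish f _ _ hrep hf0 hM B hB hsup E hE
          intro Y S hSY hS
          refine (blk_bad hrep.inj hfew' (fun q hq => hrep.witness hq (hexp q hq)) Y S hSY hS).trans ?_
          have h3 : C * (1 + E) ≤ D * ((2 + B) ^ 2 + E) := by
            apply mul_le_mul hDC _ (by positivity) hD0.le
            nlinarith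
          linarith
  intro f hf hm hf0 hM B hB hsup E hE hadm
  rcases hadm with hnd | hrest
  · obtain ⟨z, hz⟩ := exists_zero hM hm
    obtain ⟨hNF, hrep⟩ := exists_rep f hf hm z hz
    apply hfinish f _ _ hrep hf0 hM B hB hsup E hE
    intro Y S hSY hS
    apply hempty S True B E hB hE
    rw [Finset.eq_empty_iff_forall_notMem]
    intro q hqS
    apply hS q hqS
    intro σ τ hστ
    dsimp only at hστ
    by_contra hne
    have hne' : σ (AdjoinSimple.gen ℚ z) ≠ τ (AdjoinSimple.gen ℚ z) := fun h => hne (hrep.inj h)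
    have hz' : ∀ ρ : adjoin ℚ {z} →ₐ[ℚ] ℂ, aeval (ρ (AdjoinSimple.gen ℚ z)) f = 0 := by
      intro ρ
      rw [← map_aevalZ, ← hrep.minp, minpoly.aeval, map_zero]
    apply hnd _ _ (hz' σ) (hz' τ) hne' q (mem_blk.mp (hSY hqS)).1.pos
    rw [← map_pow, ← map_pow]
    exact hστ
  · exact ind _ f rfl hf hm hf0 hM B hB hsup E hE hrest

/-- the general irreducible case -/
theorem irr_case : ∃ c : ℝ, 0 < c ∧ ∀ f : ℤ[X], Irreducible f →
    1 < MM f → ∀ B : ℝ, 0 ≤ B → SupLe f B → ∀ E : ℝ, 0 ≤ E → Adm f E →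
    c / ((1 + B) * ((1 + B) ^ 2 + E)) ≤ Real.log (MM f) := by
  obtain ⟨c1, hc1, hc⟩ := monic_case
  have hlog2 : 0 < Real.log 2 := Real.log_pos (by norm_num)
  set c := min (c1 / 8) (Real.log 2) with hcdef
  have hc0 : 0 < c := lt_min (by positivity) hlog2
  refine ⟨c, hc0, ?_⟩
  intro f hf hM B hB hsup E hE hadm
  have hcmp : c / ((1 + B) * ((1 + B) ^ 2 + E)) ≤ c1 / ((2 + B) * ((2 + B) ^ 2 + E)) := by
    have h1 : c ≤ c1 / 8 := min_le_left _ _
    have h2 : (2 + B) * ((2 + B) ^ 2 + E) ≤ 8 * ((1 + B) * ((1 + B) ^ 2 + E)) := by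
      have h3 : (2 + B) * ((2 + B) ^ 2 + E) ≤ (2 * (1 + B)) * (4 * ((1 + B) ^ 2 + E)) := by
        apply mul_le_mul (by linarith) (by nlinarith) (by positivity) (by positivity)
      linarith
    rw [div_le_div_iff₀ (by positivity) (by positivity)]
    calc c * ((2 + B) * ((2 + B) ^ 2 + E)) ≤ (c1 / 8) * (8 * ((1 + B) * ((1 + B) ^ 2 + E))) := by
          apply mul_le_mul h1 h2 (by positivity) (by positivity)
      _ = c1 * ((1 + B) * ((1 + B) ^ 2 + E)) := by ring
  by_cases hbig : 2 ≤ MM f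
  · have h1 : c ≤ Real.log 2 := min_le_right _ _
    have h2 : Real.log 2 ≤ Real.log (MM f) := Real.log_le_log (by norm_num) hbig
    have h3 : c / ((1 + B) * ((1 + B) ^ 2 + E)) ≤ c := by
      apply div_le_self hc0.le
      nlinarith
    linarith
  push Not at hbig
  have hf0 : f ≠ 0 := hf.ne_zero
  have hlc : |f.leadingCoeff| = 1 := by
    have h1 : 1 ≤ |f.leadingCoeff| := Int.one_le_abs (leadingCoeff_ne_zero.mpr hf0)
    have h3 := leadingCoeff_le_MM f
    by_contra hne
    have h2 : 2 ≤ |f.leadingCoeff| := by omega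
    have h4 : (2:ℝ) ≤ |(f.leadingCoeff : ℝ)| := by exact_mod_cast h2
    linarith
  have hcc : |f.coeff 0| = 1 := by
    have h0 : f.coeff 0 ≠ 0 := by
      intro h
      have hdvd : (X : ℤ[X]) ∣ f := X_dvd_iff.mpr h
      obtain ⟨g, hg⟩ := hdvd
      rcases hf.isUnit_or_isUnit hg with h1 | h1
      · exact Polynomial.not_isUnit_X h1
      · have h2 : MM f = 1 := by
          rw [hg, MM_mul]
          obtain ⟨r, hr, hrg⟩ := Polynomial.isUnit_iff.mp h1
          have h3 : MM (X : ℤ[X]) = 1 := by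
            rw [MM, Polynomial.map_X]
            have := mahlerMeasure_X_sub_C 0
            simpa using this
          have h4 : MM g = 1 := by
            rw [← hrg, MM, Polynomial.map_C, mahlerMeasure_const, eq_intCast, Complex.norm_intCast]
            rcases Int.isUnit_iff.mp hr with h5 | h5 <;> simp [h5]
          rw [h3, h4, one_mul]
        linarith
    have h1 : 1 ≤ |f.coeff 0| := Int.one_le_abs h0
    have h3 := coeff_zero_le_MM f
    by_contra hne
    have h2 : 2 ≤ |f.coeff 0| := by omega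
    have h4 : (2:ℝ) ≤ |(f.coeff 0 : ℝ)| := by exact_mod_cast h2
    linarith
  rcases (abs_eq (by norm_num : (0:ℤ) ≤ 1)).mp hlc with h | h
  · exact hcmp.trans (hc f hf h hcc hM B hB hsup E hE hadm)
  · have h1 := hc (-f) (by simpa using (irreducible_units_mul (-1 : ℤ[X]ˣ)).mpr hf) (by
        rw [Monic, leadingCoeff_neg, h]; norm_num) (by rw [coeff_neg, abs_neg]; exact hcc)
      (by rw [MM_neg]; exact hM) B hB hsup.neg E hE (by
        unfold Adm Nondeg at hadm ⊢
        simp only [map_neg, neg_eq_zero, natDegree_neg]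
        exact hadm)
    rw [MM_neg] at h1
    exact hcmp.trans h1

end Pool.Agent.Y947.DL
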